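import Pool.Agent.Lib.P71954f.Lists

/-!
# Module MengerAB (P71954f): Menger's theorem for digraphs, set version

If no set of fewer than `k` vertices separates `A` from `B` then there are `k` pairwise disjoint sets `L i` each of which contains a walk from `A` to `B`.

Sketch (Goering's proof, induction on the number of arcs, i.e. on `Nat.card {p : V × V // G p.1 p.2}`, or on a `Finset (V × V)` of arcs).
* No arcs with different ends: `RS` is equality, so `A ∩ B` meets every ..., hence `|A ∩ B| ≥ k` (take `S` = finset of `A ∩ B`), trivial walks.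
* Arc `(x, y)`, `x ≠ y`, `G' := G` minus this arc.  If `G'` satisfies the hypothesis: done by induction (monotone in `G`).  Otherwise some `S`, `|S| < k`,
  has no `A`-`B` walk of `G'` in `Sᶜ`.  Let `P := insert x S`, `P' := insert y S`.
  (i) hypothesis for `(G', A, P)`: if `|T| < k` there is a walk of `G` from `A` to `B` in `Tᶜ`; if it meets `P` the part before its first vertex in `P` is a walk of `G'` (the arc starts
      at `x ∈ P`); if it does not meet `P` it is a walk of `G'` avoiding `S`: impossible.  (ii) symmetric for `(G', P', B)`.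
      Since a set of size `< k` does not separate in `G` while `S ∪ {x}` does, `|S ∪ {x}| ≥ k`, so `|P| = |P'| = k`, `x ∉ S`, `y ∉ S`.
  Induction gives `k` disjoint `L i` (walks of `G'` from `A` to `P`), `k` disjoint `L' j` (walks of `G'` from `P'` to `B`); by counting every element of `P` is the end
  of exactly one, and `L i ∩ P = {p i}`.  Take the `L i` tight (every vertex of `L i` other than `p i` is reached from `a i` inside `L i \ {p i}`: simple paths), same for `L' j`.
  For `s ∈ S`: union of the `L i` ending at `s` and the `L' j` starting at `s`; for `x`: union of `L i` ending at `x` and `L' j` starting at `y` with the arc `x → y`.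
  Disjoint: a common vertex `v` of `L i` and `L' j` that is not the common end in `S` gives an `A`-`B` walk of `G'` avoiding `S`.
Any other proof of Menger's theorem is fine (e.g. with lists, with maximal systems and augmenting walks), only the final statement matters.
-/

set_option autoImplicit false

namespace P71954f

namespace MengerABAux

variable {V : Type*} [DecidableEq V]

/-- every walk from `A` to `B` meets `S` -/
def Sep (E : Finset (V × V)) (A B : Set V) (S : Finset V) : Prop :=
  ∀ l : List V, l.IsChain (fun a b => (a, b) ∈ E) → (∃ a ∈ A, l.head? = some a) →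
    (∃ b ∈ B, l.getLast? = some b) → ∃ v ∈ l, v ∈ S

/-- there are `k` pairwise disjoint paths from `A` to `B` -/
def Linked (E : Finset (V × V)) (A B : Set V) (k : ℕ) : Prop :=
  ∃ L : Fin k → List V, (∀ i, (L i).Nodup ∧ (L i).IsChain (fun a b => (a, b) ∈ E) ∧
    (∃ a ∈ A, (L i).head? = some a) ∧ (∃ b ∈ B, (L i).getLast? = some b)) ∧
    ∀ i j, i ≠ j → ∀ v ∈ L i, v ∉ L j

omit [DecidableEq V] in
theorem first_mem (p : V → Prop) (l : List V) (h : ∃ v ∈ l, p v) :
    ∃ l1 v l2, l = l1 ++ v :: l2 ∧ p v ∧ ∀ w ∈ l1, ¬ p w := by
  classical
  induction l with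
  | nil => simp at h
  | cons a l ih =>
    by_cases ha : p a
    · exact ⟨[], a, l, rfl, ha, by simp⟩
    · obtain ⟨v, hv, hpv⟩ := h
      rcases List.mem_cons.1 hv with rfl | hv
      · exact absurd hpv ha
      · obtain ⟨l1, w, l2, e, hw, hl1⟩ := ih ⟨v, hv, hpv⟩
        refine ⟨a :: l1, w, l2, by rw [e]; rfl, hw, ?_⟩
        intro z hz
        rcases List.mem_cons.1 hz with rfl | hz
        · exact ha
        · exact hl1 z hz

omit [DecidableEq V] in
theorem last_mem (p : V → Prop) (l : List V) (h : ∃ v ∈ l, p v) :
    ∃ l1 v l2, l = l1 ++ v :: l2 ∧ p v ∧ ∀ w ∈ l2, ¬ p w := by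
  obtain ⟨l1, v, l2, e, hv, hl⟩ := first_mem p l.reverse (by simpa using h)
  refine ⟨l2.reverse, v, l1.reverse, ?_, hv, by simpa using hl⟩
  have := congrArg List.reverse e
  rw [List.reverse_reverse] at this
  rw [this]
  simp

omit [DecidableEq V] in
theorem chain_snoc {R S : V → V → Prop} {l : List V} {p : V} (h : (l ++ [p]).IsChain R)
    (hRS : ∀ a ∈ l, ∀ b, R a b → S a b) : (l ++ [p]).IsChain S := by
  induction l with
  | nil => exact List.isChain_singleton p
  | cons a l ih =>
    cases l with
    | nil =>
      simp only [List.cons_append, List.nil_append, List.isChain_cons_cons] at h ⊢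
      exact ⟨hRS a (by simp) _ h.1, List.isChain_singleton p⟩
    | cons b l =>
      simp only [List.cons_append, List.isChain_cons_cons] at h ⊢
      exact ⟨hRS a (by simp) _ h.1, ih h.2 (fun c hc => hRS c (List.mem_cons_of_mem _ hc))⟩

omit [DecidableEq V] in
theorem chain_cons {R S : V → V → Prop} {l : List V} {q : V} (h : (q :: l).IsChain R)
    (hRS : ∀ b ∈ l, ∀ a, R a b → S a b) : (q :: l).IsChain S := by
  induction l generalizing q with
  | nil => exact List.isChain_singleton q
  | cons b l ih =>
    rw [List.isChain_cons_cons] at h ⊢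
    exact ⟨hRS b (by simp) _ h.1, ih h.2 (fun c hc => hRS c (List.mem_cons_of_mem _ hc))⟩

theorem menger (E : Finset (V × V)) : ∀ (A B : Set V) (k : ℕ), [Finite V] →
    (∀ S : Finset V, Sep E A B S → k ≤ S.card) → Linked E A B k := by
  classical
  induction E using Finset.induction_on with
  | empty =>
    intro A B k _ h
    have : Fintype V := Fintype.ofFinite V
    have h1 := h (Finset.univ.filter (fun v => v ∈ A ∧ v ∈ B)) (by
      rintro l hl ⟨a, ha, hla⟩ ⟨b, hb, hlb⟩
      cases l with
      | nil => simp at hla
      | cons c l =>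
        cases l with
        | nil =>
          simp only [List.head?_cons, Option.some.injEq, List.getLast?_singleton] at hla hlb
          subst hla; subst hlb
          exact ⟨c, by simp, by simp [ha, hb]⟩
        | cons d l =>
          rw [List.isChain_cons_cons] at hl
          exact absurd hl.1 (by simp))
    obtain ⟨f⟩ : Nonempty (Fin k ↪ {v // v ∈ Finset.univ.filter (fun v => v ∈ A ∧ v ∈ B)}) := by
      rw [Function.Embedding.nonempty_iff_card_le, Fintype.card_fin, Fintype.card_coe]
      exact h1
    refine ⟨fun i => [(f i).1], fun i => ?_, ?_⟩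
    · have := (Finset.mem_filter.1 (f i).2).2
      exact ⟨by simp, List.isChain_singleton _, ⟨(f i).1, this.1, rfl⟩, ⟨(f i).1, this.2, rfl⟩⟩
    · intro i j hij v hv hv'
      simp only [List.mem_singleton] at hv hv'
      exact hij (f.injective (Subtype.ext (hv.symm.trans hv')))
  | insert e E' he ih =>
    intro A B k _ h
    obtain ⟨x, y⟩ := e
    have hmono : ∀ {l : List V}, l.IsChain (fun a b => (a, b) ∈ E') →
        l.IsChain (fun a b => (a, b) ∈ insert (x, y) E') := fun hl =>
      hl.imp (fun a b hab => Finset.mem_insert_of_mem hab)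
    by_cases hall : ∀ S : Finset V, Sep E' A B S → k ≤ S.card
    · obtain ⟨L, h1, h2⟩ := ih A B k hall
      exact ⟨L, fun i => ⟨(h1 i).1, hmono (h1 i).2.1, (h1 i).2.2⟩, h2⟩
    push Not at hall
    obtain ⟨S, hS, hSk⟩ := hall
    -- the two separators of `E`
    have hP : Sep (insert (x, y) E') A B (insert x S) := by
      intro l hl ha hb
      by_contra hcon
      push Not at hcon
      obtain ⟨v, hv, hvS⟩ := hS l (by
        cases l using List.reverseRecOn with
        | nil => exact List.isChain_nil
        | append_singleton l p =>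
          refine chain_snoc hl (fun a ha b hab => ?_)
          rcases Finset.mem_insert.1 hab with h1 | h1
          · have hax : a = x := congrArg Prod.fst h1
            exact absurd (Finset.mem_insert.2 (Or.inl hax)) (hcon a (by simp [ha]))
          · exact h1) ha hb
      exact hcon v hv (Finset.mem_insert_of_mem hvS)
    have hQ : Sep (insert (x, y) E') A B (insert y S) := by
      intro l hl ha hb
      by_contra hcon
      push Not at hcon
      obtain ⟨v, hv, hvS⟩ := hS l (by
        cases l with
        | nil => exact List.isChain_nil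
        | cons q l =>
          refine chain_cons hl (fun b hb a hab => ?_)
          rcases Finset.mem_insert.1 hab with h1 | h1
          · have hax : b = y := congrArg Prod.snd h1
            exact absurd (Finset.mem_insert.2 (Or.inl hax)) (hcon b (by simp [hb]))
          · exact h1) ha hb
      exact hcon v hv (Finset.mem_insert_of_mem hvS)
    have cP := h _ hP
    have cQ := h _ hQ
    have cP' := Finset.card_insert_le x S
    have cQ' := Finset.card_insert_le y S
    have eP : (insert x S).card = k := by omega
    have eQ : (insert y S).card = k := by omega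
    -- the two linkages
    obtain ⟨L, L1, L2⟩ := ih A (↑(insert x S)) k (by
      intro T hT
      apply h
      intro l hl ha hb
      obtain ⟨l1, p, l2, e, hp, hl1⟩ := first_mem (fun v => v ∈ insert x S) l (hP l hl ha hb)
      subst e
      rw [List.isChain_split] at hl
      have hc : (l1 ++ [p]).IsChain (fun a b => (a, b) ∈ E') :=
        chain_snoc hl.1 (fun a ha b hab => by
          rcases Finset.mem_insert.1 hab with h1 | h1
          · have hax : a = x := congrArg Prod.fst h1
            exact absurd (Finset.mem_insert.2 (Or.inl hax)) (hl1 a ha)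
          · exact h1)
      obtain ⟨v, hv, hvT⟩ := hT (l1 ++ [p]) hc (by
        obtain ⟨a, ha, hla⟩ := ha
        refine ⟨a, ha, ?_⟩
        rw [← hla]
        cases l1 <;> simp) ⟨p, by exact_mod_cast hp, by simp⟩
      refine ⟨v, ?_, hvT⟩
      simp only [List.mem_append, List.mem_cons, List.not_mem_nil, or_false] at hv ⊢
      tauto)
    obtain ⟨M, M1, M2⟩ := ih (↑(insert y S)) B k (by
      intro T hT
      apply h
      intro l hl ha hb
      obtain ⟨l1, p, l2, e, hp, hl2⟩ := last_mem (fun v => v ∈ insert y S) l (hQ l hl ha hb)
      subst e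
      rw [List.isChain_split] at hl
      have hc : (p :: l2).IsChain (fun a b => (a, b) ∈ E') :=
        chain_cons hl.2 (fun b hb a hab => by
          rcases Finset.mem_insert.1 hab with h1 | h1
          · have hax : b = y := congrArg Prod.snd h1
            exact absurd (Finset.mem_insert.2 (Or.inl hax)) (hl2 b hb)
          · exact h1)
      obtain ⟨v, hv, hvT⟩ := hT (p :: l2) hc ⟨p, by exact_mod_cast hp, by simp⟩ (by
        obtain ⟨b, hb, hlb⟩ := hb
        refine ⟨b, hb, ?_⟩
        rw [← hlb, List.getLast?_append_cons])
      refine ⟨v, ?_, hvT⟩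
      simp only [List.mem_append, List.mem_cons] at hv ⊢
      tauto)
    -- ends of the paths
    choose a' ha' hLh using fun i => (L1 i).2.2.1
    choose p hp hLl using fun i => (L1 i).2.2.2
    choose q hq hMh using fun i => (M1 i).2.2.1
    choose b' hb' hMl using fun i => (M1 i).2.2.2
    have pL : ∀ i, p i ∈ L i := fun i => List.mem_of_getLast? (hLl i)
    have qM : ∀ i, q i ∈ M i := fun i => List.mem_of_head? (hMh i)
    have pinj : Function.Injective p := fun i j hij => by
      by_contra hne
      exact L2 i j hne (p i) (pL i) (hij ▸ pL j)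
    have qinj : Function.Injective q := fun i j hij => by
      by_contra hne
      exact M2 i j hne (q i) (qM i) (hij ▸ qM j)
    have psurj : ∀ s ∈ insert x S, ∃ i, p i = s := by
      intro s hs
      have h1 : Finset.univ.image p = insert x S := by
        apply Finset.eq_of_subset_of_card_le
        · intro v hv
          obtain ⟨i, _, rfl⟩ := Finset.mem_image.1 hv
          exact_mod_cast hp i
        · rw [Finset.card_image_of_injective _ pinj, eP]
          simp
      rw [← h1] at hs
      obtain ⟨i, _, hi⟩ := Finset.mem_image.1 hs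
      exact ⟨i, hi⟩
    have qsurj : ∀ s ∈ insert y S, ∃ i, q i = s := by
      intro s hs
      have h1 : Finset.univ.image q = insert y S := by
        apply Finset.eq_of_subset_of_card_le
        · intro v hv
          obtain ⟨i, _, rfl⟩ := Finset.mem_image.1 hv
          exact_mod_cast hq i
        · rw [Finset.card_image_of_injective _ qinj, eQ]
          simp
      rw [← h1] at hs
      obtain ⟨i, _, hi⟩ := Finset.mem_image.1 hs
      exact ⟨i, hi⟩
    have hxS : x ∉ S := by
      intro hx
      rw [Finset.insert_eq_of_mem hx] at eP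
      omega
    have hyS : y ∉ S := by
      intro hy
      rw [Finset.insert_eq_of_mem hy] at eQ
      omega
    have Lonly : ∀ i, ∀ v ∈ L i, v ∈ insert x S → v = p i := by
      intro i v hv hvP
      obtain ⟨j, rfl⟩ := psurj v hvP
      by_contra hne
      exact L2 i j (fun h => hne (by rw [h])) _ hv (pL j)
    have Monly : ∀ i, ∀ v ∈ M i, v ∈ insert y S → v = q i := by
      intro i v hv hvP
      obtain ⟨j, rfl⟩ := qsurj v hvP
      by_contra hne
      exact M2 i j (fun h => hne (by rw [h])) _ hv (qM j)
    -- the two linkages meet in `S` only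
    have cross : ∀ i j, ∀ v ∈ L i, v ∈ M j → v ∈ S := by
      intro i j v hvL hvM
      by_contra hvS
      obtain ⟨l1, l2, e1⟩ := List.append_of_mem hvL
      obtain ⟨m1, m2, e2⟩ := List.append_of_mem hvM
      have c1 := (L1 i).2.1
      have c2 := (M1 j).2.1
      have n1 := (L1 i).1
      have n2 := (M1 j).1
      rw [e1, List.isChain_split] at c1
      rw [e2, List.isChain_split] at c2
      have hc : (l1 ++ v :: m2).IsChain (fun a b => (a, b) ∈ E') := by
        rw [List.isChain_split]
        exact ⟨c1.1, c2.2⟩
      obtain ⟨s, hs, hsS⟩ := hS _ hc (by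
        refine ⟨a' i, ha' i, ?_⟩
        rw [← hLh i, e1]
        cases l1 <;> simp) (by
        refine ⟨b' j, hb' j, ?_⟩
        rw [← hMl j, e2, List.getLast?_append_cons, List.getLast?_append_cons])
      have hsv : s ≠ v := fun h => hvS (h ▸ hsS)
      rcases List.mem_append.1 hs with hs | hs
      · have h1 : s = p i := Lonly i s (by rw [e1]; simp [hs]) (Finset.mem_insert_of_mem hsS)
        have h2 : s ∈ v :: l2 := by
          have h3 := hLl i
          rw [e1, List.getLast?_append_cons, ← h1] at h3
          exact List.mem_of_getLast? h3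
        rw [e1] at n1
        exact (List.disjoint_of_nodup_append n1) hs h2
      · rcases List.mem_cons.1 hs with hs | hs
        · exact hsv hs
        · have h1 : s = q j := Monly j s (by rw [e2]; simp [hs]) (Finset.mem_insert_of_mem hsS)
          have h3 := hMh j
          rw [e2, ← h1] at h3
          cases m1 with
          | nil =>
            simp only [List.nil_append, List.head?_cons, Option.some.injEq] at h3
            exact hsv h3.symm
          | cons c m1 =>
            simp only [List.cons_append, List.head?_cons, Option.some.injEq] at h3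
            rw [e2, h3] at n2
            exact (List.disjoint_of_nodup_append n2) (List.mem_cons_self) (List.mem_cons_of_mem _ hs)
    -- concatenation
    have hpS : ∀ i, p i ≠ x → p i ∈ S := by
      intro i hi
      have h1 : p i ∈ insert x S := by exact_mod_cast hp i
      exact (Finset.mem_insert.1 h1).resolve_left hi
    have hj : ∀ i, ∃ j, (p i = x ∧ q j = y) ∨ (p i ≠ x ∧ q j = p i) := by
      intro i
      by_cases hi : p i = x
      · obtain ⟨j, hj⟩ := qsurj y (Finset.mem_insert_self _ _)
        exact ⟨j, Or.inl ⟨hi, hj⟩⟩
      · obtain ⟨j, hj⟩ := qsurj (p i) (Finset.mem_insert_of_mem (hpS i hi))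
        exact ⟨j, Or.inr ⟨hi, hj⟩⟩
    choose jj hjj using hj
    have jinj : Function.Injective jj := by
      intro i i' hii
      rcases hjj i with ⟨h1, h2⟩ | ⟨h1, h2⟩ <;> rcases hjj i' with ⟨h3, h4⟩ | ⟨h3, h4⟩
      · exact pinj (h1.trans h3.symm)
      · rw [hii, h4] at h2
        exact absurd (h2 ▸ hpS i' h3) hyS
      · rw [hii, h4] at h2
        exact absurd (h2 ▸ hpS i h1) hyS
      · rw [hii, h4] at h2
        exact pinj h2.symm
    have hN : ∀ i, ∃ N : List V, N.Nodup ∧ N.IsChain (fun a b => (a, b) ∈ insert (x, y) E') ∧
        (∃ a ∈ A, N.head? = some a) ∧ (∃ b ∈ B, N.getLast? = some b) ∧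
        ∀ v ∈ N, v ∈ L i ∨ v ∈ M (jj i) := by
      intro i
      have hLne : L i ≠ [] := fun h => by
        have := pL i
        rw [h] at this
        simp at this
      obtain ⟨c, l, hcl⟩ := List.exists_cons_of_ne_nil hLne
      have hMne : M (jj i) ≠ [] := fun h => by
        have := qM (jj i)
        rw [h] at this
        simp at this
      obtain ⟨d, m, hdm⟩ := List.exists_cons_of_ne_nil hMne
      have hdq : d = q (jj i) := by
        have := hMh (jj i)
        rw [hdm] at this
        simpa using this
      rcases hjj i with ⟨h1, h2⟩ | ⟨h1, h2⟩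
      · refine ⟨L i ++ M (jj i), ?_, ?_, ⟨a' i, ha' i, ?_⟩, ⟨b' (jj i), hb' (jj i), ?_⟩, ?_⟩
        · rw [List.nodup_append]
          refine ⟨(L1 i).1, (M1 _).1, ?_⟩
          intro v hv w hw hvw
          subst hvw
          have h3 := cross i (jj i) v hv hw
          have h4 := Lonly i v hv (Finset.mem_insert_of_mem h3)
          rw [h4, h1] at h3
          exact hxS h3
        · rw [List.isChain_append]
          refine ⟨hmono (L1 i).2.1, hmono (M1 _).2.1, ?_⟩
          intro u hu w hw
          rw [hLl i] at hu
          rw [hMh (jj i)] at hw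
          simp only [Option.mem_def, Option.some.injEq] at hu hw
          rw [← hu, ← hw, h1, h2]
          exact Finset.mem_insert_self _ _
        · rw [← hLh i, hcl]
          simp
        · rw [hdm, List.getLast?_append_cons, ← hdm, hMl]
        · intro v hv
          exact List.mem_append.1 hv
      · have h5 := (M1 (jj i)).1
        rw [hdm, List.nodup_cons] at h5
        have h6 := (M1 (jj i)).2.1
        rw [hdm, List.isChain_cons] at h6
        refine ⟨L i ++ m, ?_, ?_, ⟨a' i, ha' i, ?_⟩, ⟨b' (jj i), hb' (jj i), ?_⟩, ?_⟩
        · rw [List.nodup_append]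
          refine ⟨(L1 i).1, h5.2, ?_⟩
          intro v hv w hw hvw
          subst hvw
          have h3 := cross i (jj i) v hv (by rw [hdm]; exact List.mem_cons_of_mem _ hw)
          have h4 := Lonly i v hv (Finset.mem_insert_of_mem h3)
          rw [h4, ← h2, ← hdq] at hw
          exact h5.1 hw
        · rw [List.isChain_append]
          refine ⟨hmono (L1 i).2.1, hmono h6.2, ?_⟩
          intro u hu w hw
          rw [hLl i] at hu
          simp only [Option.mem_def, Option.some.injEq] at hu
          rw [← hu, ← h2, ← hdq]
          exact Finset.mem_insert_of_mem (h6.1 w hw)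
        · rw [← hLh i, hcl]
          simp
        · have h7 := hMl (jj i)
          rw [hdm] at h7
          rw [← h7]
          cases m with
          | nil =>
            rw [List.append_nil, hLl i, ← h2, ← hdq]
            rfl
          | cons c' m' =>
            rw [List.getLast?_append_cons]
            exact (List.getLast?_cons_cons).symm
        · intro v hv
          rcases List.mem_append.1 hv with hv | hv
          · exact Or.inl hv
          · exact Or.inr (by rw [hdm]; exact List.mem_cons_of_mem _ hv)
    choose N hN1 hN2 hN3 hN4 hN5 using hN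
    refine ⟨N, fun i => ⟨hN1 i, hN2 i, hN3 i, hN4 i⟩, ?_⟩
    have key : ∀ i i', i ≠ i' → ∀ v ∈ L i, v ∉ M (jj i') := by
      intro i i' hii v hv hv'
      have h3 := cross i _ v hv hv'
      have h4 := Lonly i v hv (Finset.mem_insert_of_mem h3)
      have h5 := Monly _ v hv' (Finset.mem_insert_of_mem h3)
      rcases hjj i' with ⟨h1, h2⟩ | ⟨h1, h2⟩
      · rw [h5, h2] at h3
        exact hyS h3
      · exact hii (pinj (h4.symm.trans (h5.trans h2)))
    intro i i' hii v hv hv'
    rcases hN5 i v hv with h1 | h1 <;> rcases hN5 i' v hv' with h2 | h2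
    · exact L2 i i' hii v h1 h2
    · exact key i i' hii v h1 h2
    · exact key i' i hii.symm v h2 h1
    · exact M2 _ _ (fun h => hii (jinj h)) v h1 h2

omit [DecidableEq V] in
theorem rs_list {G : V → V → Prop} {M : Set V} {a b : V} (h : RS G M a b) :
    ∃ l : List V, (∀ v ∈ l, v ∈ M) ∧ l.IsChain G ∧ l.head? = some a ∧ l.getLast? = some b := by
  refine h.head_induction (P := fun a => ∃ l : List V, (∀ v ∈ l, v ∈ M) ∧ l.IsChain G ∧
    l.head? = some a ∧ l.getLast? = some b) ?_ ?_
  · exact ⟨[b], by simpa using h.right, List.isChain_singleton b, rfl, rfl⟩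
  · rintro p q hp hpq _ ⟨l, h1, h2, h3, h4⟩
    refine ⟨p :: l, ?_, ?_, rfl, ?_⟩
    · intro v hv
      rcases List.mem_cons.1 hv with rfl | hv
      · exact hp
      · exact h1 v hv
    · rw [List.isChain_cons]
      refine ⟨?_, h2⟩
      intro c hc
      rw [h3] at hc
      simp only [Option.mem_def, Option.some.injEq] at hc
      exact hc ▸ hpq
    · cases l with
      | nil => simp at h3
      | cons c l => rw [← h4]; exact List.getLast?_cons_cons

omit [DecidableEq V] in
theorem list_rs {G : V → V → Prop} {b : V} {l : List V} : ∀ {a : V} {M : Set V}, (∀ v ∈ l, v ∈ M) →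
    l.IsChain G → l.head? = some a → l.getLast? = some b → RS G M a b := by
  induction l with
  | nil => intro a M _ _ h; simp at h
  | cons c l ih =>
    intro a M hM hc hh hl
    simp only [List.head?_cons, Option.some.injEq] at hh
    subst hh
    cases l with
    | nil =>
      simp only [List.getLast?_singleton, Option.some.injEq] at hl
      subst hl
      exact RS.refl (hM _ (by simp))
    | cons d l =>
      rw [List.isChain_cons_cons] at hc
      rw [List.getLast?_cons_cons] at hl
      exact RS.head (hM _ (by simp)) hc.1 (ih (fun v hv => hM v (List.mem_cons_of_mem _ hv)) hc.2 rfl hl)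

end MengerABAux

variable {V : Type*}

open MengerABAux in
theorem menger_ab [Finite V] (G : V → V → Prop) (A B : Set V) (k : ℕ)
    (h : ∀ S : Finset V, S.card < k → ∃ a ∈ A, ∃ b ∈ B, RS G (↑S : Set V)ᶜ a b) :
    ∃ L : Fin k → Set V, (∀ i j, i ≠ j → Disjoint (L i) (L j)) ∧
      ∀ i, ∃ a ∈ A, ∃ b ∈ B, RS G (L i) a b := by
  classical
  have : Fintype V := Fintype.ofFinite V
  obtain ⟨L, h1, h2⟩ := menger (Finset.univ.filter (fun p : V × V => G p.1 p.2)) A B k (by
    intro S hS
    by_contra hcard
    push Not at hcard
    obtain ⟨a, ha, b, hb, hr⟩ := h S hcard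
    obtain ⟨l, hl, hc, hh, hlast⟩ := rs_list hr
    obtain ⟨v, hv, hvS⟩ := hS l (hc.imp (fun a b hab => by simpa using hab)) ⟨a, ha, hh⟩
      ⟨b, hb, hlast⟩
    exact hl v hv (by exact_mod_cast hvS))
  refine ⟨fun i => {v | v ∈ L i}, ?_, ?_⟩
  · intro i j hij
    rw [Set.disjoint_left]
    intro v hv hv'
    exact h2 i j hij v hv hv'
  · intro i
    obtain ⟨_, hc, ⟨a, ha, hh⟩, ⟨b, hb, hl⟩⟩ := h1 i
    exact ⟨a, ha, b, hb, list_rs (fun v hv => hv) (hc.imp (fun a b hab => by simpa using hab)) hh hl⟩

end P71954f
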