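import Pool.Agent.Lib.P71954f.FB

/-!
# Module Clean (P71954f): two disjoint paths into `h` do not both meet a path starting at `h`, inside a set without `2+1`

`x1 ∈ L1 ∩ S`, `x2 ∈ L2 ∩ S`, different since `L1, L2` are disjoint.  `h2` says one of them reaches the other inside `S`; say `RS G S x1 x2` (symmetric otherwise).
`ifb` with `M := B`, `h`, `a := x1`, `b := x2`, `La := L1 \ {x1}`, `Lb := L2 \ {x2}` (`Tight.post`), `RS G (B \ {h}) x1 x2` by monotonicity (`S ⊆ B \ {h}`), `RS G B h x1` from `h1`.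
`clean_U`: the version for a path that may leave `B` through `U` but then never comes back: apply `clean` to `S ∩ B`: for `t ∈ S ∩ B`, a walk in `S` ending in `B` lies in `B` (head induction: a vertex of `S` with an arc to `B` is not in `U`).
-/

set_option autoImplicit false

namespace P71954f

variable {V : Type*} {G : V → V → Prop}

theorem clean_aux {B S : Set V} {h : V} (hB : ¬ Has21 G B) (hh : h ∈ B) (hS : S ⊆ B \ {h})
    (h1 : ∀ t ∈ S, Via G S h t)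
    {b1 b2 : V} {L1 L2 : Set V} (hL1 : L1 ⊆ B \ {h}) (hL2 : L2 ⊆ B \ {h}) (hd : Disjoint L1 L2)
    (t1 : Tight G L1 b1 h) (t2 : Tight G L2 b2 h) {x1 x2 : V} (m1 : x1 ∈ L1 ∩ S)
    (m2 : x2 ∈ L2 ∩ S) (h2 : RS G S x1 x2) : False := by
  have hx21 : x2 ∉ L1 := fun hx => (Set.disjoint_left.1 hd) hx m2.1
  have hx12 : x1 ∉ L2 := fun hx => (Set.disjoint_left.1 hd) m1.1 hx
  have hab : x1 ≠ x2 := fun he => hx21 (he ▸ m1.1)
  have hx1 : x1 ∈ B ∧ x1 ≠ h := hS m1.2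
  have hx2 : x2 ∈ B ∧ x2 ≠ h := hS m2.2
  apply hB
  refine ifb hab hx1.2 hx2.2 (La := L1 \ {x1}) (Lb := L2 \ {x2}) ?_ ?_ ?_ (t1.post x1 m1.1)
    (t2.post x2 m2.1) (h2.mono hS) ?_
  · intro v hv
    have hvB : v ∈ B ∧ v ≠ h := hL1 hv.1
    refine ⟨hvB.1, ?_⟩
    rintro (hv' | hv' | hv')
    · exact hvB.2 hv'
    · exact hv.2 hv'
    · rw [Set.mem_singleton_iff] at hv'
      rw [hv'] at hv
      exact hx21 hv.1
  · intro v hv
    have hvB : v ∈ B ∧ v ≠ h := hL2 hv.1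
    refine ⟨hvB.1, ?_⟩
    rintro (hv' | hv' | hv')
    · exact hvB.2 hv'
    · rw [hv'] at hv
      exact hx12 hv.1
    · exact hv.2 hv'
  · exact hd.mono Set.sdiff_subset Set.sdiff_subset
  · exact (h1 x1 m1.2).rs (fun v hv => (hS hv).1) hh hx1.1

theorem clean {B S : Set V} {h : V} (hB : ¬ Has21 G B) (hh : h ∈ B) (hS : S ⊆ B \ {h})
    (h1 : ∀ t ∈ S, Via G S h t) (h2 : ∀ s ∈ S, ∀ t ∈ S, s ≠ t → RS G S s t ∨ RS G S t s)
    {b1 b2 : V} {L1 L2 : Set V} (hL1 : L1 ⊆ B \ {h}) (hL2 : L2 ⊆ B \ {h}) (hd : Disjoint L1 L2)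
    (t1 : Tight G L1 b1 h) (t2 : Tight G L2 b2 h) (m1 : (L1 ∩ S).Nonempty)
    (m2 : (L2 ∩ S).Nonempty) : False := by
  obtain ⟨x1, m1⟩ := m1
  obtain ⟨x2, m2⟩ := m2
  have hab : x1 ≠ x2 := fun he => (Set.disjoint_left.1 hd) m1.1 (he ▸ m2.1)
  rcases h2 x1 m1.2 x2 m2.2 hab with h3 | h3
  · exact clean_aux hB hh hS h1 hL1 hL2 hd t1 t2 m1 m2 h3
  · exact clean_aux hB hh hS h1 hL2 hL1 hd.symm t2 t1 m2 m1 h3

/-- a walk in `S ⊆ U ∪ B` that ends with an arc to `B` lies in `B` -/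
theorem rtg_back {B U S : Set V} (hnUB : ∀ u ∈ U, ∀ b ∈ B, ¬ G u b) (hS : S ⊆ U ∪ B)
    {a c t : V} (h : Relation.ReflTransGen (fun p q => G p q ∧ q ∈ S) a c) (hct : G c t)
    (ht : t ∈ B) :
    Relation.ReflTransGen (fun p q => G p q ∧ q ∈ S ∩ B) a c ∧ ∃ b ∈ B, G a b := by
  induction h using Relation.ReflTransGen.head_induction_on with
  | refl => exact ⟨Relation.ReflTransGen.refl, t, ht, hct⟩
  | head hpq _ ih =>
    obtain ⟨h1, b, hb, h2⟩ := ih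
    have h3 := hS hpq.2
    rcases h3 with h3 | h3
    · exact absurd h2 (hnUB _ h3 b hb)
    · exact ⟨Relation.ReflTransGen.head ⟨hpq.1, hpq.2, h3⟩ h1, _, h3, hpq.1⟩

theorem clean_U {B U S : Set V} {h g : V} (hB : ¬ Has21 G B) (hh : h ∈ B)
    (hnUB : ∀ u ∈ U, ∀ b ∈ B, ¬ G u b) (hS : S ⊆ (U ∪ B) \ {h}) (hT : Tight G S h g)
    {b1 b2 : V} {L1 L2 : Set V} (hL1 : L1 ⊆ B \ {h}) (hL2 : L2 ⊆ B \ {h}) (hd : Disjoint L1 L2)
    (t1 : Tight G L1 b1 h) (t2 : Tight G L2 b2 h) (m1 : (L1 ∩ S).Nonempty)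
    (m2 : (L2 ∩ S).Nonempty) : False := by
  have hS' : S ⊆ U ∪ B := fun v hv => (hS hv).1
  have hrs : ∀ s ∈ S ∩ B, ∀ t ∈ S ∩ B, s ≠ t → RS G S s t → RS G (S ∩ B) s t := by
    intro s hs t ht hst hr
    obtain ⟨c, hc, hct⟩ := hr.via_of_ne hst
    exact ⟨hs, (rtg_back hnUB hS' hc hct ht.2).1.tail ⟨hct, ht⟩⟩
  refine clean (S := S ∩ B) hB hh ?_ ?_ ?_ hL1 hL2 hd t1 t2 ?_ ?_
  · intro v hv
    exact ⟨hv.2, (hS hv.1).2⟩
  · intro t ht
    obtain ⟨c, hc, hct⟩ := (hT.pre t ht.1).mono (T := S) Set.sdiff_subset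
    exact ⟨c, (rtg_back hnUB hS' hc hct ht.2).1, hct⟩
  · intro s hs t ht hst
    rcases hT.comp s hs.1 t ht.1 hst with h3 | h3
    · exact Or.inl (hrs s hs t ht hst h3)
    · exact Or.inr (hrs t ht s hs hst.symm h3)
  · obtain ⟨x, hx⟩ := m1
    exact ⟨x, hx.1, hx.2, (hL1 hx.1).1⟩
  · obtain ⟨x, hx⟩ := m2
    exact ⟨x, hx.1, hx.2, (hL2 hx.1).1⟩

end P71954f
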