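import Pool.Agent.Lib.P71954f.TransitU

/-!
# Module ConfA (P71954f): the extremal choices of `R` and `B`

`exists_R`: the finite nonempty family of `R` with `R.Nonempty ∧ Transit G R ∧ Has21 G Rᶜ` (it contains `{r0}`: `Transit` is trivial there) has a maximal member
(`Set.Finite.exists_maximal...`, `Finite.exists_max`, or maximal `Set.ncard`).
`exists_B`: the family of `B` with `Disjoint R B ∧ (∀ b ∈ B, ∃ r ∈ R, Via G B b r) ∧ Has21 G (R ∪ B)ᶜ` contains `∅`; take a maximal member; for `e ∉ R ∪ B` with an arc to `R ∪ B` the set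
`insert e B` satisfies the first two conditions (`e → r`, or `e → b ⇝ r`, `Via.mono`), so not the third, and `(R ∪ insert e B)ᶜ = (R ∪ B)ᶜ \ {e}`.
-/

set_option autoImplicit false

namespace P71954f

variable {V : Type*} {G : V → V → Prop}

theorem exists_R [Finite V] {r0 : V} (h0 : Has21 G {r0}ᶜ) :
    ∃ R : Set V, R.Nonempty ∧ Transit G R ∧ Has21 G Rᶜ ∧
      ∀ R' : Set V, R ⊂ R' → Transit G R' → ¬ Has21 G R'ᶜ := by
  have hne : {R : Set V | R.Nonempty ∧ Transit G R ∧ Has21 G Rᶜ}.Nonempty := by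
    refine ⟨{r0}, Set.singleton_nonempty r0, ?_, h0⟩
    intro u hu u' hu' _ _
    rw [Set.mem_singleton_iff] at hu hu'
    subst hu
    subst hu'
    exact RS.refl (Set.mem_singleton _)
  obtain ⟨R, ⟨h1, h2, h3⟩, h4⟩ := (Set.toFinite _).exists_maximal hne
  refine ⟨R, h1, h2, h3, fun R' hRR' ht h21 => ?_⟩
  have h5 := h4 (y := R') ⟨h1.mono hRR'.subset, ht, h21⟩ hRR'.subset
  exact hRR'.not_subset h5

theorem exists_B [Finite V] {R : Set V} (hR : Has21 G Rᶜ) :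
    ∃ B : Set V, Disjoint R B ∧ (∀ b ∈ B, ∃ r ∈ R, Via G B b r) ∧ Has21 G (R ∪ B)ᶜ ∧
      ∀ e, e ∉ R → e ∉ B → (∃ v ∈ R ∪ B, G e v) → ¬ Has21 G ((R ∪ B)ᶜ \ {e}) := by
  have hne : {B : Set V | Disjoint R B ∧ (∀ b ∈ B, ∃ r ∈ R, Via G B b r) ∧
      Has21 G (R ∪ B)ᶜ}.Nonempty := by
    refine ⟨∅, Set.disjoint_empty R, fun b hb => absurd hb (Set.notMem_empty b), ?_⟩
    rw [Set.union_empty]
    exact hR
  obtain ⟨B, ⟨h1, h2, h3⟩, h4⟩ := (Set.toFinite _).exists_maximal hne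
  refine ⟨B, h1, h2, h3, fun e heR heB ⟨v, hv, hev⟩ h21 => ?_⟩
  have hsub : B ⊆ insert e B := Set.subset_insert e B
  have h5 := h4 (y := insert e B) ⟨?_, ?_, ?_⟩ hsub
  · exact heB (h5 (Set.mem_insert e B))
  · rw [Set.disjoint_insert_right]
    exact ⟨heR, h1⟩
  · intro b hb
    rcases Set.mem_insert_iff.1 hb with rfl | hb
    · rcases hv with hv | hv
      · exact ⟨v, hv, Via.adj hev⟩
      · obtain ⟨r, hr, hvia⟩ := h2 v hv
        exact ⟨r, hr, (Via.adj hev).trans (hsub hv) (hvia.mono hsub)⟩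
    · obtain ⟨r, hr, hvia⟩ := h2 b hb
      exact ⟨r, hr, hvia.mono hsub⟩
  · have h6 : (R ∪ insert e B)ᶜ = (R ∪ B)ᶜ \ {e} := by
      ext x
      simp only [Set.mem_compl_iff, Set.mem_union, Set.mem_insert_iff, Set.mem_sdiff,
        Set.mem_singleton_iff]
      tauto
    rw [h6]
    exact h21

end P71954f
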