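import Pool.Agent.Lib.P71954f.Defs

/-!
# Module Lists (P71954f): walks give simple paths, the structure `Tight`

Sketch. (1) `exists_list_of_via1`: from `Via1 G S a b` = `G a s`, `RS G S s c`, `G c b`.  Show: `RS G S s c` gives a list
`l` with `l.Nodup`, all members in `S`, `IsChain G l`, `l.head? = some s`, `l.getLast? = some c` (strong induction on length, or
`RS.head_induction`: put `p` in front of the list of `q`; if `p` is already in the list drop everything before `p`, `List.dropWhile`
or split `l = l1 ++ p :: l2`).  Then `a :: (l ++ [b])`.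
(2) `tight_of_list`: `pre`: for `t ∈ l` write `l = p ++ t :: q`; the chain `a :: (p ++ [t])` and `t ∉ p`; `post` symmetric; `comp`: if `s` is before
`t` in `l` then `RS G S s t`.  A helper lemma: `IsChain G (a :: (p ++ [b]))` and all members of `p` in `S` gives `Via G S a b`
(induction on `p`).
(3) `tighten`, `tighten1` combine (1) and (2).
-/

set_option autoImplicit false

namespace P71954f

variable {V : Type*} {G : V → V → Prop} {S T M : Set V} {a b c d t : V}

/-- a chain gives a `Via` -/
theorem via_of_chain {l : List V} (hl : ∀ v ∈ l, v ∈ S) (hc : List.IsChain G (a :: (l ++ [b]))) :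
    Via G S a b := by
  induction l generalizing a with
  | nil =>
    rw [List.nil_append, List.isChain_pair] at hc
    exact Via.adj hc
  | cons s l ih =>
    rw [List.cons_append, List.isChain_cons_cons] at hc
    obtain ⟨c, h1, h2⟩ := ih (fun v hv => hl v (List.mem_cons_of_mem _ hv)) hc.2
    exact ⟨c, Relation.ReflTransGen.head ⟨hc.1, hl s List.mem_cons_self⟩ h1, h2⟩

/-- a nonempty chain gives a `Via1` -/
theorem via1_of_chain {l : List V} (h0 : l ≠ []) (hl : ∀ v ∈ l, v ∈ S)
    (hc : List.IsChain G (a :: (l ++ [b]))) : Via1 G S a b := by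
  rcases l with _ | ⟨s, l⟩
  · exact absurd rfl h0
  · rw [List.cons_append, List.isChain_cons_cons] at hc
    obtain ⟨c, h1, h2⟩ := via_of_chain (fun v hv => hl v (List.mem_cons_of_mem _ hv)) hc.2
    exact ⟨s, c, hc.1, ⟨hl s List.mem_cons_self, h1⟩, h2⟩

namespace ListsAux

theorem exists_list_of_rs {s : V} (h : RS G S s c) (hcb : G c b) :
    ∃ l : List V, (s :: l).Nodup ∧ (∀ v ∈ s :: l, v ∈ S) ∧ List.IsChain G (s :: (l ++ [b])) := by
  have hcS := h.right
  refine h.head_induction (P := fun p => ∃ l : List V, (p :: l).Nodup ∧ (∀ v ∈ p :: l, v ∈ S) ∧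
    List.IsChain G (p :: (l ++ [b]))) ?_ ?_
  · refine ⟨[], List.nodup_singleton c, ?_, ?_⟩
    · intro v hv
      rw [List.mem_singleton] at hv
      rw [hv]
      exact hcS
    · rw [List.nil_append, List.isChain_pair]
      exact hcb
  · intro p q hp hpq _ ih
    obtain ⟨l, h1, h2, h3⟩ := ih
    by_cases hmem : p ∈ q :: l
    · obtain ⟨l1, l2, e⟩ := List.append_of_mem hmem
      refine ⟨l2, ?_, ?_, ?_⟩
      · rw [e] at h1
        exact (List.nodup_append.1 h1).2.1
      · intro v hv
        apply h2
        rw [e]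
        exact List.mem_append_right _ hv
      · rw [← List.cons_append, e, List.append_assoc, List.cons_append] at h3
        exact h3.right_of_append
    · refine ⟨q :: l, List.nodup_cons.2 ⟨hmem, h1⟩, ?_, ?_⟩
      · intro v hv
        rcases List.mem_cons.1 hv with rfl | hv
        · exact hp
        · exact h2 v hv
      · rw [List.cons_append, List.isChain_cons_cons]
        exact ⟨hpq, h3⟩

end ListsAux

open ListsAux

theorem exists_list_of_via1 (h : Via1 G S a b) :
    ∃ l : List V, l ≠ [] ∧ l.Nodup ∧ (∀ v ∈ l, v ∈ S) ∧ List.IsChain G (a :: (l ++ [b])) := by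
  obtain ⟨s, c, h1, h2, h3⟩ := h
  obtain ⟨l, e1, e2, e3⟩ := exists_list_of_rs h2 h3
  refine ⟨s :: l, List.cons_ne_nil _ _, e1, e2, ?_⟩
  rw [List.cons_append, List.isChain_cons_cons]
  exact ⟨h1, e3⟩

theorem exists_list_of_via (h : Via G S a b) :
    ∃ l : List V, l.Nodup ∧ (∀ v ∈ l, v ∈ S) ∧ List.IsChain G (a :: (l ++ [b])) := by
  rcases via_iff.1 h with h1 | h1
  · refine ⟨[], List.nodup_nil, fun v hv => absurd hv List.not_mem_nil, ?_⟩
    rw [List.nil_append, List.isChain_pair]
    exact h1
  · obtain ⟨l, _, h2⟩ := exists_list_of_via1 h1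
    exact ⟨l, h2⟩

theorem tight_of_list {l : List V} (hn : l.Nodup) (hc : List.IsChain G (a :: (l ++ [b]))) :
    Tight G {v | v ∈ l} a b := by
  refine ⟨via_of_chain (fun v hv => hv) hc, ?_, ?_, ?_⟩
  · intro t ht
    obtain ⟨p, q, rfl⟩ := List.append_of_mem ht
    have e : a :: ((p ++ t :: q) ++ [b]) = (a :: (p ++ [t])) ++ (q ++ [b]) := by simp
    rw [e] at hc
    refine via_of_chain (fun v hv => ⟨List.mem_append_left _ hv, ?_⟩) hc.left_of_append
    rintro rfl
    exact (List.nodup_append.1 hn).2.2 _ hv _ List.mem_cons_self rfl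
  · intro t ht
    obtain ⟨p, q, rfl⟩ := List.append_of_mem ht
    have e : a :: ((p ++ t :: q) ++ [b]) = (a :: p) ++ (t :: (q ++ [b])) := by simp
    rw [e] at hc
    refine via_of_chain (fun v hv => ⟨List.mem_append_right _ (List.mem_cons_of_mem _ hv), ?_⟩)
      hc.right_of_append
    rintro rfl
    exact (List.nodup_cons.1 (List.nodup_append.1 hn).2.1).1 hv
  · intro s hs t ht hst
    obtain ⟨p, q, rfl⟩ := List.append_of_mem hs
    have ht' : t ∈ p ∨ t ∈ q := by
      rcases List.mem_append.1 ht with h | h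
      · exact Or.inl h
      · rcases List.mem_cons.1 h with h | h
        · exact absurd h.symm hst
        · exact Or.inr h
    rcases ht' with h | h
    · right
      obtain ⟨p1, p2, rfl⟩ := List.append_of_mem h
      have e : a :: (((p1 ++ t :: p2) ++ s :: q) ++ [b]) =
          (a :: p1) ++ ((t :: (p2 ++ [s])) ++ (q ++ [b])) := by simp
      rw [e] at hc
      have h1 := hc.right_of_append.left_of_append
      refine Via.rs (S := {v | v ∈ p2}) (via_of_chain (fun v hv => hv) h1) ?_ ht hs
      intro v hv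
      have hv' : v ∈ p2 := hv
      simp [hv']
    · left
      obtain ⟨q1, q2, rfl⟩ := List.append_of_mem h
      have e : a :: ((p ++ s :: (q1 ++ t :: q2)) ++ [b]) =
          (a :: p) ++ ((s :: (q1 ++ [t])) ++ (q2 ++ [b])) := by simp
      rw [e] at hc
      have h1 := hc.right_of_append.left_of_append
      refine Via.rs (S := {v | v ∈ q1}) (via_of_chain (fun v hv => hv) h1) ?_ hs ht
      intro v hv
      have hv' : v ∈ q1 := hv
      simp [hv']

theorem tighten (h : Via G S a b) : ∃ S' ⊆ S, Tight G S' a b := by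
  obtain ⟨l, h1, h2, h3⟩ := exists_list_of_via h
  exact ⟨{v | v ∈ l}, h2, tight_of_list h1 h3⟩

theorem tighten1 (h : Via1 G S a b) : ∃ S' ⊆ S, Tight G S' a b ∧ Via1 G S' a b := by
  obtain ⟨l, h0, h1, h2, h3⟩ := exists_list_of_via1 h
  exact ⟨{v | v ∈ l}, h2, tight_of_list h1 h3, via1_of_chain h0 (fun v hv => hv) h3⟩

end P71954f
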