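import Pool.Agent.Lib.P71954f.ConfA
import Pool.Agent.Lib.P71954f.Lists

/-!
# Module ConfB (P71954f): the configuration

`conf_exists`.  Take `R` from `exists_R`, `B` from `exists_B`; `A := (R ∪ B)ᶜ`; `E := {a | a ∉ R ∧ a ∉ B ∧ ∃ v ∈ R ∪ B, G a v}`.
* `pmax`: for `P` as in the field, `Transit G (R ∪ P)` (`transit_union`) and `R ⊂ R ∪ P`, maximality of `R`.
* every `a ∈ A` reaches `E` in `A`: `X := {v | RS G A a v}`; if `X ∩ E = ∅`, all out-neighbours of `X` are in `A`, hence in `X`; `cout` with `S := ∅` and `r ∈ R` (`r ∉ X`, no arc from `X` to `r` as `X ∩ E = ∅`)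
  gives `5 ≤ 0`.
* `nRB` (no arcs `r → o` with `r ∈ R`, `o ∈ B`): `Via G B o r''`, tighten: `S ⊆ B \ {o}` (use `Via.diff_start`, then `tighten`), `P := insert o S`: every `p ∈ P` has `Via G P p r''` and `Via G P r p`; `pmax` gives
  `¬ Has21 G (R ∪ P)ᶜ`, but `(R ∪ B)ᶜ ⊆ (R ∪ P)ᶜ` has a `2+1`.
* every `2+1` `OT G A x y`: `theta`-like fact that its vertex set is strong is only needed in this form: for `e ∈ E`, `e` and `x` reach each other in `A`.
  [Use `Module Theta` `theta`: `T ⊆ A`, `OT G T x y`; `e ∈ T` since otherwise `Has21 G (A \ {e})`; `T` strong.]  So all elements of `E` reach each other in `A`.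
* `Q := {v | ∃ e ∈ E, RS G A e v}`, `U := A \ Q`.  For `v ∈ Q`: `v` reaches `E` in `A`, hence every `e ∈ E`, hence `Q` is strong: `RS G A a b` for `a, b ∈ Q`, and such a walk stays in `Q` (every vertex
  on it is reached from `a`), so `RS G Q a b`.  `T ⊆ Q` so `Has21 G Q`.  `nQU`: by definition of `Q`.  `nUB`, `nUR`: a vertex of `U` with an arc to `R ∪ B` would be in `E ⊆ Q`.
  `Eout`: `q ∈ Q \ E`, `G q v`: `v ∉ R ∪ B`, so `v ∈ A`, so `v ∈ Q`.  `ER`: `e → r`, or `e → b` and `BR`.  `Emin`: `exists_B` and `Q \ {e} ⊆ A \ {e}`.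
* `B21`: `transit_compl` gives `Transit G Bᶜ`; `R ⊂ Bᶜ` (A is nonempty); maximality of `R` gives `¬ Has21 G Bᶜᶜ`.  `ho`: some `r ∈ R` has an out-neighbour outside `R`: `cin` with `X := Rᶜ`, `S := ∅`, (if no arc from `R`
  to `Rᶜ`, any `r ∈ R` works); it is not in `B` by `nRB`.
-/

set_option autoImplicit false

namespace P71954f

variable {V : Type*} {G : V → V → Prop}

/-- vertex set of a `2+1` (black box here, proved in module Theta; keep this import-free copy as a hypothesis) -/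
theorem conf_exists [Finite V] (hirr : ∀ v, ¬ G v v) (cin : Conn G 5) (cout : Conn (fun a b => G b a) 5)
    (htheta : ∀ (M : Set V) (x y : V), OT G M x y →
      ∃ T ⊆ M, OT G T x y ∧ ∀ a ∈ T, ∀ b ∈ T, RS G T a b)
    {r0 : V} (h0 : Has21 G {r0}ᶜ) : ∃ R B U Q E : Set V, Conf G R B U Q E := by
  classical
  obtain ⟨R, Rne, hRt, hR21, hRmax⟩ := exists_R (G := G) h0
  obtain ⟨B, dRB, BR, hA21, hBmin⟩ := exists_B (G := G) hR21
  have notA : ∀ v, v ∈ (R ∪ B)ᶜ ↔ (v ∉ R ∧ v ∉ B) := by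
    intro v
    simp only [Set.mem_compl_iff, Set.mem_union, not_or]
  have pmax : ∀ P : Set V, P.Nonempty → Disjoint R P → (∀ p ∈ P, ∃ r ∈ R, Via G P p r) →
      (∀ p ∈ P, ∃ r ∈ R, Via G P r p) → ¬ Has21 G (R ∪ P)ᶜ := by
    intro P hP hRP h1 h2
    refine hRmax (R ∪ P) ?_ (transit_union hRt hRP h1 h2)
    refine ⟨Set.subset_union_left, ?_⟩
    intro h3
    obtain ⟨p, hp⟩ := hP
    exact Set.disjoint_left.1 hRP (h3 (Or.inr hp)) hp
  have nRB : ∀ r ∈ R, ∀ b ∈ B, ¬ G r b := by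
    intro r hr o ho hro
    obtain ⟨r'', hr'', hv⟩ := BR o ho
    obtain ⟨S, hS, hT⟩ := tighten hv.diff_start
    have hPB : insert o S ⊆ B := by
      intro v hv'
      rcases hv' with h | h
      · rw [h]; exact ho
      · exact (hS h).1
    refine pmax (insert o S) ⟨o, Set.mem_insert _ _⟩ (dRB.mono_right hPB) ?_ ?_
      (hA21.mono (Set.compl_subset_compl.2 (Set.union_subset_union_right R hPB)))
    · intro p hp
      refine ⟨r'', hr'', ?_⟩
      rcases hp with h | h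
      · rw [h]; exact hT.via.mono (Set.subset_insert _ _)
      · exact (hT.post p h).mono (Set.sdiff_subset.trans (Set.subset_insert _ _))
    · intro p hp
      refine ⟨r, hr, ?_⟩
      rcases hp with h | h
      · rw [h]; exact Via.adj hro
      · exact (Via.adj (S := insert o S) hro).trans (Set.mem_insert _ _)
          ((hT.pre p h).mono (Set.sdiff_subset.trans (Set.subset_insert _ _)))
  obtain ⟨E, hEdef⟩ : ∃ E : Set V, ∀ a, a ∈ E ↔ (a ∉ R ∧ a ∉ B ∧ ∃ v ∈ R ∪ B, G a v) :=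
    ⟨{a | a ∉ R ∧ a ∉ B ∧ ∃ v ∈ R ∪ B, G a v}, fun a => Iff.rfl⟩
  have hEA : E ⊆ (R ∪ B)ᶜ := fun e he => (notA e).2 ⟨((hEdef e).1 he).1, ((hEdef e).1 he).2.1⟩
  have stepA : ∀ q v, q ∈ (R ∪ B)ᶜ → q ∉ E → G q v → v ∈ (R ∪ B)ᶜ := by
    intro q v hq hqE hqv hv
    exact hqE ((hEdef q).2 ⟨((notA q).1 hq).1, ((notA q).1 hq).2, v, hv, hqv⟩)
  have toE : ∀ a ∈ (R ∪ B)ᶜ, ∃ e ∈ E, RS G (R ∪ B)ᶜ a e := by
    intro a ha
    by_contra hno
    push Not at hno
    obtain ⟨r, hr⟩ := Rne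
    have hcl : ∀ x, RS G (R ∪ B)ᶜ a x → ∀ v, G x v → RS G (R ∪ B)ᶜ a v := by
      intro x hx v hxv
      exact hx.tail hxv (stepA x v hx.right (fun hxE => hno x hxE hx) hxv)
    have h5 := cout {v | RS G (R ∪ B)ᶜ a v} ⟨a, RS.refl ha⟩
      ⟨r, fun h => (RS.right h) (Or.inl hr), fun x hx hxr =>
        (RS.right (hcl x hx r hxr)) (Or.inl hr)⟩ ∅
      (fun v hv ⟨x, hx, hxv⟩ => absurd (hcl x hx v hxv) hv)
    simp at h5
  obtain ⟨x, y, hxy⟩ := hA21
  obtain ⟨T, hTA, hTxy, hTs⟩ := htheta _ x y hxy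
  have hET : E ⊆ T := by
    intro e he
    by_contra heT
    obtain ⟨h1, h2, h3⟩ := (hEdef e).1 he
    refine hBmin e h1 h2 h3 ⟨x, y, hTxy.mono ?_⟩
    intro t ht
    refine ⟨hTA ht, ?_⟩
    intro h
    rw [Set.mem_singleton_iff] at h
    rw [h] at ht
    exact heT ht
  have hxA : x ∈ (R ∪ B)ᶜ := hxy.2.1
  have hEE : ∀ e ∈ E, ∀ e' ∈ E, RS G (R ∪ B)ᶜ e e' := fun e he e' he' =>
    (hTs e (hET he) e' (hET he')).mono hTA
  obtain ⟨e0, he0, _⟩ := toE x hxA
  obtain ⟨Q, hQdef⟩ : ∃ Q : Set V, ∀ v, v ∈ Q ↔ ∃ e ∈ E, RS G (R ∪ B)ᶜ e v :=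
    ⟨{v | ∃ e ∈ E, RS G (R ∪ B)ᶜ e v}, fun v => Iff.rfl⟩
  have hQA : Q ⊆ (R ∪ B)ᶜ := by
    intro v hv
    obtain ⟨e, _, h⟩ := (hQdef v).1 hv
    exact h.right
  have hQstep : ∀ q ∈ Q, ∀ v ∈ (R ∪ B)ᶜ, G q v → v ∈ Q := by
    intro q hq v hv hqv
    obtain ⟨e, he, h⟩ := (hQdef q).1 hq
    exact (hQdef v).2 ⟨e, he, h.tail hqv hv⟩
  have hEQ : E ⊆ Q := fun e he => (hQdef e).2 ⟨e, he, RS.refl (hEA he)⟩
  have hTQ : T ⊆ Q := fun t ht => (hQdef t).2 ⟨e0, he0, (hTs e0 (hET he0) t ht).mono hTA⟩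
  have ho : ∃ r ∈ R, ∃ o, o ∉ R ∧ o ∉ B ∧ G r o := by
    by_contra hno
    push Not at hno
    obtain ⟨r, hr⟩ := Rne
    have hout : ∀ r ∈ R, ∀ v, v ∉ R → ¬ G r v := by
      intro r hr v hv hrv
      by_cases hvB : v ∈ B
      · exact nRB r hr v hvB hrv
      · exact hno r hr v hv hvB hrv
    have h5 := cin Rᶜ ⟨x, ((notA x).1 hxA).1⟩ ⟨r, fun h => h hr, fun v hv => hout r hr v hv⟩ ∅
      (fun v hv ⟨w, hw, hvw⟩ => absurd hvw (hout v (not_not.1 hv) w hw))
    simp at h5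
  refine ⟨R, B, (R ∪ B)ᶜ \ Q, Q, E, ?_⟩
  exact
    { irr := hirr
      cin := cin
      cout := cout
      cover := by
        intro v
        by_cases h1 : v ∈ R
        · exact Or.inl h1
        · by_cases h2 : v ∈ B
          · exact Or.inr (Or.inl h2)
          · by_cases h3 : v ∈ Q
            · exact Or.inr (Or.inr (Or.inr h3))
            · exact Or.inr (Or.inr (Or.inl ⟨(notA v).2 ⟨h1, h2⟩, h3⟩))
      dRB := dRB
      dRU := Set.disjoint_left.2 fun v hv hU => hU.1 (Or.inl hv)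
      dRQ := Set.disjoint_left.2 fun v hv hQ => hQA hQ (Or.inl hv)
      dBU := Set.disjoint_left.2 fun v hv hU => hU.1 (Or.inr hv)
      dBQ := Set.disjoint_left.2 fun v hv hQ => hQA hQ (Or.inr hv)
      dUQ := Set.disjoint_left.2 fun v hv hQ => hv.2 hQ
      Rne := Rne
      tr := hRt
      nRB := nRB
      nQU := fun q hq u hu hqu => hu.2 (hQstep q hq u hu.1 hqu)
      nUB := fun u hu b hb hub => hu.2 (hEQ ((hEdef u).2
        ⟨((notA u).1 hu.1).1, ((notA u).1 hu.1).2, b, Or.inr hb, hub⟩))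
      nUR := fun u hu r hr hur => hu.2 (hEQ ((hEdef u).2
        ⟨((notA u).1 hu.1).1, ((notA u).1 hu.1).2, r, Or.inl hr, hur⟩))
      EQ := hEQ
      Eout := fun q hq hqE v hqv => hQstep q hq v (stepA q v (hQA hq) hqE hqv) hqv
      BR := BR
      ER := by
        intro e he
        obtain ⟨_, _, v, hv, hev⟩ := (hEdef e).1 he
        rcases hv with hv | hv
        · exact ⟨v, hv, Via.adj hev⟩
        · obtain ⟨r, hr, hvr⟩ := BR v hv
          exact ⟨r, hr, (Via.adj hev).trans hv hvr⟩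
      strQ := by
        intro a ha b hb
        obtain ⟨e1, he1, h1⟩ := toE a (hQA ha)
        obtain ⟨e2, he2, h2⟩ := (hQdef b).1 hb
        have h3 : RS G (R ∪ B)ᶜ a b := (h1.trans (hEE e1 he1 e2 he2)).trans h2
        refine h3.tail_induction (P := fun p => RS G Q a p) (RS.refl ha) ?_
        intro p q _ hpq hq ih
        exact ih.tail hpq (hQstep p ih.right q hq hpq)
      Q21 := ⟨x, y, hTxy.mono hTQ⟩
      Emin := by
        intro q hq h
        obtain ⟨h1, h2, h3⟩ := (hEdef q).1 hq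
        exact hBmin q h1 h2 h3 (h.mono (Set.sdiff_subset_sdiff_left hQA))
      B21 := by
        have htc : Transit G Bᶜ := by
          refine transit_compl (E := E) hRt dRB nRB ?_ ?_ hEE ho
          · intro a h1 h2 ⟨b, hb, hab⟩
            exact (hEdef a).2 ⟨h1, h2, b, Or.inr hb, hab⟩
          · intro a h1 h2
            exact toE a ((notA a).2 ⟨h1, h2⟩)
        have hss : R ⊂ Bᶜ := by
          refine ⟨fun v hv hB => Set.disjoint_left.1 dRB hv hB, ?_⟩
          intro h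
          exact ((notA x).1 hxA).1 (h ((notA x).1 hxA).2)
        have h := hRmax Bᶜ hss htc
        rwa [compl_compl] at h
      pmax := pmax }

end P71954f
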