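import Mathlib

/-!
# Walks with prescribed vertex sets in a digraph, bigons, `2+1`s and `2+2`s

Everything is set based: `RS G S a b` says that there is a walk from `a` to `b` all of whose vertices
lie in `S`; `Via G S a b` says that there is a walk from `a` to `b` (with at least one arc) whose
intermediate vertices lie in `S`; `Via1` asks for at least one intermediate vertex.
-/

set_option autoImplicit false

namespace P71954f

variable {V : Type*}

/-- `b` is reached from `a` by a walk all of whose vertices lie in `S`. -/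
def RS (G : V → V → Prop) (S : Set V) (a b : V) : Prop :=
  a ∈ S ∧ Relation.ReflTransGen (fun p q => G p q ∧ q ∈ S) a b

/-- There is a walk from `a` to `b` with at least one arc whose intermediate vertices lie in `S`. -/
def Via (G : V → V → Prop) (S : Set V) (a b : V) : Prop :=
  ∃ c, Relation.ReflTransGen (fun p q => G p q ∧ q ∈ S) a c ∧ G c b

/-- There is a walk from `a` to `b` with at least one intermediate vertex, all of them in `S`. -/
def Via1 (G : V → V → Prop) (S : Set V) (a b : V) : Prop :=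
  ∃ s c, G a s ∧ RS G S s c ∧ G c b

/-- `2+1` in `M` with branch vertices `x` (out-branch) and `y`: two walks from `x` to `y` and one walk
from `y` to `x` with pairwise disjoint sets of intermediate vertices. -/
def OT (G : V → V → Prop) (M : Set V) (x y : V) : Prop :=
  x ≠ y ∧ x ∈ M ∧ y ∈ M ∧ ∃ S1 S2 S3 : Set V,
    S1 ⊆ M \ {x, y} ∧ S2 ⊆ M \ {x, y} ∧ S3 ⊆ M \ {x, y} ∧
    Disjoint S1 S2 ∧ Disjoint S1 S3 ∧ Disjoint S2 S3 ∧
    Via G S1 x y ∧ Via1 G S2 x y ∧ Via G S3 y x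

/-- `M` contains a `2+1`. -/
def Has21 (G : V → V → Prop) (M : Set V) : Prop := ∃ x y, OT G M x y

/-- `2+2` with branch vertices `x`, `y`. -/
def TT (G : V → V → Prop) (x y : V) : Prop :=
  x ≠ y ∧ ∃ S1 S2 S3 S4 : Set V,
    S1 ⊆ {x, y}ᶜ ∧ S2 ⊆ {x, y}ᶜ ∧ S3 ⊆ {x, y}ᶜ ∧ S4 ⊆ {x, y}ᶜ ∧
    Disjoint S1 S2 ∧ Disjoint S1 S3 ∧ Disjoint S1 S4 ∧ Disjoint S2 S3 ∧ Disjoint S2 S4 ∧
    Disjoint S3 S4 ∧
    Via G S1 x y ∧ Via1 G S2 x y ∧ Via G S3 y x ∧ Via1 G S4 y x

/-- Bigon in `M` from `u` to `z`. -/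
def Big (G : V → V → Prop) (M : Set V) (u z : V) : Prop :=
  u ≠ z ∧ u ∈ M ∧ z ∈ M ∧ ∃ S1 S2 : Set V, S1 ⊆ M \ {u, z} ∧ S2 ⊆ M \ {u, z} ∧
    Disjoint S1 S2 ∧ Via G S1 u z ∧ Via1 G S2 u z

/-- Every set `S` that contains all in-neighbours of a nonempty set `X` outside `X` has at least
`K` elements, unless `X` and its in-neighbours are everything. -/
def Conn (G : V → V → Prop) (K : ℕ) : Prop :=
  ∀ X : Set V, X.Nonempty → (∃ r, r ∉ X ∧ ∀ x ∈ X, ¬ G r x) →
    ∀ S : Finset V, (∀ v, v ∉ X → (∃ x ∈ X, G v x) → v ∈ S) → K ≤ S.card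

/-- Inside `R`, every vertex with an in-neighbour outside `R` reaches every vertex with an
out-neighbour outside `R`. -/
def Transit (G : V → V → Prop) (R : Set V) : Prop :=
  ∀ u ∈ R, ∀ u' ∈ R, (∃ v, v ∉ R ∧ G v u) → (∃ w, w ∉ R ∧ G u' w) → RS G R u u'

/-- `S` is the set of intermediate vertices of a path from `a` to `b` (properties of it). -/
structure Tight (G : V → V → Prop) (S : Set V) (a b : V) : Prop where
  via : Via G S a b
  pre : ∀ t ∈ S, Via G (S \ {t}) a t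
  post : ∀ t ∈ S, Via G (S \ {t}) t b
  comp : ∀ s ∈ S, ∀ t ∈ S, s ≠ t → RS G S s t ∨ RS G S t s

/-- One of the two vertices reaches the other one inside `S`. -/
def Cmp (G : V → V → Prop) (S : Set V) (a b : V) : Prop := RS G S a b ∨ RS G S b a

/-- All vertices outside a set of fewer than `K` vertices reach each other outside it. -/
def Strong (G : V → V → Prop) (K : ℕ) : Prop :=
  ∀ S : Finset V, S.card < K → ∀ a, a ∉ S → ∀ b, b ∉ S → RS G (↑S : Set V)ᶜ a b

/-- The vertices of `U` reached from `R` through `U`. -/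
def U1 (G : V → V → Prop) (R U : Set V) : Set V := {v | v ∈ U ∧ ∃ r ∈ R, Via G U r v}

/-- The entries of `Q`: vertices of `Q` reached from `R` through `U`. -/
def Fs (G : V → V → Prop) (R U Q : Set V) : Set V := {q | q ∈ Q ∧ ∃ r ∈ R, Via G U r q}

/-- The extremal configuration: `R` the root set, `B` the vertices leading to the root, `Q` the
strong part of the rest, with the set `E` of gates, and `U` the remaining vertices. -/
structure Conf (G : V → V → Prop) (R B U Q E : Set V) : Prop where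
  irr : ∀ v, ¬ G v v
  cin : Conn G 5
  cout : Conn (fun a b => G b a) 5
  cover : ∀ v, v ∈ R ∨ v ∈ B ∨ v ∈ U ∨ v ∈ Q
  dRB : Disjoint R B
  dRU : Disjoint R U
  dRQ : Disjoint R Q
  dBU : Disjoint B U
  dBQ : Disjoint B Q
  dUQ : Disjoint U Q
  Rne : R.Nonempty
  tr : Transit G R
  nRB : ∀ r ∈ R, ∀ b ∈ B, ¬ G r b
  nQU : ∀ q ∈ Q, ∀ u ∈ U, ¬ G q u
  nUB : ∀ u ∈ U, ∀ b ∈ B, ¬ G u b
  nUR : ∀ u ∈ U, ∀ r ∈ R, ¬ G u r
  EQ : E ⊆ Q
  Eout : ∀ q ∈ Q, q ∉ E → ∀ v, G q v → v ∈ Q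
  BR : ∀ b ∈ B, ∃ r ∈ R, Via G B b r
  ER : ∀ q ∈ E, ∃ r ∈ R, Via G B q r
  strQ : ∀ a ∈ Q, ∀ b ∈ Q, RS G Q a b
  Q21 : Has21 G Q
  Emin : ∀ q ∈ E, ¬ Has21 G (Q \ {q})
  B21 : ¬ Has21 G B
  pmax : ∀ P : Set V, P.Nonempty → Disjoint R P → (∀ p ∈ P, ∃ r ∈ R, Via G P p r) →
    (∀ p ∈ P, ∃ r ∈ R, Via G P r p) → ¬ Has21 G (R ∪ P)ᶜ

/-- The reversed digraph. -/
abbrev Rev (G : V → V → Prop) : V → V → Prop := fun a b => G b a

variable {G : V → V → Prop} {S T M : Set V} {a b c d t : V}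

/-! ### basic properties of `RS` -/

theorem rtg_mono (h : S ⊆ T) (hab : Relation.ReflTransGen (fun p q => G p q ∧ q ∈ S) a b) :
    Relation.ReflTransGen (fun p q => G p q ∧ q ∈ T) a b :=
  Relation.ReflTransGen.mono (fun _ _ hpq => ⟨hpq.1, h hpq.2⟩) _ _ hab

theorem rtg_mem (hab : Relation.ReflTransGen (fun p q => G p q ∧ q ∈ S) a b) : b = a ∨ b ∈ S := by
  rcases Relation.ReflTransGen.cases_tail hab with h | ⟨c, _, h⟩
  · exact Or.inl h
  · exact Or.inr h.2

theorem RS.left (h : RS G S a b) : a ∈ S := h.1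

theorem RS.right (h : RS G S a b) : b ∈ S := by
  rcases rtg_mem h.2 with h' | h'
  · rw [h']; exact h.1
  · exact h'

theorem RS.refl (h : a ∈ S) : RS G S a a := ⟨h, Relation.ReflTransGen.refl⟩

theorem RS.mono (hST : S ⊆ T) (h : RS G S a b) : RS G T a b := ⟨hST h.1, rtg_mono hST h.2⟩

theorem RS.trans (h : RS G S a b) (h' : RS G S b c) : RS G S a c := ⟨h.1, h.2.trans h'.2⟩

theorem RS.tail (h : RS G S a b) (hbc : G b c) (hc : c ∈ S) : RS G S a c :=
  ⟨h.1, h.2.tail ⟨hbc, hc⟩⟩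

theorem RS.head (ha : a ∈ S) (hab : G a b) (h : RS G S b c) : RS G S a c :=
  ⟨ha, Relation.ReflTransGen.head ⟨hab, h.1⟩ h.2⟩

theorem RS.single (ha : a ∈ S) (hab : G a b) (hb : b ∈ S) : RS G S a b :=
  (RS.refl ha).tail hab hb

/-- head induction for `RS` -/
theorem RS.head_induction {P : V → Prop} (h : RS G S a b) (hb : P b)
    (hs : ∀ p q, p ∈ S → G p q → RS G S q b → P q → P p) : P a := by
  obtain ⟨ha, h⟩ := h
  revert ha
  induction h using Relation.ReflTransGen.head_induction_on with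
  | refl => intro _; exact hb
  | head hac hcb ih => intro ha; exact hs _ _ ha hac.1 ⟨hac.2, hcb⟩ (ih hac.2)

/-- tail induction for `RS` -/
theorem RS.tail_induction {P : V → Prop} (h : RS G S a b) (ha : P a)
    (hs : ∀ p q, RS G S a p → G p q → q ∈ S → P p → P q) : P b := by
  obtain ⟨ha', h⟩ := h
  induction h with
  | refl => exact ha
  | tail hac hcb ih => exact hs _ _ ⟨ha', hac⟩ hcb.1 hcb.2 ih

theorem RS.rev (h : RS G S a b) : RS (Rev G) S b a :=
  h.tail_induction (P := fun p => RS (Rev G) S p a) (RS.refl h.1)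
    fun _ _ _ hpq hq ih => RS.head hq hpq ih

theorem rs_rev : RS (Rev G) S a b ↔ RS G S b a := ⟨fun h => h.rev, fun h => h.rev⟩

/-! ### basic properties of `Via` -/

theorem Via.adj (h : G a b) : Via G S a b := ⟨a, Relation.ReflTransGen.refl, h⟩

theorem Via.mono (hST : S ⊆ T) (h : Via G S a b) : Via G T a b := by
  obtain ⟨c, hc, hcb⟩ := h
  exact ⟨c, rtg_mono hST hc, hcb⟩

theorem Via1.mono (hST : S ⊆ T) (h : Via1 G S a b) : Via1 G T a b := by
  obtain ⟨s, c, h1, h2, h3⟩ := h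
  exact ⟨s, c, h1, h2.mono hST, h3⟩

theorem Via1.via (h : Via1 G S a b) : Via G S a b := by
  obtain ⟨s, c, h1, h2, h3⟩ := h
  exact ⟨c, Relation.ReflTransGen.head ⟨h1, h2.1⟩ h2.2, h3⟩

theorem via_iff : Via G S a b ↔ G a b ∨ Via1 G S a b := by
  constructor
  · rintro ⟨c, hc, hcb⟩
    rcases Relation.ReflTransGen.cases_head hc with h | ⟨s, h1, h2⟩
    · left; rw [h]; exact hcb
    · right; exact ⟨s, c, h1.1, ⟨h1.2, h2⟩, hcb⟩
  · rintro (h | h)
    · exact Via.adj h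
    · exact h.via

/-- put a walk in `S` in front of an arc -/
theorem RS.via (h : RS G S a b) (hbc : G b c) : Via G S a c := ⟨b, h.2, hbc⟩

/-- put an arc in front of a walk in `S` followed by an arc -/
theorem Via1.mk (h1 : G a b) (h2 : RS G S b c) (h3 : G c d) : Via1 G S a d := ⟨b, c, h1, h2, h3⟩

/-- `Via` plus both end vertices gives `RS` -/
theorem Via.rs (h : Via G S a b) (hS : S ⊆ T) (ha : a ∈ T) (hb : b ∈ T) : RS G T a b := by
  obtain ⟨c, hc, hcb⟩ := h
  exact ⟨ha, (rtg_mono hS hc).tail ⟨hcb, hb⟩⟩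

/-- a walk in `S` from `b` after a `Via` to `b` -/
theorem Via.trans_rs (h : Via G S a b) (h' : RS G S b c) (hcd : G c d) : Via G S a d := by
  obtain ⟨e, he, heb⟩ := h
  exact ⟨c, (he.tail ⟨heb, h'.1⟩).trans h'.2, hcd⟩

theorem Via.trans (h : Via G S a b) (hb : b ∈ S) (h' : Via G S b c) : Via G S a c := by
  obtain ⟨e, he, heb⟩ := h
  obtain ⟨e', he', heb'⟩ := h'
  exact ⟨e', (he.tail ⟨heb, hb⟩).trans he', heb'⟩

/-- concatenating at an intermediate vertex `b ∈ S` gives a `Via1` -/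
theorem Via.trans1 (h : Via G S a b) (hb : b ∈ S) (h' : Via G S b c) : Via1 G S a c := by
  rcases via_iff.1 h with h1 | ⟨s, e, h1, h2, h3⟩
  · obtain ⟨e', he', heb'⟩ := h'
    exact ⟨b, e', h1, ⟨hb, he'⟩, heb'⟩
  · obtain ⟨e', he', heb'⟩ := h'
    exact ⟨s, e', h1, (h2.tail h3 hb).trans ⟨hb, he'⟩, heb'⟩

/-- a walk inside `S` between two different vertices is a `Via` -/
theorem RS.via_of_ne (h : RS G S a b) (hab : a ≠ b) : Via G S a b := by
  obtain ⟨ha, h⟩ := h
  rcases Relation.ReflTransGen.cases_tail h with h' | ⟨c, h1, h2⟩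
  · exact absurd h'.symm hab
  · exact ⟨c, h1, h2.1⟩

theorem Via.rev (h : Via G S a b) : Via (Rev G) S b a := by
  rcases via_iff.1 h with h1 | ⟨s, e, h1, h2, h3⟩
  · exact Via.adj h1
  · exact (Via1.mk (G := Rev G) h3 h2.rev h1).via

theorem via_rev : Via (Rev G) S a b ↔ Via G S b a := ⟨fun h => h.rev, fun h => h.rev⟩

theorem Via1.rev (h : Via1 G S a b) : Via1 (Rev G) S b a := by
  obtain ⟨s, e, h1, h2, h3⟩ := h
  exact Via1.mk (G := Rev G) h3 h2.rev h1

theorem via1_rev : Via1 (Rev G) S a b ↔ Via1 G S b a := ⟨fun h => h.rev, fun h => h.rev⟩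

/-- a `Via` that passes through a vertex of `S` for sure because its ends are not adjacent -/
theorem Via.via1_of_not_adj (h : Via G S a b) (hn : ¬ G a b) : Via1 G S a b :=
  (via_iff.1 h).resolve_left hn

/-! ### hitting lemmas -/

/-- first hit: a walk in `M` from `a ∉ T` to `b ∈ T` has a first vertex `t` in `T`. -/
theorem RS.first_hit (h : RS G M a b) (hb : b ∈ T) (ha : a ∉ T) :
    ∃ t ∈ T, t ∈ M ∧ Via G (M \ T) a t ∧ RS G M t b := by
  refine h.head_induction (P := fun p => p ∉ T → ∃ t ∈ T, t ∈ M ∧ Via G (M \ T) p t ∧ RS G M t b)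
    (fun hn => absurd hb hn) ?_ ha
  intro p q hp hpq hqb ih hpT
  by_cases hq : q ∈ T
  · exact ⟨q, hq, hqb.1, Via.adj hpq, hqb⟩
  · obtain ⟨t, ht, htM, hv, htb⟩ := ih hq
    obtain ⟨c, hc, hct⟩ := hv
    exact ⟨t, ht, htM, ⟨c, Relation.ReflTransGen.head ⟨hpq, hqb.1, hq⟩ hc, hct⟩, htb⟩

/-- last hit: a walk in `M` from `a ∈ T` to `b ∉ T` has a last vertex `t` in `T`. -/
theorem RS.last_hit (h : RS G M a b) (ha : a ∈ T) (hb : b ∉ T) :
    ∃ t ∈ T, t ∈ M ∧ RS G M a t ∧ Via G (M \ T) t b := by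
  obtain ⟨t, h1, h2, h3, h4⟩ := h.rev.first_hit ha hb
  exact ⟨t, h1, h2, rs_rev.1 h4, via_rev.1 h3⟩

/-- first hit for `Via`: either the intermediate vertices avoid `T`, or there is a first one in `T`. -/
theorem Via.first_hit (h : Via G S a b) (T : Set V) :
    Via G (S \ T) a b ∨ ∃ t ∈ T, t ∈ S ∧ Via G (S \ T) a t ∧ Via G S t b := by
  obtain ⟨c, hc, hcb⟩ := h
  induction hc using Relation.ReflTransGen.head_induction_on with
  | refl => exact Or.inl (Via.adj hcb)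
  | head hpq hqc ih =>
    rename_i p q
    by_cases hq : q ∈ T
    · exact Or.inr ⟨q, hq, hpq.2, Via.adj hpq.1, ⟨c, hqc, hcb⟩⟩
    · rcases ih with ih | ⟨t, ht, htS, h1, h2⟩
      · obtain ⟨e, he, heb⟩ := ih
        exact Or.inl ⟨e, Relation.ReflTransGen.head ⟨hpq.1, hpq.2, hq⟩ he, heb⟩
      · obtain ⟨e, he, heb⟩ := h1
        exact Or.inr ⟨t, ht, htS, ⟨e, Relation.ReflTransGen.head ⟨hpq.1, hpq.2, hq⟩ he, heb⟩, h2⟩

/-- last hit for `Via`. -/
theorem Via.last_hit (h : Via G S a b) (T : Set V) :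
    Via G (S \ T) a b ∨ ∃ t ∈ T, t ∈ S ∧ Via G S a t ∧ Via G (S \ T) t b := by
  rcases h.rev.first_hit T with h' | ⟨t, h1, h2, h3, h4⟩
  · exact Or.inl (via_rev.1 h')
  · exact Or.inr ⟨t, h1, h2, via_rev.1 h4, via_rev.1 h3⟩

/-- a `Via` does not need to come back to its start vertex -/
theorem Via.diff_start (h : Via G S a b) : Via G (S \ {a}) a b := by
  rcases h.last_hit {a} with h' | ⟨t, h1, _, _, h4⟩
  · exact h'
  · rw [Set.mem_singleton_iff] at h1
    rw [h1] at h4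
    exact h4

/-- a `Via` does not need to visit its end vertex before the end -/
theorem Via.diff_end (h : Via G S a b) : Via G (S \ {b}) a b := by
  rcases h.first_hit {b} with h' | ⟨t, h1, _, h3, _⟩
  · exact h'
  · rw [Set.mem_singleton_iff] at h1
    rw [h1] at h3
    exact h3

/-- a walk in `S` between different vertices: intermediate vertices different from both ends -/
theorem RS.via_diff (h : RS G S a b) (hab : a ≠ b) : Via G (S \ {a, b}) a b := by
  have h1 := (h.via_of_ne hab).diff_start.diff_end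
  refine h1.mono ?_
  intro v hv
  simp only [Set.mem_sdiff, Set.mem_singleton_iff, Set.mem_insert_iff] at hv ⊢
  tauto

theorem OT.mono {x y : V} (hST : S ⊆ T) (h : OT G S x y) : OT G T x y := by
  obtain ⟨h1, h2, h3, S1, S2, S3, h4, h5, h6, h7⟩ := h
  exact ⟨h1, hST h2, hST h3, S1, S2, S3, h4.trans (Set.sdiff_subset_sdiff_left hST),
    h5.trans (Set.sdiff_subset_sdiff_left hST), h6.trans (Set.sdiff_subset_sdiff_left hST), h7⟩

theorem Has21.mono (hST : S ⊆ T) (h : Has21 G S) : Has21 G T := by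
  obtain ⟨x, y, h⟩ := h
  exact ⟨x, y, h.mono hST⟩

theorem OT.rev {x y : V} (h : OT G M x y) : OT (Rev G) M y x := by
  obtain ⟨h1, h2, h3, S1, S2, S3, h4, h5, h6, h7, h8, h9, v1, v2, v3⟩ := h
  rw [Set.pair_comm] at h4 h5 h6
  exact ⟨h1.symm, h3, h2, S1, S2, S3, h4, h5, h6, h7, h8, h9, v1.rev, v2.rev, v3.rev⟩

theorem has21_rev : Has21 (Rev G) M ↔ Has21 G M :=
  ⟨fun ⟨x, y, h⟩ => ⟨y, x, h.rev⟩, fun ⟨x, y, h⟩ => ⟨y, x, h.rev⟩⟩

end P71954f
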