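import Pool.Agent.Lib.P71954f.Lists

/-!
# Module Theta (P71954f): the vertex set of a `2+1`

Sketch.  From `OT G M x y` take simple lists `l1, l2, l3` (`exists_list_of_via`, `exists_list_of_via1`) for the three walks.
Put `C1 := x :: (l1 ++ y :: l3)`, `C2 := x :: (l2 ++ y :: l3)` (two dicycles: `Nodup`, `IsChain G`, and last vertex → `x`), `T := {v | v ∈ C1 ∨ v ∈ C2}`.
Helper lemmas for a dicycle given as a list `C` with `C.Nodup`, `List.IsChain G (C ++ [C.head])` (or stated with `getLast`/`head`):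
 (D1) for `a, b ∈ C`, `u ∈ V`, `a ≠ u`, `b ≠ u`, `a ≠ b`: `Cmp G ({v | v ∈ C} \ {u}) a b` (say `a` is before `b`; if `u` is not between them `a` reaches `b` directly,
      otherwise `b` reaches the end, then the head, then `a`).
 (D2) for `v ∈ C`, if `C` has another vertex, there is `s ∈ C`, `s ≠ v`, `G v s`, and `s` reaches every `w ∈ C`, `w ≠ v`, in `C \ {v}`.
      (rotate the list: it is enough to treat `C = v :: C'` since `C.rotate` is again a dicycle; or split `C = p ++ v :: q`, then the walk is `q ++ p`.)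
 (Θ3) two of the three vertices lie on the same `C_i` (pigeonhole); use (D1).
 (Θs) `v ∈ T`, `v ≠ x`: `v ∈ C_i` for some `i`; `s` from (D2) on `C_i`; it reaches all of `C_i \ {v}`, in particular `x`; every vertex of `l_j` (`j ≠ i`) is reached from `x` through
      `l_j`, which does not contain `v` if `v ∉ C_j`; if `v` is in both then `v = y` or `v ∈ l3`, not in `l_j` either.  So `T \ {v} = (C_i \ {v}) ∪ l_j` is reached.
 Strong: each `C_i` is a dicycle through `x`.
-/

set_option autoImplicit false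

namespace P71954f

variable {V : Type*} {G : V → V → Prop} {M : Set V}

namespace ThetaAux

theorem chain_rs {S : Set V} : ∀ (l : List V) (s : V), List.IsChain G (s :: l) →
    (∀ z ∈ s :: l, z ∈ S) → ∀ w ∈ s :: l, RS G S s w := by
  intro l
  induction l with
  | nil =>
    intro s _ hS w hw
    rw [List.mem_singleton] at hw
    subst hw
    exact RS.refl (hS _ (by simp))
  | cons t l ih =>
    intro s hc hS w hw
    rw [List.isChain_cons_cons] at hc
    rcases List.mem_cons.1 hw with h | h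
    · subst h
      exact RS.refl (hS _ (by simp))
    · exact RS.head (hS s (by simp)) hc.1 (ih t hc.2 (fun z hz => hS z (List.mem_cons_of_mem _ hz)) w h)

/-- a dicycle -/
def Cyc (G : V → V → Prop) (C : List V) : Prop :=
  C.Nodup ∧ ∃ x C', C = x :: C' ∧ List.IsChain G (x :: (C' ++ [x]))

/-- rotation of a dicycle -/
theorem rotate {C : List V} (hC : Cyc G C) {v : V} (hv : v ∈ C) :
    ∃ D : List V, (v :: D).Nodup ∧ (∀ z, z ∈ v :: D ↔ z ∈ C) ∧ List.IsChain G (v :: (D ++ [v])) := by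
  obtain ⟨hn, x, C', rfl, hc⟩ := hC
  rcases List.mem_cons.1 hv with h | h
  · subst h
    exact ⟨C', hn, fun z => Iff.rfl, hc⟩
  · obtain ⟨p, q, rfl⟩ := List.append_of_mem h
    have hc' : List.IsChain G ((x :: p) ++ v :: (q ++ [x])) := by
      simpa using hc
    obtain ⟨h1, h2⟩ := List.isChain_split.1 hc'
    refine ⟨q ++ x :: p, ?_, ?_, ?_⟩
    · have hperm : List.Perm (v :: (q ++ x :: p)) (x :: (p ++ v :: q)) := by
        have e1 : List.Perm ((v :: q) ++ (x :: p)) ((x :: p) ++ (v :: q)) := List.perm_append_comm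
        simpa using e1
      exact hperm.nodup_iff.2 hn
    · intro z
      simp only [List.mem_cons, List.mem_append]
      tauto
    · have : List.IsChain G ((v :: q) ++ x :: (p ++ [v])) := by
        refine List.isChain_split.2 ⟨?_, ?_⟩
        · simpa using h2
        · simpa using h1
      simpa using this

theorem chain_init {l : List V} {v w : V} (h : List.IsChain G (v :: (l ++ [w]))) :
    List.IsChain G (v :: l) := by
  have : List.IsChain G ((v :: l) ++ [w]) := by simpa using h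
  exact (List.isChain_append.1 this).1

theorem cyc_rs {C : List V} (hC : Cyc G C) {a b : V} (ha : a ∈ C) (hb : b ∈ C) :
    RS G {v | v ∈ C} a b := by
  obtain ⟨D, _, hD, hc⟩ := rotate hC ha
  exact chain_rs D a (chain_init hc) (fun z hz => (hD z).1 hz) b ((hD b).2 hb)

theorem cyc_cmp {C : List V} (hC : Cyc G C) {a b u : V} (ha : a ∈ C) (hb : b ∈ C) (hau : a ≠ u)
    (hbu : b ≠ u) (hab : a ≠ b) : Cmp G ({v | v ∈ C} \ {u}) a b := by
  by_cases hu : u ∈ C
  · obtain ⟨D, hn, hD, hc⟩ := rotate hC hu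
    have hDu : ∀ z ∈ D, z ∈ {v | v ∈ C} \ {u} := by
      intro z hz
      refine ⟨(hD z).1 (List.mem_cons_of_mem _ hz), ?_⟩
      intro h
      rw [Set.mem_singleton_iff] at h
      subst h
      exact (List.nodup_cons.1 hn).1 hz
    have ha' : a ∈ D := (List.mem_cons.1 ((hD a).2 ha)).resolve_left hau
    have hb' : b ∈ D := (List.mem_cons.1 ((hD b).2 hb)).resolve_left hbu
    have hcD : List.IsChain G D := by
      have h1 := chain_init hc
      exact (List.isChain_append.1 (show List.IsChain G ([u] ++ D) from h1)).2.1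
    obtain ⟨p, q, rfl⟩ := List.append_of_mem ha'
    have hb2 : b ∈ p ∨ b ∈ q := by
      rcases List.mem_append.1 hb' with h | h
      · exact Or.inl h
      · exact Or.inr ((List.mem_cons.1 h).resolve_left (Ne.symm hab))
    rcases hb2 with h | h
    · right
      obtain ⟨p1, p2, rfl⟩ := List.append_of_mem h
      have h1 : List.IsChain G (b :: (p2 ++ a :: q)) := by
        have : List.IsChain G (p1 ++ (b :: (p2 ++ a :: q))) := by simpa using hcD
        exact (List.isChain_append.1 this).2.1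
      exact chain_rs _ b h1 (fun z hz => hDu z (by
        simp only [List.mem_cons, List.mem_append] at hz ⊢
        tauto)) a (by simp)
    · left
      have h1 : List.IsChain G (a :: q) := (List.isChain_append.1 hcD).2.1
      exact chain_rs _ a h1 (fun z hz => hDu z (by
        simp only [List.mem_cons, List.mem_append] at hz ⊢
        tauto)) b (List.mem_cons_of_mem _ h)
  · left
    refine (cyc_rs hC ha hb).mono ?_
    intro z hz
    refine ⟨hz, ?_⟩
    intro h
    rw [Set.mem_singleton_iff] at h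
    subst h
    exact hu hz

/-- the successor of a vertex on a dicycle reaches everything -/
theorem cyc_succ {C l : List V} (hC : Cyc G C) {x v : V} (hx : x ∈ C) (hv : v ∈ C) (hvx : v ≠ x)
    (hl : List.IsChain G (x :: l)) (hvl : v ∉ l) {T : Set V}
    (hT : ∀ z, z ∈ T ↔ z ∈ C ∨ z ∈ l) :
    ∃ s ∈ T, s ≠ v ∧ G v s ∧ ∀ w ∈ T, w ≠ v → RS G (T \ {v}) s w := by
  obtain ⟨D, hn, hD, hc⟩ := rotate hC hv
  have hvD : v ∉ D := (List.nodup_cons.1 hn).1
  have hxD : x ∈ D := (List.mem_cons.1 ((hD x).2 hx)).resolve_left (Ne.symm hvx)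
  cases D with
  | nil => exact absurd hxD (by simp)
  | cons s D' =>
    have hc' := chain_init hc
    rw [List.isChain_cons_cons] at hc'
    have hDT : ∀ z ∈ s :: D', z ∈ T \ {v} := by
      intro z hz
      refine ⟨(hT z).2 (Or.inl ((hD z).1 (List.mem_cons_of_mem _ hz))), ?_⟩
      intro h
      rw [Set.mem_singleton_iff] at h
      subst h
      exact hvD hz
    have hlT : ∀ z ∈ x :: l, z ∈ T \ {v} := by
      intro z hz
      rcases List.mem_cons.1 hz with h | h
      · subst h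
        exact hDT z hxD
      · refine ⟨(hT z).2 (Or.inr h), ?_⟩
        intro h'
        rw [Set.mem_singleton_iff] at h'
        subst h'
        exact hvl h
    have hsD : ∀ w ∈ s :: D', RS G (T \ {v}) s w := chain_rs D' s hc'.2 hDT
    refine ⟨s, (hDT s (by simp)).1, (hDT s (by simp)).2, hc'.1, ?_⟩
    intro w hw hwv
    rcases (hT w).1 hw with h | h
    · exact hsD w ((List.mem_cons.1 ((hD w).2 h)).resolve_left hwv)
    · exact (hsD x hxD).trans (chain_rs l x hl hlT w (List.mem_cons_of_mem _ h))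

theorem mk_cyc {x y : V} {l1 l3 : List V} (hxy : x ≠ y) (h1 : l1.Nodup) (h3 : l3.Nodup)
    (hd : ∀ v ∈ l1, v ∉ l3) (hx1 : x ∉ l1) (hx3 : x ∉ l3) (hy1 : y ∉ l1) (hy3 : y ∉ l3)
    (c1 : List.IsChain G (x :: (l1 ++ [y]))) (c3 : List.IsChain G (y :: (l3 ++ [x]))) :
    Cyc G (x :: (l1 ++ y :: l3)) := by
  refine ⟨?_, x, l1 ++ y :: l3, rfl, ?_⟩
  · rw [List.nodup_cons, List.nodup_append, List.nodup_cons]
    refine ⟨?_, h1, ⟨hy3, h3⟩, ?_⟩
    · simp only [List.mem_append, List.mem_cons]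
      tauto
    · intro a ha b hb hab
      subst hab
      rcases List.mem_cons.1 hb with h | h
      · subst h
        exact hy1 ha
      · exact hd a ha h
  · have : List.IsChain G ((x :: l1) ++ y :: (l3 ++ [x])) :=
      List.isChain_split.2 ⟨by simpa using c1, c3⟩
    simpa using this

end ThetaAux

open ThetaAux

theorem theta {x y : V} (h : OT G M x y) : ∃ T ⊆ M, OT G T x y ∧
    (∀ a ∈ T, ∀ b ∈ T, RS G T a b) ∧
    (∀ u p1 p2 p3, p1 ∈ T → p2 ∈ T → p3 ∈ T → p1 ≠ u → p2 ≠ u → p3 ≠ u →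
      p1 ≠ p2 → p1 ≠ p3 → p2 ≠ p3 →
      Cmp G (T \ {u}) p1 p2 ∨ Cmp G (T \ {u}) p1 p3 ∨ Cmp G (T \ {u}) p2 p3) ∧
    (∀ v ∈ T, v ≠ x → ∃ s ∈ T, s ≠ v ∧ G v s ∧ ∀ w ∈ T, w ≠ v → RS G (T \ {v}) s w) := by
  obtain ⟨hxy, hxM, hyM, S1, S2, S3, hS1, hS2, hS3, d12, d13, d23, v1, v2, v3⟩ := h
  obtain ⟨l1, n1, m1, c1⟩ := exists_list_of_via v1
  obtain ⟨l2, z2, n2, m2, c2⟩ := exists_list_of_via1 v2
  obtain ⟨l3, n3, m3, c3⟩ := exists_list_of_via v3
  have hx1 : x ∉ l1 := fun h => (hS1 (m1 x h)).2 (by simp)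
  have hy1 : y ∉ l1 := fun h => (hS1 (m1 y h)).2 (by simp)
  have hx2 : x ∉ l2 := fun h => (hS2 (m2 x h)).2 (by simp)
  have hy2 : y ∉ l2 := fun h => (hS2 (m2 y h)).2 (by simp)
  have hx3 : x ∉ l3 := fun h => (hS3 (m3 x h)).2 (by simp)
  have hy3 : y ∉ l3 := fun h => (hS3 (m3 y h)).2 (by simp)
  have e12 : ∀ v ∈ l1, v ∉ l2 := fun v h h' => Set.disjoint_left.1 d12 (m1 v h) (m2 v h')
  have e13 : ∀ v ∈ l1, v ∉ l3 := fun v h h' => Set.disjoint_left.1 d13 (m1 v h) (m3 v h')
  have e23 : ∀ v ∈ l2, v ∉ l3 := fun v h h' => Set.disjoint_left.1 d23 (m2 v h) (m3 v h')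
  have C1 : Cyc G (x :: (l1 ++ y :: l3)) := mk_cyc hxy n1 n3 e13 hx1 hx3 hy1 hy3 c1 c3
  have C2 : Cyc G (x :: (l2 ++ y :: l3)) := mk_cyc hxy n2 n3 e23 hx2 hx3 hy2 hy3 c2 c3
  set T : Set V := {v | v ∈ x :: (l1 ++ y :: l3) ∨ v ∈ x :: (l2 ++ y :: l3)} with hT
  have hT1 : {v | v ∈ x :: (l1 ++ y :: l3)} ⊆ T := fun v hv => Or.inl hv
  have hT2 : {v | v ∈ x :: (l2 ++ y :: l3)} ⊆ T := fun v hv => Or.inr hv
  have hTx : x ∈ T := Or.inl (by simp)
  have hTy : y ∈ T := Or.inl (by simp)
  have hTl1 : ∀ v ∈ l1, v ∈ T := fun v hv => Or.inl (by simp [hv])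
  have hTl2 : ∀ v ∈ l2, v ∈ T := fun v hv => Or.inr (by simp [hv])
  have hTl3 : ∀ v ∈ l3, v ∈ T := fun v hv => Or.inl (by simp [hv])
  have mT : ∀ v, v ∈ T ↔ v = x ∨ v = y ∨ v ∈ l1 ∨ v ∈ l2 ∨ v ∈ l3 := by
    intro v
    simp only [hT, Set.mem_ofPred_eq, List.mem_cons, List.mem_append]
    tauto
  refine ⟨T, ?_, ?_, ?_, ?_, ?_⟩
  · intro v hv
    rcases (mT v).1 hv with h | h | h | h | h
    · rw [h]; exact hxM
    · rw [h]; exact hyM
    · exact (hS1 (m1 v h)).1
    · exact (hS2 (m2 v h)).1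
    · exact (hS3 (m3 v h)).1
  · refine ⟨hxy, hTx, hTy, {v | v ∈ l1}, {v | v ∈ l2}, {v | v ∈ l3}, ?_, ?_, ?_, ?_, ?_, ?_,
      via_of_chain (fun _ h => h) c1, via1_of_chain z2 (fun _ h => h) c2,
      via_of_chain (fun _ h => h) c3⟩
    · intro v hv
      exact ⟨hTl1 v hv, (hS1 (m1 v hv)).2⟩
    · intro v hv
      exact ⟨hTl2 v hv, (hS2 (m2 v hv)).2⟩
    · intro v hv
      exact ⟨hTl3 v hv, (hS3 (m3 v hv)).2⟩
    · exact Set.disjoint_left.2 e12
    · exact Set.disjoint_left.2 e13
    · exact Set.disjoint_left.2 e23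
  · intro a ha b hb
    have h1 : RS G T a x := by
      rcases ha with h | h
      · exact (cyc_rs C1 h (by simp)).mono hT1
      · exact (cyc_rs C2 h (by simp)).mono hT2
    have h2 : RS G T x b := by
      rcases hb with h | h
      · exact (cyc_rs C1 (by simp) h).mono hT1
      · exact (cyc_rs C2 (by simp) h).mono hT2
    exact h1.trans h2
  · intro u p1 p2 p3 hp1 hp2 hp3 q1 q2 q3 h12 h13 h23
    have key1 : ∀ a b, a ∈ x :: (l1 ++ y :: l3) → b ∈ x :: (l1 ++ y :: l3) → a ≠ u → b ≠ u →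
        a ≠ b → Cmp G (T \ {u}) a b := by
      intro a b ha hb hau hbu hab
      have hsub : {v | v ∈ x :: (l1 ++ y :: l3)} \ {u} ⊆ T \ {u} :=
        fun z hz => ⟨hT1 hz.1, hz.2⟩
      rcases cyc_cmp C1 ha hb hau hbu hab with h | h
      · exact Or.inl (h.mono hsub)
      · exact Or.inr (h.mono hsub)
    have key2 : ∀ a b, a ∈ x :: (l2 ++ y :: l3) → b ∈ x :: (l2 ++ y :: l3) → a ≠ u → b ≠ u →
        a ≠ b → Cmp G (T \ {u}) a b := by
      intro a b ha hb hau hbu hab
      have hsub : {v | v ∈ x :: (l2 ++ y :: l3)} \ {u} ⊆ T \ {u} :=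
        fun z hz => ⟨hT2 hz.1, hz.2⟩
      rcases cyc_cmp C2 ha hb hau hbu hab with h | h
      · exact Or.inl (h.mono hsub)
      · exact Or.inr (h.mono hsub)
    rcases hp1 with a1 | a1 <;> rcases hp2 with a2 | a2 <;> rcases hp3 with a3 | a3
    · exact Or.inl (key1 _ _ a1 a2 q1 q2 h12)
    · exact Or.inl (key1 _ _ a1 a2 q1 q2 h12)
    · exact Or.inr (Or.inl (key1 _ _ a1 a3 q1 q3 h13))
    · exact Or.inr (Or.inr (key2 _ _ a2 a3 q2 q3 h23))
    · exact Or.inr (Or.inr (key1 _ _ a2 a3 q2 q3 h23))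
    · exact Or.inr (Or.inl (key2 _ _ a1 a3 q1 q3 h13))
    · exact Or.inl (key2 _ _ a1 a2 q1 q2 h12)
    · exact Or.inl (key2 _ _ a1 a2 q1 q2 h12)
  · intro v hv hvx
    rcases hv with h | h
    · refine cyc_succ C1 (x := x) (l := l2) (by simp) h hvx (chain_init c2) ?_ ?_
      · intro hv2
        simp only [List.mem_cons, List.mem_append] at h
        rcases h with h | h | h | h
        · exact hvx h
        · exact e12 v h hv2
        · rw [h] at hv2
          exact hy2 hv2
        · exact e23 v hv2 h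
      · intro z
        rw [mT]
        simp only [List.mem_cons, List.mem_append]
        tauto
    · refine cyc_succ C2 (x := x) (l := l1) (by simp) h hvx (chain_init c1) ?_ ?_
      · intro hv1
        simp only [List.mem_cons, List.mem_append] at h
        rcases h with h | h | h | h
        · exact hvx h
        · exact e12 v hv1 h
        · rw [h] at hv1
          exact hy1 hv1
        · exact e13 v hv1 h
      · intro z
        rw [mT]
        simp only [List.mem_cons, List.mem_append]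
        tauto

end P71954f
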