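import Pool.Agent.Lib.P71954f.FB
import Pool.Agent.Lib.P71954f.Theta

/-!
# Module EQ (P71954f): a fan with three ends in the gate set is impossible

Sketch (all indices in `Fin 3`).  Every `2+1` of `Q` contains all of `E` (`hgate`), in particular all `z i`.
(A) `∃ j0, RS G (Q \ {z l | l ≠ j0}) (z j0) u`: `RS.last_hit` on a walk `z 0 ⇝ u` in `Q` with `T := Set.range z` (u ∉ T).
(B) (e) For `l ≠ j0` not `RS G (Q \ {u}) (z l) (z j0)`.  Otherwise `RS.last_hit` with `T := {z l | l ≠ j0}` gives `l' ≠ j0` and a walk `z l' ⇝ z j0` in `Q \ {u}` avoiding the third end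
    `z m` (`m ≠ j0, l'`) after its start; apply `fb` with `M := Q \ {z m}`, `a := z l'`, `b := z j0`, `La := L l'`, `Lb := L j0`, return walk from (A). Contradiction with `hgate (z m)`.
(C) (g) for the two indices `n ≠ m` different from `j0`: not `RS G (Q \ {u}) (z n) (z m)`.  Otherwise this walk avoids `z j0` by (e) (cut it at `z j0`), and a walk `z m ⇝ u` in `Q` (take it
    with `u` only at the end, `Via.diff_end`) avoids `z j0` by (e) too; `fb` with `M := Q \ {z j0}`.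
(D) (f) for `i ≠ j0` not `RS G (Q \ {u}) (z j0) (z i)`.  Otherwise `RS.first_hit` with `T := {z l | l ≠ j0}` gives `i'` and a walk `z j0 ⇝ z i'` in `Q \ {u}` avoiding the third end `z m`
    before its end; a walk `z i' ⇝ u` in `Q` avoids `z m` by (C); `fb` with `M := Q \ {z m}`, `a := z j0`, `b := z i'`.
(E) By (B), (C), (D) no two of the `z i` are comparable in `Q \ {u}`, but a `2+1` of `Q` and `theta` (its `T` contains all `z i`, since otherwise `Has21 G (Q \ {z i})`) say that two of them are. Contradiction.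
Useful small lemma: `RS G S a b` and `v ∈ S` not on it: if not `RS G S a v` then `RS G (S \ {v}) a b` (tail induction).
-/

set_option autoImplicit false

namespace P71954f

variable {V : Type*} {G : V → V → Prop}

private theorem EQAux_avoid {S : Set V} {a b v : V} (h : RS G S a b) (hn : ¬ RS G S a v) :
    RS G (S \ {v}) a b := by
  have ha : a ∈ S \ {v} := ⟨h.left, fun he => hn (by
    rw [Set.mem_singleton_iff] at he
    rw [← he]
    exact RS.refl h.left)⟩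
  refine h.tail_induction (P := fun p => RS G (S \ {v}) a p) (RS.refl ha) ?_
  intro p q hap hpq hq ih
  refine ih.tail hpq ⟨hq, fun he => hn ?_⟩
  rw [Set.mem_singleton_iff] at he
  rw [← he]
  exact hap.tail hpq hq

private theorem EQAux_avoid_end {Q : Set V} {a u v : V} (h : RS G Q a u) (hau : a ≠ u) (hvu : v ≠ u)
    (hn : ¬ RS G (Q \ {u}) a v) : RS G (Q \ {v}) a u := by
  obtain ⟨c, hc, hcu⟩ := (h.via_of_ne hau).diff_end
  have h1 : RS G (Q \ {u}) a c := ⟨⟨h.left, hau⟩, hc⟩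
  have h2 := EQAux_avoid h1 hn
  refine (h2.mono ?_).tail hcu ⟨h.right, fun he => hvu he.symm⟩
  intro w hw
  exact ⟨hw.1.1, hw.2⟩

private theorem EQAux_third (a b : Fin 3) (hab : a ≠ b) : ∃ c : Fin 3, c ≠ a ∧ c ≠ b := by
  revert a b
  decide

theorem eq_contra {Q E : Set V} {u : V} (hst : ∀ a ∈ Q, ∀ b ∈ Q, RS G Q a b) (h21 : Has21 G Q)
    (hE : E ⊆ Q) (hgate : ∀ e ∈ E, ¬ Has21 G (Q \ {e})) (hu : u ∈ Q) (huE : u ∉ E)
    (z : Fin 3 → V) (L : Fin 3 → Set V) (hz : Function.Injective z) (hzE : ∀ i, z i ∈ E)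
    (hL : ∀ i, L i ⊆ Q \ (E ∪ {u})) (hd : ∀ i j, i ≠ j → Disjoint (L i) (L j))
    (hv : ∀ i, Via G (L i) u (z i)) : False := by
  have hzQ : ∀ i, z i ∈ Q := fun i => hE (hzE i)
  have hzu : ∀ i, z i ≠ u := fun i he => huE (he ▸ hzE i)
  have fbuse : ∀ a b m : Fin 3, a ≠ b → m ≠ a → m ≠ b →
      RS G ((Q \ {z m}) \ {u}) (z a) (z b) → RS G (Q \ {z m}) (z b) u → False := by
    intro a b m hab hma hmb h1 h2
    have hLs : ∀ i, L i ⊆ (Q \ {z m}) \ {u, z a, z b} := by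
      intro i v hvi
      obtain ⟨hvQ, hvn⟩ := hL i hvi
      refine ⟨⟨hvQ, fun he => hvn (Or.inl ?_)⟩, fun he => hvn ?_⟩
      · rw [Set.mem_singleton_iff] at he
        rw [he]; exact hzE m
      · rcases he with he | he | he
        · right; exact he
        · left; rw [he]; exact hzE a
        · left
          rw [Set.mem_singleton_iff] at he
          rw [he]; exact hzE b
    exact hgate (z m) (hzE m) (fb (hz.ne hab) (hzu a) (hzu b) (hLs a) (hLs b) (hd a b hab) (hv a)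
      (hv b) h1 h2)
  -- (A)
  obtain ⟨t, ⟨j0, rfl⟩, _, _, hA⟩ := (hst (z 0) (hzQ 0) u hu).last_hit (T := Set.range z) ⟨0, rfl⟩
    (by rintro ⟨i, hi⟩; exact hzu i hi)
  have hA' : ∀ m, m ≠ j0 → RS G (Q \ {z m}) (z j0) u := by
    intro m hm
    refine hA.rs ?_ ⟨hzQ j0, fun he => hm (hz ?_)⟩ ⟨hu, fun he => hzu m ?_⟩
    · intro w hw
      refine ⟨hw.1, fun he => hw.2 ?_⟩
      rw [Set.mem_singleton_iff] at he
      rw [he]; exact ⟨m, rfl⟩
    · rw [Set.mem_singleton_iff] at he; exact he.symm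
    · rw [Set.mem_singleton_iff] at he; exact he.symm
  -- (B)
  have hB : ∀ l, l ≠ j0 → ¬ RS G (Q \ {u}) (z l) (z j0) := by
    intro l hl h
    obtain ⟨t, ⟨l', hl', rfl⟩, _, _, h1⟩ := h.last_hit (T := {v | ∃ l, l ≠ j0 ∧ z l = v})
      ⟨l, hl, rfl⟩ (by rintro ⟨i, hi, hi'⟩; exact hi (hz hi'))
    obtain ⟨m, hm1, hm2⟩ := EQAux_third l' j0 hl'
    refine fbuse l' j0 m hl' hm1 hm2 (h1.rs ?_ ?_ ?_) (hA' m hm2)
    · intro w hw
      refine ⟨⟨hw.1.1, fun he => hw.2 ?_⟩, hw.1.2⟩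
      rw [Set.mem_singleton_iff] at he
      exact ⟨m, hm2, he.symm⟩
    · exact ⟨⟨hzQ l', fun he => hm1 (hz he).symm⟩, hzu l'⟩
    · exact ⟨⟨hzQ j0, fun he => hm2 (hz he).symm⟩, hzu j0⟩
  -- (C)
  have hC : ∀ n m, n ≠ m → n ≠ j0 → m ≠ j0 → ¬ RS G (Q \ {u}) (z n) (z m) := by
    intro n m hnm hn hm h
    refine fbuse n m j0 hnm hn.symm hm.symm ((EQAux_avoid h (hB n hn)).mono ?_)
      (EQAux_avoid_end (hst (z m) (hzQ m) u hu) (hzu m) (hzu j0) (hB m hm))
    intro w hw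
    exact ⟨⟨hw.1.1, hw.2⟩, hw.1.2⟩
  -- (D)
  have hD : ∀ i, i ≠ j0 → ¬ RS G (Q \ {u}) (z j0) (z i) := by
    intro i hi h
    obtain ⟨t, ⟨i', hi', rfl⟩, _, h1, _⟩ := h.first_hit (T := {v | ∃ l, l ≠ j0 ∧ z l = v})
      ⟨i, hi, rfl⟩ (by rintro ⟨i, hi, hi'⟩; exact hi (hz hi'))
    obtain ⟨m, hm1, hm2⟩ := EQAux_third i' j0 hi'
    refine fbuse j0 i' m hi'.symm hm2 hm1 (h1.rs ?_ ?_ ?_)
      (EQAux_avoid_end (hst (z i') (hzQ i') u hu) (hzu i') (hzu m) (hC i' m hm1.symm hi' hm2))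
    · intro w hw
      refine ⟨⟨hw.1.1, fun he => hw.2 ?_⟩, hw.1.2⟩
      rw [Set.mem_singleton_iff] at he
      exact ⟨m, hm2, he.symm⟩
    · exact ⟨⟨hzQ j0, fun he => hm2 (hz he).symm⟩, hzu j0⟩
    · exact ⟨⟨hzQ i', fun he => hm1 (hz he).symm⟩, hzu i'⟩
  -- (E)
  have hall : ∀ i j, i ≠ j → ¬ RS G (Q \ {u}) (z i) (z j) := by
    intro i j hij
    by_cases h1 : j = j0
    · rw [h1]; exact hB i (by rw [← h1]; exact hij)
    · by_cases h2 : i = j0
      · rw [h2]; exact hD j h1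
      · exact hC i j hij h2 h1
  obtain ⟨x, y, hxy⟩ := h21
  obtain ⟨T, hTQ, hT, _, h3, _⟩ := theta hxy
  have hzT : ∀ i, z i ∈ T := by
    intro i
    by_contra hn
    refine hgate (z i) (hzE i) ⟨x, y, hT.mono ?_⟩
    intro w hw
    refine ⟨hTQ hw, fun he => hn ?_⟩
    rw [Set.mem_singleton_iff] at he
    rw [← he]; exact hw
  have hcmp : ∀ i j, i ≠ j → ¬ Cmp G (T \ {u}) (z i) (z j) := by
    intro i j hij h
    have hs : T \ {u} ⊆ Q \ {u} := fun w hw => ⟨hTQ hw.1, hw.2⟩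
    rcases h with h | h
    · exact hall i j hij (h.mono hs)
    · exact hall j i hij.symm (h.mono hs)
  have h01 : (0 : Fin 3) ≠ 1 := by decide
  have h02 : (0 : Fin 3) ≠ 2 := by decide
  have h12 : (1 : Fin 3) ≠ 2 := by decide
  rcases h3 u (z 0) (z 1) (z 2) (hzT 0) (hzT 1) (hzT 2) (hzu 0) (hzu 1) (hzu 2) (hz.ne h01)
    (hz.ne h02) (hz.ne h12) with h | h | h
  · exact hcmp 0 1 h01 h
  · exact hcmp 0 2 h02 h
  · exact hcmp 1 2 h12 h

end P71954f
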