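import Pool.Agent.Lib.P71954f.Lists

/-!
# Module EarSplit (P71954f): splitting a closed ear at the last vertex of an exit path

From `Via G W u1 g` with `u1 ∈ B ⊆ W`, `g ∉ W`: list `l` with `l.Nodup`, members in `W`, `IsChain G (g :: (l ++ [g]))` and `u1 ∈ l`
(take `Via1 G W g g` built from `G g u1`; to be sure that `u1 ∈ l` use the list of the path from `u1` to `g`: `exists_list_of_via (Via.diff_start h2)` gives `l'` in `W \ {u1}`, `l := u1 :: l'`).
`T := {v | v ∈ l}`.  `Via.last_hit` for `h3 : Via G B u1 r` with `T`: either `Via G (B \ T) u1 r`, put `h := u1`, or `h ∈ T ∩ B` with `Via G (B \ T) h r`.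
`tighten` gives `SX ⊆ B \ T`, `Tight G SX h r`.  Split `l = p ++ h :: q`: `SG := {v | v ∈ p}`, `SY := {v | v ∈ q}`; `via_of_chain`, `tight_of_list`.
-/

set_option autoImplicit false

namespace P71954f

variable {V : Type*} {G : V → V → Prop}

theorem ear_split {W B : Set V} {g r u1 : V} (hBW : B ⊆ W) (hgW : g ∉ W) (hrW : r ∉ W)
    (hu1 : u1 ∈ B) (h1 : G g u1) (h2 : Via G W u1 g) (h3 : Via G B u1 r) :
    ∃ h ∈ B, ∃ SX SY SG : Set V, SX ⊆ B \ {h} ∧ SY ⊆ W \ {h} ∧ SG ⊆ W \ {h} ∧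
      Disjoint SX SY ∧ Disjoint SX SG ∧ Disjoint SY SG ∧
      Tight G SX h r ∧ Tight G SY h g ∧ Via G SG g h := by
  obtain ⟨l', hn', hm', hc'⟩ := exists_list_of_via (Via.diff_start h2)
  obtain ⟨l, hl⟩ : ∃ l, l = u1 :: l' := ⟨_, rfl⟩
  have hln : l.Nodup := by
    rw [hl, List.nodup_cons]
    exact ⟨fun h => (hm' _ h).2 rfl, hn'⟩
  have hlm : ∀ v ∈ l, v ∈ W := by
    intro v hv
    rw [hl, List.mem_cons] at hv
    rcases hv with hv | hv
    · rw [hv]; exact hBW hu1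
    · exact (hm' _ hv).1
  have hlc : List.IsChain G (g :: (l ++ [g])) := by
    rw [hl, List.cons_append, List.isChain_cons_cons]
    exact ⟨h1, hc'⟩
  have hu1l : u1 ∈ l := by rw [hl]; exact List.mem_cons_self
  obtain ⟨T, hT⟩ : ∃ T : Set V, T = {v | v ∈ l} := ⟨_, rfl⟩
  have hTm : ∀ v, v ∈ T ↔ v ∈ l := by intro v; rw [hT]; rfl
  obtain ⟨h, hhT, hhB, hvia⟩ : ∃ h, h ∈ T ∧ h ∈ B ∧ Via G (B \ T) h r := by
    rcases h3.last_hit T with h4 | ⟨h, h4, h5, _, h6⟩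
    · exact ⟨u1, (hTm _).2 hu1l, hu1, h4⟩
    · exact ⟨h, h4, h5, h6⟩
  obtain ⟨SX, hSX, hSXt⟩ := tighten hvia
  obtain ⟨p, q, hpq⟩ := List.append_of_mem ((hTm _).1 hhT)
  have hchain : List.IsChain G ((g :: p) ++ h :: (q ++ [g])) := by
    have h4 : (g :: p) ++ h :: (q ++ [g]) = g :: (l ++ [g]) := by
      rw [hpq]; simp
    rw [h4]; exact hlc
  rw [List.isChain_split] at hchain
  obtain ⟨hc1, hc2⟩ := hchain
  have hnd := hln
  rw [hpq, List.nodup_append] at hnd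
  obtain ⟨hp, hhq, hd⟩ := hnd
  rw [List.nodup_cons] at hhq
  have hpl : ∀ v ∈ p, v ∈ l := fun v hv => by rw [hpq]; exact List.mem_append_left _ hv
  have hql : ∀ v ∈ q, v ∈ l := fun v hv => by
    rw [hpq]; exact List.mem_append_right _ (List.mem_cons_of_mem _ hv)
  have hhp : h ∉ p := fun hv => hd h hv h List.mem_cons_self rfl
  refine ⟨h, hhB, SX, {v | v ∈ q}, {v | v ∈ p}, ?_, ?_, ?_, ?_, ?_, ?_, hSXt, ?_, ?_⟩
  · intro v hv
    refine ⟨(hSX hv).1, fun hvh => (hSX hv).2 ?_⟩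
    rw [Set.mem_singleton_iff] at hvh
    rw [hvh]; exact hhT
  · intro v hv
    refine ⟨hlm _ (hql _ hv), fun hvh => hhq.1 ?_⟩
    rw [Set.mem_singleton_iff] at hvh
    rw [← hvh]; exact hv
  · intro v hv
    refine ⟨hlm _ (hpl _ hv), fun hvh => hhp ?_⟩
    rw [Set.mem_singleton_iff] at hvh
    rw [← hvh]; exact hv
  · rw [Set.disjoint_left]
    intro v hv hv'
    exact (hSX hv).2 ((hTm _).2 (hql _ hv'))
  · rw [Set.disjoint_left]
    intro v hv hv'
    exact (hSX hv).2 ((hTm _).2 (hpl _ hv'))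
  · rw [Set.disjoint_left]
    intro v hv hv'
    exact hd v hv' v (List.mem_cons_of_mem _ hv) rfl
  · exact tight_of_list hhq.2 hc2
  · exact via_of_chain (S := {v | v ∈ p}) (fun v hv => hv) hc1

end P71954f
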