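import Pool.Agent.Lib.P71954f.K1
import Pool.Agent.Lib.P71954f.Theta

/-!
# Module Entries (P71954f): the entries `Fs G R U Q`

* `fs_via`: all intermediate vertices of a walk from `r` through `U` lie in `U1` (tail induction).
* `fs_nonempty`: otherwise `(R ∪ U1)ᶜ` has no in-neighbour outside.
* `fs_not_OT`: an entry is not the out-branch of a `2+1` of `Q`.
* `root_path`: the path from `Q ∪ B` through `B`, `R`, `U1` to an entry.
* `fs_unique_out`: an entry has exactly one out-neighbour in `Q`.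
-/

set_option autoImplicit false

namespace P71954f

variable {V : Type*} {G : V → V → Prop} {R B U Q : Set V}

theorem u1_sub : U1 G R U ⊆ U := fun _ h => h.1

theorem u1_of_R {v r : V} (hv : v ∈ U) (hr : r ∈ R) (h : G r v) : v ∈ U1 G R U :=
  ⟨hv, r, hr, Via.adj h⟩

theorem u1_of_U1 {v w : V} (hv : v ∈ U1 G R U) (hw : w ∈ U) (h : G v w) : w ∈ U1 G R U := by
  obtain ⟨hvU, r, hr, hrv⟩ := hv
  exact ⟨hw, r, hr, hrv.trans hvU (Via.adj h)⟩

theorem fs_via {q : V} (h : q ∈ Fs G R U Q) : ∃ r ∈ R, Via G (U1 G R U) r q := by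
  obtain ⟨_, r, hr, c, hc, hcq⟩ := h
  refine ⟨r, hr, c, ?_, hcq⟩
  clear hcq
  induction hc with
  | refl => exact Relation.ReflTransGen.refl
  | tail hac hcb ih => exact ih.tail ⟨hcb.1, hcb.2, r, hr, _, hac, hcb.1⟩

theorem fs_of_R {q r : V} (hq : q ∈ Q) (hr : r ∈ R) (h : G r q) : q ∈ Fs G R U Q :=
  ⟨hq, r, hr, Via.adj h⟩

theorem fs_of_U1 {q v : V} (hq : q ∈ Q) (hv : v ∈ U1 G R U) (h : G v q) : q ∈ Fs G R U Q := by
  obtain ⟨hvU, r, hr, hrv⟩ := hv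
  exact ⟨hq, r, hr, hrv.trans hvU (Via.adj h)⟩

/-- last arc of a `Via` -/
theorem Via.last_arc {S : Set V} {a b : V} (h : Via G S a b) : ∃ c, (c = a ∨ c ∈ S) ∧ G c b := by
  obtain ⟨c, hc, hcb⟩ := h
  exact ⟨c, rtg_mem hc, hcb⟩

/-- first arc of a `Via` -/
theorem Via.first_arc {S : Set V} {a b : V} (h : Via G S a b) : ∃ c, (c = b ∨ c ∈ S) ∧ G a c := by
  obtain ⟨c, hc, hcb⟩ := h.rev.last_arc
  exact ⟨c, hc, hcb⟩

/-- A walk from outside `R` into `R` through `SB ⊆ B`, then through `R`, then through `U1` to an entry. -/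
theorem root_path {E : Set V} (C : Conf G R B U Q E) {q r f : V} {SB : Set V} (hSB : SB ⊆ B) (hq : q ∉ R)
    (hr : r ∈ R) (h : Via G SB q r) (hf : f ∈ Fs G R U Q) :
    Via1 G (SB ∪ R ∪ U1 G R U) q f := by
  obtain ⟨r', hr', hf'⟩ := fs_via hf
  have hfR : f ∉ R := fun hfR => Set.disjoint_left.1 C.dRQ hfR hf.1
  have h1 : RS G R r r' := by
    refine C.tr r hr r' hr' ?_ ?_
    · obtain ⟨c, hc, hcr⟩ := h.last_arc
      refine ⟨c, ?_, hcr⟩
      rcases hc with rfl | hc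
      · exact hq
      · exact fun hcR => Set.disjoint_left.1 C.dRB hcR (hSB hc)
    · obtain ⟨c, hc, hcr⟩ := hf'.first_arc
      refine ⟨c, ?_, hcr⟩
      rcases hc with rfl | hc
      · exact hfR
      · exact fun hcR => Set.disjoint_left.1 C.dRU hcR hc.1
  have hsub1 : SB ⊆ SB ∪ R ∪ U1 G R U := fun v hv => Or.inl (Or.inl hv)
  have hsub2 : R ⊆ SB ∪ R ∪ U1 G R U := fun v hv => Or.inl (Or.inr hv)
  have hsub3 : U1 G R U ⊆ SB ∪ R ∪ U1 G R U := fun v hv => Or.inr hv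
  have h2 : Via G (SB ∪ R ∪ U1 G R U) r f := by
    rcases eq_or_ne r r' with rfl | hne
    · exact hf'.mono hsub3
    · exact ((h1.via_of_ne hne).mono hsub2).trans (hsub2 hr') (hf'.mono hsub3)
  exact (h.mono hsub1).trans1 (hsub2 hr) h2

theorem fs_nonempty (C : Conf G R B U Q Q) : (Fs G R U Q).Nonempty := by
  by_contra hne
  rw [Set.not_nonempty_iff_eq_empty] at hne
  have hno : ∀ q, q ∉ Fs G R U Q := fun q hq => by rw [hne] at hq; exact hq
  obtain ⟨x, y, hxy⟩ := C.Q21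
  obtain ⟨r, hr⟩ := C.Rne
  -- no arc from `R ∪ U1` into its complement
  have key : ∀ v, v ∈ R ∪ U1 G R U → ∀ w, w ∉ R ∪ U1 G R U → ¬ G v w := by
    intro v hv w hw hvw
    rcases C.cover w with h | h | h | h
    · exact hw (Or.inl h)
    · rcases hv with hv | hv
      · exact C.nRB v hv w h hvw
      · exact C.nUB v hv.1 w h hvw
    · rcases hv with hv | hv
      · exact hw (Or.inr (u1_of_R h hv hvw))
      · exact hw (Or.inr (u1_of_U1 hv h hvw))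
    · rcases hv with hv | hv
      · exact hno w (fs_of_R h hv hvw)
      · exact hno w (fs_of_U1 h hv hvw)
  have h5 : 5 ≤ (∅ : Finset V).card := by
    refine C.cin (R ∪ U1 G R U)ᶜ ⟨x, ?_⟩ ⟨r, ?_, ?_⟩ ∅ ?_
    · rintro (h | h)
      · exact Set.disjoint_left.1 C.dRQ h hxy.2.1
      · exact Set.disjoint_left.1 C.dUQ h.1 hxy.2.1
    · exact fun h => h (Or.inl hr)
    · intro w hw
      exact key r (Or.inl hr) w hw
    · rintro v hv ⟨w, hw, hvw⟩
      exact absurd hvw (key v (not_not.1 hv) w hw)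
  simp at h5

theorem fs_not_OT (C : Conf G R B U Q Q) (hTT : ∀ x y, ¬ TT G x y) {f y : V}
    (hf : f ∈ Fs G R U Q) : ¬ OT G Q f y := by
  rintro ⟨hne, hfQ, hyQ, S1, S2, S3, h1, h2, h3, d12, d13, d23, v1, v2, v3⟩
  obtain ⟨r, hr, hyr⟩ := C.ER y hyQ
  have hyR : y ∉ R := fun h => Set.disjoint_left.1 C.dRQ h hyQ
  have v4 : Via1 G (B ∪ R ∪ U1 G R U) y f := root_path C subset_rfl hyR hr hyr hf
  have hQd : ∀ v ∈ Q, v ∉ B ∪ R ∪ U1 G R U := by
    rintro v hv ((h | h) | h)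
    · exact Set.disjoint_left.1 C.dBQ h hv
    · exact Set.disjoint_left.1 C.dRQ h hv
    · exact Set.disjoint_left.1 C.dUQ h.1 hv
  refine hTT f y ⟨hne, S1, S2, S3, B ∪ R ∪ U1 G R U, ?_, ?_, ?_, ?_, d12, d13, ?_, d23, ?_, ?_,
    v1, v2, v3, v4⟩
  · exact fun v hv => (h1 hv).2
  · exact fun v hv => (h2 hv).2
  · exact fun v hv => (h3 hv).2
  · rintro v hv (rfl | rfl)
    · exact hQd _ hfQ hv
    · exact hQd _ hyQ hv
  · exact Set.disjoint_left.2 fun v hv hv' => hQd v (h1 hv).1 hv'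
  · exact Set.disjoint_left.2 fun v hv hv' => hQd v (h2 hv).1 hv'
  · exact Set.disjoint_left.2 fun v hv hv' => hQd v (h3 hv).1 hv'

/-- the vertex set of a `2+1` of `Q` is all of `Q` -/
theorem theta_Q (C : Conf G R B U Q Q) {x y : V} (h : OT G Q x y) : 
    (∀ u p1 p2 p3, p1 ∈ Q → p2 ∈ Q → p3 ∈ Q → p1 ≠ u → p2 ≠ u → p3 ≠ u →
      p1 ≠ p2 → p1 ≠ p3 → p2 ≠ p3 →
      Cmp G (Q \ {u}) p1 p2 ∨ Cmp G (Q \ {u}) p1 p3 ∨ Cmp G (Q \ {u}) p2 p3) ∧
    (∀ v ∈ Q, v ≠ x → ∃ s ∈ Q, s ≠ v ∧ G v s ∧ ∀ w ∈ Q, w ≠ v → RS G (Q \ {v}) s w) := by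
  obtain ⟨T, hTQ, hT, hst, h3, hs⟩ := theta h
  have hTeq : T = Q := by
    refine Set.Subset.antisymm hTQ fun q hq => ?_
    by_contra hqT
    exact C.Emin q hq ⟨x, y, hT.mono fun v hv => ⟨hTQ hv, fun hvq => hqT (hvq ▸ hv)⟩⟩
  subst hTeq
  exact ⟨h3, hs⟩

theorem fs_unique_out (C : Conf G R B U Q Q) (hTT : ∀ x y, ¬ TT G x y) {f : V}
    (hf : f ∈ Fs G R U Q) : ∃ g ∈ Q, G f g ∧ ∀ a ∈ Q, G f a → a = g := by
  obtain ⟨x, y, hxy⟩ := C.Q21
  have hfx : f ≠ x := by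
    rintro rfl
    exact fs_not_OT C hTT hf hxy
  obtain ⟨s, hsQ, hsf, hfs, hall⟩ := (theta_Q C hxy).2 f hf.1 hfx
  refine ⟨s, hsQ, hfs, fun a ha hfa => ?_⟩
  by_contra has
  have haf : a ≠ f := by
    rintro rfl
    exact C.irr _ hfa
  have hsa : RS G (Q \ {f}) s a := hall a ha haf
  have hbig : Big G Q f a := by
    refine ⟨haf.symm, hf.1, ha, ∅, Q \ {f, a}, Set.empty_subset _, subset_rfl,
      Set.empty_disjoint _, Via.adj hfa, ?_⟩
    obtain ⟨c, hc, hca⟩ := hsa.via_diff (Ne.symm has)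
    refine ⟨s, c, hfs, ⟨⟨hsQ, ?_⟩, rtg_mono ?_ hc⟩, hca⟩
    · rintro (h | h)
      · exact hsf h
      · exact has h.symm
    · intro v hv
      refine ⟨hv.1.1, ?_⟩
      rintro (h | h)
      · exact hv.1.2 h
      · exact hv.2 (Or.inr h)
  obtain ⟨t, ht⟩ := k1 hbig (C.strQ a ha f hf.1)
  exact fs_not_OT C hTT hf ht

end P71954f
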