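import Pool.Agent.Lib.P71954f.MengerAB

/-!
# Module Fan (P71954f): fan versions of Menger's theorem

Sketch for `fan_out`.  Apply `menger_ab` to `G' p q := G p q ∧ p ∈ W ∧ q ∈ W ∪ Z`, `A := {a | a ∈ W ∪ Z ∧ G u a}`, `B := Z`.
Hypothesis: given `S` with `|S| < k`, apply `h` to `S.erase u` (classical) to get `z` and `Via G (W \ (S.erase u)) u z` with `z ∉ S.erase u`, `z ≠ u`; its first vertex after `u` and the rest
form a walk of `G'` from `A` to `Z` avoiding `S` (`u ∉ W`, `u ∉ Z`).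
Conclusion: `L i` contains a `G'`-walk from `a i ∈ A` to `z i ∈ Z`.  `z` is injective because the `L i` are disjoint and `z i ∈ L i`.  New sets `L i ∩ W`: all vertices
of the walk other than the last one lie in `W` (an arc of `G'` starts in `W`), so `Via G (L i ∩ W) u (z i)`.
Then tighten.  `fan_in` is `fan_out` for the reversed digraph `Rev G`.
-/

set_option autoImplicit false

namespace P71954f

variable {V : Type*}

/-- change the digraph and enlarge the set of a walk -/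
private theorem rs_change {G G' : V → V → Prop} {S T : Set V} {a b : V} (hST : S ⊆ T)
    (hG : ∀ p ∈ S, ∀ q ∈ S, G p q → G' p q) (h : RS G S a b) : RS G' T a b := by
  refine h.tail_induction (P := fun p => RS G' T a p) (RS.refl (hST h.1)) ?_
  intro p q hap hpq hq ih
  exact ih.tail (hG p hap.right q hq hpq) (hST hq)

private theorem tight_rev {G : V → V → Prop} {S : Set V} {a b : V} (h : Tight (Rev G) S a b) :
    Tight G S b a where
  via := via_rev.1 h.via
  pre := fun t ht => via_rev.1 (h.post t ht)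
  post := fun t ht => via_rev.1 (h.pre t ht)
  comp := fun s hs t ht hst => by
    rcases h.comp s hs t ht hst with h' | h'
    · exact Or.inr (rs_rev.1 h')
    · exact Or.inl (rs_rev.1 h')

theorem fan_out [Finite V] (G : V → V → Prop) (K : ℕ) (u : V) (Z W : Set V) (huZ : u ∉ Z)
    (huW : u ∉ W) (hZW : Disjoint Z W)
    (h : ∀ S : Finset V, S.card < K → u ∉ S → ∃ z ∈ Z, z ∉ S ∧ Via G (W \ ↑S) u z) :
    ∃ (z : Fin K → V) (L : Fin K → Set V), Function.Injective z ∧ (∀ i, z i ∈ Z) ∧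
      (∀ i, L i ⊆ W) ∧ (∀ i j, i ≠ j → Disjoint (L i) (L j)) ∧ ∀ i, Tight G (L i) u (z i) := by
  classical
  have hyp : ∀ S : Finset V, S.card < K → ∃ a ∈ {a | a ∈ W ∪ Z ∧ G u a}, ∃ b ∈ Z,
      RS (fun p q => G p q ∧ p ∈ W ∧ q ∈ W ∪ Z) (↑S : Set V)ᶜ a b := by
    intro S hS
    obtain ⟨z, hz, hzS, hv⟩ := h (S.erase u)
      (lt_of_le_of_lt (Finset.card_le_card (Finset.erase_subset u S)) hS)
      (Finset.notMem_erase u S)
    have hzu : z ≠ u := fun e => huZ (e ▸ hz)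
    have hzS' : z ∉ S := fun hc => hzS (Finset.mem_erase.2 ⟨hzu, hc⟩)
    have hW : W \ (↑(S.erase u) : Set V) ⊆ (↑S : Set V)ᶜ := by
      intro v hv' hvS
      have hvu : v ≠ u := fun e => huW (e ▸ hv'.1)
      exact hv'.2 (Finset.mem_coe.2 (Finset.mem_erase.2 ⟨hvu, Finset.mem_coe.1 hvS⟩))
    have hzSc : z ∈ (↑S : Set V)ᶜ := fun hc => hzS' (Finset.mem_coe.1 hc)
    rcases via_iff.1 hv with h1 | ⟨s, c, h1, h2, h3⟩
    · exact ⟨z, ⟨Or.inr hz, h1⟩, z, hz, RS.refl hzSc⟩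
    · refine ⟨s, ⟨Or.inl h2.left.1, h1⟩, z, hz, ?_⟩
      have h4 : RS (fun p q => G p q ∧ p ∈ W ∧ q ∈ W ∪ Z) (↑S : Set V)ᶜ s c :=
        rs_change hW (fun p hp q hq hpq => ⟨hpq, hp.1, Or.inl hq.1⟩) h2
      exact h4.tail ⟨h3, h2.right.1, Or.inr hz⟩ hzSc
  obtain ⟨L, hL, hr⟩ := menger_ab _ _ _ K hyp
  choose a ha b hb hab using hr
  have hbL : ∀ i, b i ∈ L i := fun i => (hab i).right
  have hvia : ∀ i, Via G (L i ∩ W) u (b i) := by
    intro i
    refine (hab i).tail_induction (P := fun p => Via G (L i ∩ W) u p) (Via.adj (ha i).2) ?_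
    intro p q hap hpq hq ih
    exact Via.trans ih ⟨hap.right, hpq.2.1⟩ (Via.adj hpq.1)
  choose L' hL' hT using fun i => tighten (hvia i)
  refine ⟨b, L', ?_, hb, fun i => (hL' i).trans Set.inter_subset_right, ?_, hT⟩
  · intro i j hij
    by_contra hne
    exact Set.disjoint_left.1 (hL i j hne) (hbL i) (by rw [hij]; exact hbL j)
  · intro i j hij
    exact (hL i j hij).mono ((hL' i).trans Set.inter_subset_left)
      ((hL' j).trans Set.inter_subset_left)

theorem fan_in [Finite V] (G : V → V → Prop) (K : ℕ) (u : V) (Z W : Set V) (huZ : u ∉ Z)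
    (huW : u ∉ W) (hZW : Disjoint Z W)
    (h : ∀ S : Finset V, S.card < K → u ∉ S → ∃ z ∈ Z, z ∉ S ∧ Via G (W \ ↑S) z u) :
    ∃ (z : Fin K → V) (L : Fin K → Set V), Function.Injective z ∧ (∀ i, z i ∈ Z) ∧
      (∀ i, L i ⊆ W) ∧ (∀ i j, i ≠ j → Disjoint (L i) (L j)) ∧ ∀ i, Tight G (L i) (z i) u := by
  obtain ⟨z, L, h1, h2, h3, h4, h5⟩ := fan_out (Rev G) K u Z W huZ huW hZW
    (fun S hS hu => by
      obtain ⟨z, hz, hzS, hv⟩ := h S hS hu
      exact ⟨z, hz, hzS, hv.rev⟩)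
  exact ⟨z, L, h1, h2, h3, h4, fun i => tight_rev (h5 i)⟩

end P71954f
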