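import Pool.Agent.Lib.P71954f.FB
import Pool.Agent.Lib.P71954f.Fan
import Pool.Agent.Lib.P71954f.Entries

/-!
# Module EightA (P71954f): a second way from `f` to `g`

`f ∈ Fs`, `g` its only out-neighbour in `Q`, `g ∉ Fs`; `W' := (U \ U1) ∪ B`.  Claim `Via1 G W' f g`.
Facts: (i) a walk in `Q` from `a ≠ f` ... that ends in `b ≠ f` and avoids `g` avoids `f`: `RS G (Q \ {g}) a b`, `a ≠ f`, `b ≠ f` gives `RS G ((Q \ {g}) \ {f}) a b` (the only arc from `f` inside `Q` goes to `g`);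
(ii) `RS G (Q \ {f}) g a` for `a ∈ Q`, `a ≠ f`: take `RS G Q g a`, `Via.diff_start` so that `g` is only the first vertex; then `f` is not on it.
(1) `fan_in` with `K := 5`, `u := g`, `Z := Q \ {g}`, `W := W'`: given `S`, `|S| < 5`, `g ∉ S`, suppose no `z ∈ Z \ S` has `Via G (W' \ S) z g`; `X := {v | v = g ∨ (v ∈ W' \ S ∧ Via G (W' \ S) v g)}`.
   In-neighbours `v ∉ X` of `X`: `v ∈ Q \ {g}`: then `v ∈ S` by assumption; `v ∈ W'`: then `v ∈ S` or `v ∈ X`; `v ∈ R`: an arc `r → g` gives `g ∈ Fs`, `r → u ∈ U \ U1` gives `u ∈ U1`, `r → b`: `nRB`; `v ∈ U1`: arc to `g` gives `g ∈ Fs`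
   (`fs_of_U1`), to `U \ U1` no (`u1_of_U1`), to `B` no.  So all in `S`; `r ∈ R` satisfies the second hypothesis of `C.cin`.  `5 ≤ |S| < 5`.
   So `q : Fin 5 → V` injective, `E i ⊆ W'` disjoint, `Tight G (E i) (q i) g`.
(2) `C.ER f` : `Via G B f r''`; `tighten`: `SX ⊆ B`, `Tight G SX f r''`.  `fs_via`: `Via G U1 r' f`; `tighten`: `SF ⊆ U1`, `Tight G SF r' f`.  `P := SF ∪ {f} ∪ SX`: `C.pmax` gives `¬ Has21 G (R ∪ P)ᶜ`.
(3) If some `E i` meets `SX` at `t`: `Via G SX f t` (`pre`), `Via G (E i) t g` (`post`): `Via.trans1` (both ⊆ W', `t ∈ W'`) gives the claim.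
(4) Otherwise: at most one `q i` is `f`, so there are three indices with `q i ≠ f` (distinct `p1, p2, p3 ∈ Q \ {g, f}`).  `theta` for a `2+1` of `Q` (`T = Q` by `Emin`), `(Θ3)` with `u := g`: two of them comparable in `Q \ {g}`, say
   `RS G (Q \ {g}) (q i) (q j)`; by (i) it avoids `f`.  `ifb` with `M := (Q \ {f}) ∪ E i ∪ E j`, `h := g`, `a := q i`, `b := q j`, `La := E i`, `Lb := E j` and (ii): `Has21 G M`, `M ⊆ (R ∪ P)ᶜ`. Contradiction.
-/

set_option autoImplicit false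

namespace P71954f

variable {V : Type*} {G : V → V → Prop} {R B U Q : Set V}

/-- fact (i) -/
theorem avoid_f {f g a b : V} {M : Set V} (hu : ∀ a ∈ M, G f a → a = g)
    (h : RS G (M \ {g}) a b) (ha : a ≠ f) (hb : b ≠ f) : RS G ((M \ {g}) \ {f}) a b := by
  refine h.head_induction (P := fun p => p ≠ f → RS G ((M \ {g}) \ {f}) p b)
    (fun _ => RS.refl ⟨h.right, hb⟩) ?_ ha
  intro p q hp hpq hqb ih hpf
  have hqf : q ≠ f := by
    intro e
    subst e
    rcases Relation.ReflTransGen.cases_head hqb.2 with h1 | ⟨c, h1, _⟩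
    · exact hb h1.symm
    · exact h1.2.2 (hu c h1.2.1 h1.1)
  exact RS.head ⟨hp, hpf⟩ hpq (ih hqf)

/-- fact (ii) -/
theorem avoid_f' {f g a : V} {M : Set V} (hfg : f ≠ g) (hu : ∀ a ∈ M, G f a → a = g)
    (h : RS G M g a) (ha : a ≠ f) : RS G (M \ {f}) g a := by
  by_cases hga : g = a
  · subst hga
    exact RS.refl ⟨h.1, ha⟩
  · have hv := (h.via_of_ne hga).diff_start
    have hgM : g ∈ M \ {f} := ⟨h.1, fun e => hfg e.symm⟩
    have haM : a ∈ M \ {f} := ⟨h.right, ha⟩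
    rcases via_iff.1 hv with h1 | ⟨s, e, h1, h2, h3⟩
    · exact RS.single hgM h1 haM
    · have h4 : RS G (M \ {g}) s a := h2.tail h3 ⟨h.right, fun e => hga e.symm⟩
      have hsf : s ≠ f := by
        intro e
        subst e
        rcases Relation.ReflTransGen.cases_head h4.2 with h5 | ⟨c, h5, _⟩
        · exact ha h5.symm
        · exact h5.2.2 (hu c h5.2.1 h5.1)
      refine RS.head hgM h1 ((avoid_f hu h4 hsf ha).mono ?_)
      intro v hv
      exact ⟨hv.1.1, hv.2⟩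

namespace EightAAux

theorem three {q : Fin 5 → V} (hq : Function.Injective q) (f : V) :
    ∃ i j k : Fin 5, i ≠ j ∧ i ≠ k ∧ j ≠ k ∧ q i ≠ f ∧ q j ≠ f ∧ q k ≠ f := by
  by_cases h0 : q 0 = f
  · exact ⟨1, 2, 3, by decide, by decide, by decide,
      fun h => absurd (hq (h.trans h0.symm)) (by decide),
      fun h => absurd (hq (h.trans h0.symm)) (by decide),
      fun h => absurd (hq (h.trans h0.symm)) (by decide)⟩
  by_cases h1 : q 1 = f
  · exact ⟨0, 2, 3, by decide, by decide, by decide, h0,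
      fun h => absurd (hq (h.trans h1.symm)) (by decide),
      fun h => absurd (hq (h.trans h1.symm)) (by decide)⟩
  by_cases h2 : q 2 = f
  · exact ⟨0, 1, 3, by decide, by decide, by decide, h0, h1,
      fun h => absurd (hq (h.trans h2.symm)) (by decide)⟩
  · exact ⟨0, 1, 2, by decide, by decide, by decide, h0, h1, h2⟩

/-- `P = SF ∪ {f} ∪ SX` -/
theorem no21 (C : Conf G R B U Q Q) {f r r' : V} {SF SX : Set V} (hf : f ∈ Q) (hr : r ∈ R)
    (hr' : r' ∈ R) (hSF : SF ⊆ U) (hSX : SX ⊆ B) (tF : Tight G SF r' f) (tX : Tight G SX f r) :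
    ¬ Has21 G (R ∪ (SF ∪ {f} ∪ SX))ᶜ := by
  have hfP : f ∈ SF ∪ {f} ∪ SX := Or.inl (Or.inr rfl)
  have sF : SF ⊆ SF ∪ {f} ∪ SX := fun v hv => Or.inl (Or.inl hv)
  have sX : SX ⊆ SF ∪ {f} ∪ SX := fun v hv => Or.inr hv
  refine C.pmax _ ⟨f, hfP⟩ ?_ ?_ ?_
  · rw [Set.disjoint_left]
    rintro v hv ((h | h) | h)
    · exact Set.disjoint_left.1 C.dRU hv (hSF h)
    · rw [Set.mem_singleton_iff] at h
      subst h
      exact Set.disjoint_left.1 C.dRQ hv hf
    · exact Set.disjoint_left.1 C.dRB hv (hSX h)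
  · rintro p ((h | h) | h)
    · exact ⟨r, hr, ((tF.post p h).mono (Set.sdiff_subset.trans sF)).trans hfP (tX.via.mono sX)⟩
    · rw [Set.mem_singleton_iff] at h
      subst h
      exact ⟨r, hr, tX.via.mono sX⟩
    · exact ⟨r, hr, (tX.post p h).mono (Set.sdiff_subset.trans sX)⟩
  · rintro p ((h | h) | h)
    · exact ⟨r', hr', (tF.pre p h).mono (Set.sdiff_subset.trans sF)⟩
    · rw [Set.mem_singleton_iff] at h
      subst h
      exact ⟨r', hr', tF.via.mono sF⟩
    · exact ⟨r', hr', (tF.via.mono sF).trans hfP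
        ((tX.pre p h).mono (Set.sdiff_subset.trans sX))⟩

/-- the fan condition -/
theorem fan_cond (C : Conf G R B U Q Q) {g : V} (hg : g ∈ Q) (hgF : g ∉ Fs G R U Q)
    (S : Finset V) (hS : S.card < 5) (hgS : g ∉ S) :
    ∃ z ∈ Q \ {g}, z ∉ S ∧ Via G (((U \ U1 G R U) ∪ B) \ ↑S) z g := by
  by_contra hno
  push Not at hno
  set W : Set V := ((U \ U1 G R U) ∪ B) \ ↑S with hW
  have hWdef : ∀ v, v ∈ W ↔ (v ∈ U ∧ v ∉ U1 G R U ∨ v ∈ B) ∧ v ∉ S := fun v => Iff.rfl
  set X : Set V := {v | v = g ∨ (v ∈ W ∧ Via G W v g)} with hX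
  have hXdef : ∀ v, v ∈ X ↔ v = g ∨ (v ∈ W ∧ Via G W v g) := fun v => Iff.rfl
  have hR : ∀ r ∈ R, ∀ x ∈ X, ¬ G r x := by
    intro r hr x hx hrx
    rcases (hXdef x).1 hx with h | ⟨h, _⟩
    · subst h
      exact hgF (fs_of_R hg hr hrx)
    · rcases ((hWdef x).1 h).1 with h | h
      · exact h.2 (u1_of_R h.1 hr hrx)
      · exact C.nRB r hr x h hrx
  obtain ⟨r, hr⟩ := C.Rne
  have hrX : r ∉ X := by
    intro h
    rcases (hXdef r).1 h with h | ⟨h, _⟩
    · subst h
      exact Set.disjoint_left.1 C.dRQ hr hg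
    · rcases ((hWdef r).1 h).1 with h | h
      · exact Set.disjoint_left.1 C.dRU hr h.1
      · exact Set.disjoint_left.1 C.dRB hr h
  have hstep : ∀ v x, x ∈ X → G v x → Via G W v g := by
    intro v x hx hvx
    rcases (hXdef x).1 hx with h | ⟨h, h'⟩
    · subst h
      exact Via.adj hvx
    · exact (Via.adj hvx).trans h h'
  have hW' : ∀ v, v ∉ X → (∃ x ∈ X, G v x) → (v ∈ U ∧ v ∉ U1 G R U ∨ v ∈ B) → v ∈ S := by
    rintro v hvX ⟨x, hx, hvx⟩ hv
    by_contra hvS
    exact hvX ((hXdef v).2 (Or.inr ⟨(hWdef v).2 ⟨hv, hvS⟩, hstep v x hx hvx⟩))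
  have h5 := C.cin X ⟨g, Or.inl rfl⟩ ⟨r, hrX, hR r hr⟩ S (by
    rintro v hvX ⟨x, hx, hvx⟩
    rcases C.cover v with h | h | h | h
    · exact absurd hvx (hR v h x hx)
    · exact hW' v hvX ⟨x, hx, hvx⟩ (Or.inr h)
    · by_cases h1 : v ∈ U1 G R U
      · exfalso
        rcases (hXdef x).1 hx with h2 | ⟨h2, _⟩
        · subst h2
          exact hgF (fs_of_U1 hg h1 hvx)
        · rcases ((hWdef x).1 h2).1 with h3 | h3
          · exact h3.2 (u1_of_U1 h1 h3.1 hvx)
          · exact C.nUB v h x h3 hvx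
      · exact hW' v hvX ⟨x, hx, hvx⟩ (Or.inl ⟨h, h1⟩)
    · by_contra hvS
      have hvg : v ≠ g := fun e => hvX ((hXdef v).2 (Or.inl e))
      exact hno v ⟨h, hvg⟩ hvS (hstep v x hx hvx))
  omega

end EightAAux

open EightAAux

theorem eight_a [Finite V] (C : Conf G R B U Q Q) {f g : V} (hf : f ∈ Fs G R U Q) (hg : g ∈ Q)
    (hfg : G f g) (hu : ∀ a ∈ Q, G f a → a = g) (hgF : g ∉ Fs G R U Q) :
    Via1 G ((U \ U1 G R U) ∪ B) f g := by
  have hfQ : f ∈ Q := hf.1
  have hne : f ≠ g := by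
    intro e
    subst e
    exact C.irr f hfg
  have hWQ : ∀ v, v ∈ (U \ U1 G R U) ∪ B → v ∉ Q := by
    rintro v (h | h) hQ
    · exact Set.disjoint_left.1 C.dUQ h.1 hQ
    · exact Set.disjoint_left.1 C.dBQ h hQ
  have hZW : Disjoint (Q \ {g}) ((U \ U1 G R U) ∪ B) :=
    Set.disjoint_left.2 fun v hv hW => hWQ v hW hv.1
  obtain ⟨q, E, hqi, hqZ, hE, hEd, hEt⟩ := fan_in G 5 g (Q \ {g}) ((U \ U1 G R U) ∪ B)
    (fun h => h.2 rfl) (fun h => hWQ g h hg) hZW (fan_cond C hg hgF)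
  obtain ⟨r, hr, hvr⟩ := C.ER f hfQ
  obtain ⟨SX, hSX, tX⟩ := tighten hvr
  obtain ⟨r', hr', hvr'⟩ := fs_via hf
  obtain ⟨SF, hSF, tF⟩ := tighten hvr'
  have hno := no21 C hfQ hr hr' (hSF.trans u1_sub) hSX tF tX
  by_cases hmeet : ∃ i t, t ∈ E i ∧ t ∈ SX
  · obtain ⟨i, t, h1, h2⟩ := hmeet
    have a1 : Via G ((U \ U1 G R U) ∪ B) f t :=
      (tX.pre t h2).mono fun v hv => Or.inr (hSX hv.1)
    have a2 : Via G ((U \ U1 G R U) ∪ B) t g :=
      ((hEt i).post t h1).mono fun v hv => hE i hv.1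
    exact a1.trans1 (hE i h1) a2
  · exfalso
    have hdis : ∀ i t, t ∈ E i → t ∉ SX := fun i t h1 h2 => hmeet ⟨i, t, h1, h2⟩
    have key : ∀ i j, i ≠ j → q i ≠ f → q j ≠ f → ¬ RS G (Q \ {g}) (q i) (q j) := by
      intro i j hij hi hj hrs
      have h1 := avoid_f hu hrs hi hj
      have h2 := avoid_f' hne hu (C.strQ g hg (q i) (hqZ i).1) hi
      have hab : q i ≠ q j := fun e => hij (hqi e)
      have hsub : ∀ k, k = i ∨ k = j →
          E k ⊆ ((Q \ {f}) ∪ E i ∪ E j) \ {g, q i, q j} := by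
        intro k hk v hv
        have hvQ := hWQ v (hE k hv)
        refine ⟨?_, ?_⟩
        · rcases hk with hk | hk
          · subst hk; exact Or.inl (Or.inr hv)
          · subst hk; exact Or.inr hv
        · intro h
          simp only [Set.mem_insert_iff, Set.mem_singleton_iff] at h
          rcases h with h | h | h
          · rw [h] at hvQ; exact hvQ hg
          · rw [h] at hvQ; exact hvQ (hqZ i).1
          · rw [h] at hvQ; exact hvQ (hqZ j).1
      have h21 : Has21 G ((Q \ {f}) ∪ E i ∪ E j) :=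
        ifb (h := g) (a := q i) (b := q j) (La := E i) (Lb := E j) hab (hqZ i).2 (hqZ j).2
          (hsub i (Or.inl rfl)) (hsub j (Or.inr rfl)) (hEd i j hij) (hEt i).via (hEt j).via
          (h1.mono fun v hv => ⟨Or.inl (Or.inl ⟨hv.1.1, hv.2⟩), hv.1.2⟩)
          (h2.mono fun v hv => Or.inl (Or.inl hv))
      refine hno (h21.mono ?_)
      have hEk : ∀ k, E k ⊆ (R ∪ (SF ∪ {f} ∪ SX))ᶜ := by
        intro k v hv hbad
        have hvW := hE k hv
        have hvQ := hWQ v hvW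
        rcases hbad with h | ((h | h) | h)
        · rcases hvW with h' | h'
          · exact Set.disjoint_left.1 C.dRU h h'.1
          · exact Set.disjoint_left.1 C.dRB h h'
        · have h3 := hSF h
          rcases hvW with h' | h'
          · exact h'.2 h3
          · exact Set.disjoint_left.1 C.dBU h' h3.1
        · rw [Set.mem_singleton_iff] at h
          subst h
          exact hvQ hfQ
        · exact hdis k v hv h
      rintro v ((hv | hv) | hv)
      · rintro (h | ((h | h) | h))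
        · exact Set.disjoint_left.1 C.dRQ h hv.1
        · exact Set.disjoint_left.1 C.dUQ (hSF h).1 hv.1
        · exact hv.2 h
        · exact Set.disjoint_left.1 C.dBQ (hSX h) hv.1
      · exact hEk i hv
      · exact hEk j hv
    obtain ⟨x, y, hOT⟩ := C.Q21
    obtain ⟨T, hTQ, hOTT, _, h3, _⟩ := theta hOT
    have hTQ' : T = Q := by
      refine Set.Subset.antisymm hTQ ?_
      intro v hv
      by_contra hvT
      refine C.Emin v hv (Has21.mono ?_ ⟨x, y, hOTT⟩)
      intro w hw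
      refine ⟨hTQ hw, ?_⟩
      intro e
      rw [Set.mem_singleton_iff] at e
      subst e
      exact hvT hw
    subst hTQ'
    obtain ⟨i, j, k, hij, hik, hjk, hi, hj, hk⟩ := three hqi f
    have hc : ∀ i j, i ≠ j → q i ≠ f → q j ≠ f → ¬ Cmp G (T \ {g}) (q i) (q j) := by
      rintro i j hij hi hj (h | h)
      · exact key i j hij hi hj h
      · exact key j i hij.symm hj hi h
    rcases h3 g (q i) (q j) (q k) (hqZ i).1 (hqZ j).1 (hqZ k).1 (hqZ i).2 (hqZ j).2 (hqZ k).2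
      (fun e => hij (hqi e)) (fun e => hik (hqi e)) (fun e => hjk (hqi e)) with h | h | h
    · exact hc i j hij hi hj h
    · exact hc i k hik hi hk h
    · exact hc j k hjk hj hk h

end P71954f
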