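import Pool.Agent.Lib.P71954f.Entries

/-!
# Module EightB (P71954f): a closed ear at `g`

`f ∈ Fs`, arc `f → g`, `W' := (U \ U1) ∪ B`, `Via1 G W' f g`, no `2+2`.  Claim: some `u1 ∈ B` with `G g u1` and `Via G W' u1 g`.
`tighten1`: `SJ ⊆ W'`, `Tight G SJ f g`, `Via1 G SJ f g`.  `C.ER g`: `Via G B g r''`.  `Via.first_hit` with `T := SJ`:
* `Via G (B \ SJ) g r''`: then `TT G f g`: `S1 := ∅` (arc), `S2 := SJ`, `S3 := Q \ {f, g}` (`strQ g f`, `RS.via_diff`), `S4 := (B \ SJ) ∪ R ∪ U1` (`root_path`).  All disjoint and avoid `f, g` (the parts are in `B`, `R`, `U1 ⊆ U`,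
  `Q`, and `SJ ⊆ (U \ U1) ∪ B`).  Contradiction.
* `t ∈ SJ ∩ B` with `Via G (B \ SJ) g t` and (`Tight.post`) `Via G (SJ \ {t}) t g`: first vertex `u1 ∈ B` of `g ⇝ t` (`t` itself if arc `g → t`): `G g u1` and `Via G W' u1 g`
  (`via_iff`; if `Via1`: `u1 ⇝ t` in `B`, then `t ⇝ g`).
Generic disjointness facts: `Set.disjoint_left`, the fields `C.dRB` etc.
-/

set_option autoImplicit false

namespace P71954f

variable {V : Type*} {G : V → V → Prop} {R B U Q : Set V}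

theorem eight_b (C : Conf G R B U Q Q) (hTT : ∀ x y, ¬ TT G x y) {f g : V}
    (hf : f ∈ Fs G R U Q) (hg : g ∈ Q) (hfg : G f g)
    (hJ : Via1 G ((U \ U1 G R U) ∪ B) f g) :
    ∃ u1 ∈ B, G g u1 ∧ Via G ((U \ U1 G R U) ∪ B) u1 g := by
  obtain ⟨SJ, hSJ, hTight, hV1⟩ := tighten1 hJ
  obtain ⟨r, hr, hgr⟩ := C.ER g hg
  have hfQ : f ∈ Q := hf.1
  have hne : f ≠ g := by
    intro h; rw [h] at hfg; exact C.irr g hfg
  have hgR : g ∉ R := fun h => Set.disjoint_left.1 C.dRQ h hg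
  rcases hgr.first_hit SJ with h1 | ⟨t, ht, htB, h1, _⟩
  · exfalso
    apply hTT f g
    have h4 := root_path C (SB := B \ SJ) (fun v hv => hv.1) hgR hr h1 hf
    have h3 : Via G (Q \ {f, g}) g f := by
      have := (C.strQ g hg f hfQ).via_diff hne.symm
      rw [Set.pair_comm] at this
      exact this
    have hUQ : ∀ v ∈ U, v ∉ Q := fun v hv hv' => Set.disjoint_left.1 C.dUQ hv hv'
    have hBQ : ∀ v ∈ B, v ∉ Q := fun v hv hv' => Set.disjoint_left.1 C.dBQ hv hv'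
    have hRQ : ∀ v ∈ R, v ∉ Q := fun v hv hv' => Set.disjoint_left.1 C.dRQ hv hv'
    have hRB : ∀ v ∈ R, v ∉ B := fun v hv hv' => Set.disjoint_left.1 C.dRB hv hv'
    have hRU : ∀ v ∈ R, v ∉ U := fun v hv hv' => Set.disjoint_left.1 C.dRU hv hv'
    have hBU : ∀ v ∈ B, v ∉ U := fun v hv hv' => Set.disjoint_left.1 C.dBU hv hv'
    have hSJQ : ∀ v ∈ SJ, v ∉ Q := by
      intro v hv
      rcases hSJ hv with hv' | hv'
      · exact hUQ v hv'.1
      · exact hBQ v hv'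
    have hS4Q : ∀ v ∈ (B \ SJ) ∪ R ∪ U1 G R U, v ∉ Q := by
      rintro v ((hv | hv) | hv)
      · exact hBQ v hv.1
      · exact hRQ v hv
      · exact hUQ v hv.1
    have hav : ∀ {X : Set V}, (∀ v ∈ X, v ∉ Q) → X ⊆ ({f, g} : Set V)ᶜ := by
      intro X hX v hv hv'
      rcases hv' with hv' | hv'
      · rw [hv'] at hv; exact hX f hv hfQ
      · rw [Set.mem_singleton_iff] at hv'
        rw [hv'] at hv; exact hX g hv hg
    refine ⟨hne, ∅, SJ, Q \ {f, g}, (B \ SJ) ∪ R ∪ U1 G R U, Set.empty_subset _, hav hSJQ, ?_,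
      hav hS4Q, Set.empty_disjoint _, Set.empty_disjoint _, Set.empty_disjoint _, ?_, ?_, ?_,
      Via.adj hfg, hV1, h3, h4⟩
    · intro v hv hv'
      exact hv.2 hv'
    · rw [Set.disjoint_left]
      intro v hv hv'
      exact hSJQ v hv hv'.1
    · rw [Set.disjoint_left]
      rintro v hv ((hv' | hv') | hv')
      · exact hv'.2 hv
      · rcases hSJ hv with h5 | h5
        · exact hRU v hv' h5.1
        · exact hRB v hv' h5
      · rcases hSJ hv with h5 | h5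
        · exact h5.2 hv'
        · exact hBU v h5 hv'.1
    · rw [Set.disjoint_left]
      intro v hv hv'
      exact hS4Q v hv' hv.1
  · have htg : Via G ((U \ U1 G R U) ∪ B) t g :=
      (hTight.post t ht).mono (fun v hv => hSJ hv.1)
    rcases via_iff.1 h1 with h2 | ⟨s, c, h2, h3, h5⟩
    · exact ⟨t, htB, h2, htg⟩
    · refine ⟨s, h3.left.1, h2, ?_⟩
      have h6 : RS G ((U \ U1 G R U) ∪ B) s c := h3.mono (fun v hv => Or.inr hv.1)
      exact (h6.via h5).trans (Or.inr htB) htg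

end P71954f
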