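import Pool.Agent.Lib.P71954f.EQ
import Pool.Agent.Lib.P71954f.Fan

/-!
# Module EqQ (P71954f): all vertices of `Q` are gates

Suppose `u ∈ Q \ E`.  `fan_out` with `K := 3`, `Z := E`, `W := Q \ (E ∪ {u})`: given `S` with `|S| < 3`, `u ∉ S`, suppose no `z ∈ E \ S` has `Via G (W \ S) u z`.  Put
`X := {v | v = u ∨ (v ∈ W \ S ∧ Via G (W \ S) u v)}`.  `C.cout` for `X` and `S`: every out-neighbour of `X` outside `X` lies in `S`: a vertex of `X` is in `Q \ E`, so its out-neighbours are in `Q` (`C.Eout`); one in `E \ S`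
is excluded by assumption, one in `W \ S` would be in `X`.  Some `r ∈ R` is not in `X` and no arc from `X` to `r` (out-neighbours are in `Q`, `C.dRQ`).  So `5 ≤ |S| < 3`.  Then `eq_contra`.
-/

set_option autoImplicit false

namespace P71954f

variable {V : Type*} {G : V → V → Prop}

theorem E_eq_Q [Finite V] {R B U Q E : Set V} (C : Conf G R B U Q E) : E = Q := by
  by_contra hne
  obtain ⟨u, hu, huE⟩ : ∃ u ∈ Q, u ∉ E := by
    by_contra hcon
    push Not at hcon
    exact hne (Set.Subset.antisymm C.EQ hcon)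
  have huW : u ∉ Q \ (E ∪ {u}) := fun h => h.2 (Or.inr rfl)
  have hZW : Disjoint E (Q \ (E ∪ {u})) :=
    Set.disjoint_left.2 fun v hv h => h.2 (Or.inl hv)
  obtain ⟨z, L, hz, hzE, hL, hd, hv⟩ := fan_out G 3 u E (Q \ (E ∪ {u})) huE huW hZW (by
    intro S hS huS
    by_contra hno
    push Not at hno
    set W' : Set V := (Q \ (E ∪ {u})) \ ↑S with hW'
    set X : Set V := {v | v = u ∨ (v ∈ W' ∧ Via G W' u v)} with hX
    have hXQ : ∀ x ∈ X, x ∈ Q ∧ x ∉ E := by
      rintro x (rfl | ⟨hx, _⟩)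
      · exact ⟨hu, huE⟩
      · exact ⟨hx.1.1, fun h => hx.1.2 (Or.inl h)⟩
    have hout : ∀ x ∈ X, ∀ v, G x v → v ∈ Q := fun x hx v hxv =>
      C.Eout x (hXQ x hx).1 (hXQ x hx).2 v hxv
    obtain ⟨r, hr⟩ := C.Rne
    have hrQ : r ∉ Q := Set.disjoint_left.1 C.dRQ hr
    have h5 := C.cout X ⟨u, Or.inl rfl⟩
      ⟨r, fun h => hrQ (hXQ r h).1, fun x hx h => hrQ (hout x hx r h)⟩ S (by
        rintro v hvX ⟨x, hx, hxv⟩
        by_contra hvS
        have hvQ : v ∈ Q := hout x hx v hxv
        have hvia : Via G W' u v := by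
          rcases hx with rfl | ⟨hx1, hx2⟩
          · exact Via.adj hxv
          · exact hx2.trans hx1 (Via.adj hxv)
        by_cases hvE : v ∈ E
        · exact hno v hvE (by exact_mod_cast hvS) hvia
        · by_cases hvu : v = u
          · exact hvX (Or.inl hvu)
          · refine hvX (Or.inr ⟨⟨⟨hvQ, ?_⟩, by exact_mod_cast hvS⟩, hvia⟩)
            rintro (h | h)
            · exact hvE h
            · exact hvu h)
    omega)
  exact eq_contra C.strQ C.Q21 C.EQ C.Emin hu huE z L hz hzE hL hd fun i => (hv i).via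

end P71954f
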