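import Pool.Agent.Lib.P71954f.K1

/-!
# Module FB (P71954f): fan bigons

`fb`: two paths `La : u ⇝ a`, `Lb : u ⇝ b` sharing only `u`, a walk `a ⇝ b` in `M \ {u}` and a walk `b ⇝ u` in `M` give a `2+1` in `M`.
Sketch: replace `Lb` by a tight subset (`tighten`).  Let `T := Lb ∪ {b}`; `RS.first_hit` on the walk `a ⇝ b` in `M \ {u}` (a ∉ T) gives `t ∈ T` with
`Via G ((M \ {u}) \ T) a t`.  Bigon `u ⇒ t` in `M`: first set `Lb \ {t}` (`Tight.pre`, or `Lb` itself when `t = b`), second set
`La ∪ {a} ∪ (((M \ {u}) \ T) \ {t})` (Via1 because it passes through `a`; restrict with `Via.diff_end`).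
Return: `t ⇝ b` through `Lb` (`Tight.post`) then `b ⇝ u`.  Apply `k1`.
CAREFUL: second set must avoid the first one: `La` and `Lb` are disjoint and the walk avoids `T ⊇ Lb`.
`ifb`: apply `fb` to the reversed digraph `Rev G` with `u := h`, `a := b`, `b := a` and use `has21_rev`, `via_rev`, `rs_rev`.
-/

set_option autoImplicit false

namespace P71954f

variable {V : Type*} {G : V → V → Prop} {M : Set V}

theorem fb {u a b : V} {La Lb : Set V} (hab : a ≠ b) (hau : a ≠ u) (hbu : b ≠ u)
    (hLa : La ⊆ M \ {u, a, b}) (hLb : Lb ⊆ M \ {u, a, b}) (hd : Disjoint La Lb)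
    (h1 : Via G La u a) (h2 : Via G Lb u b) (h3 : RS G (M \ {u}) a b) (h4 : RS G M b u) :
    Has21 G M := by
  obtain ⟨L, hL, hT⟩ := tighten h2
  have haL : a ∉ L := fun h => (hLb (hL h)).2 (by simp)
  have haT : a ∉ L ∪ {b} := by
    rintro (h | h)
    · exact haL h
    · exact hab h
  obtain ⟨t, htT, htM, hat, htb⟩ := h3.first_hit (T := L ∪ {b}) (Or.inr rfl) haT
  have hta : a ≠ t := fun h => haT (h ▸ htT)
  have htu : u ≠ t := fun h => htM.2 h.symm
  have htLa : t ∉ La := by
    intro h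
    rcases htT with h' | h'
    · exact Set.disjoint_left.1 hd h (hL h')
    · exact (hLa h).2 (by simp [Set.mem_singleton_iff.1 h'])
  have hsub : M \ {u} ⊆ M := Set.sdiff_subset
  have hbig : Big G M u t := by
    refine ⟨htu, h4.right, htM.1, L \ {t}, La ∪ {a} ∪ (((M \ {u}) \ (L ∪ {b})) \ {t}),
      ?_, ?_, ?_, ?_, ?_⟩
    · rintro v ⟨hv, hvt⟩
      have h := hLb (hL hv)
      refine ⟨h.1, ?_⟩
      rintro (h' | h')
      · exact h.2 (Or.inl h')
      · exact hvt h'
    · rintro v ((hv | hv) | hv)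
      · have h := hLa hv
        refine ⟨h.1, ?_⟩
        rintro (h' | h')
        · exact h.2 (Or.inl h')
        · rw [Set.mem_singleton_iff] at h'
          exact htLa (h' ▸ hv)
      · rw [Set.mem_singleton_iff] at hv
        subst hv
        refine ⟨h3.left.1, ?_⟩
        rintro (h' | h')
        · exact hau h'
        · exact hta h'
      · refine ⟨hv.1.1.1, ?_⟩
        rintro (h' | h')
        · exact hv.1.1.2 h'
        · exact hv.2 h'
    · rw [Set.disjoint_left]
      rintro v ⟨hv, _⟩ ((h' | h') | h')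
      · exact Set.disjoint_left.1 hd h' (hL hv)
      · rw [Set.mem_singleton_iff] at h'
        exact haL (h' ▸ hv)
      · exact h'.1.2 (Or.inl hv)
    · rcases htT with h' | h'
      · exact hT.pre t h'
      · rw [Set.mem_singleton_iff] at h'
        rw [h']
        exact hT.via.diff_end
    · refine Via.trans1 (b := a) (h1.mono ?_) (Or.inl (Or.inr rfl)) (hat.diff_end.mono ?_)
      · exact fun v hv => Or.inl (Or.inl hv)
      · exact fun v hv => Or.inr hv
  obtain ⟨t', ht'⟩ := k1 hbig ((htb.mono hsub).trans h4)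
  exact ⟨u, t', ht'⟩

theorem ifb {h a b : V} {La Lb : Set V} (hab : a ≠ b) (hah : a ≠ h) (hbh : b ≠ h)
    (hLa : La ⊆ M \ {h, a, b}) (hLb : Lb ⊆ M \ {h, a, b}) (hd : Disjoint La Lb)
    (h1 : Via G La a h) (h2 : Via G Lb b h) (h3 : RS G (M \ {h}) a b) (h4 : RS G M h a) :
    Has21 G M := by
  have he : ({h, a, b} : Set V) = {h, b, a} := by
    ext v
    simp only [Set.mem_insert_iff, Set.mem_singleton_iff]
    tauto
  rw [he] at hLa hLb
  exact has21_rev.1 (fb (G := Rev G) (u := h) (a := b) (b := a) hab.symm hbh hah hLb hLa hd.symm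
    (via_rev.2 h2) (via_rev.2 h1) (rs_rev.2 h3) (rs_rev.2 h4))

end P71954f
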