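import Pool.Agent.Lib.P71954f.Fan

/-!
# Module FanH (P71954f): five paths from `Q` to a vertex `h` of `B`

`fan_in` with `K := 5`, `u := h`, `Z := Q`, `W := B \ {h}`.  Given `S`, `|S| < 5`, `h ∉ S`, suppose no `z ∈ Q \ S` has `Via G (W \ S) z h`; `X := {v | v = h ∨ (v ∈ W \ S ∧ Via G (W \ S) v h)}`.
In-neighbours `v ∉ X` of `X` (`X ⊆ B`): `v ∈ R`: `C.nRB`; `v ∈ U`: `C.nUB`; `v ∈ Q`: then `v ∈ S` by assumption; `v ∈ B`: `v ∈ S` or `v ∈ X`.  `r ∈ R` (from `C.Rne`) satisfies the second hypothesis of `C.cin`.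
-/

set_option autoImplicit false

namespace P71954f

variable {V : Type*} {G : V → V → Prop} {R B U Q : Set V}

theorem fan_h [Finite V] (C : Conf G R B U Q Q) {h : V} (hh : h ∈ B) :
    ∃ (b : Fin 5 → V) (L : Fin 5 → Set V), Function.Injective b ∧ (∀ i, b i ∈ Q) ∧
      (∀ i, L i ⊆ B \ {h}) ∧ (∀ i j, i ≠ j → Disjoint (L i) (L j)) ∧
      ∀ i, Tight G (L i) (b i) h := by
  have key : ∀ S : Finset V, S.card < 5 → h ∉ S →
      ∃ z ∈ Q, z ∉ S ∧ Via G ((B \ {h}) \ (S : Set V)) z h := by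
    intro S hS hhS
    by_contra hcon
    push Not at hcon
    set W : Set V := (B \ {h}) \ (S : Set V) with hW
    set X : Set V := {v | v = h ∨ (v ∈ W ∧ Via G W v h)} with hX
    have hXB : ∀ x ∈ X, x ∈ B := by
      rintro x (hx | hx)
      · rw [hx]; exact hh
      · exact hx.1.1.1
    -- an in-neighbour of `X` is joined to `h`
    have hstep : ∀ v x, x ∈ X → G v x → Via G W v h := by
      rintro v x (hx | hx) hvx
      · rw [hx] at hvx
        exact Via.adj hvx
      · exact (Via.adj hvx).trans hx.1 hx.2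
    have hin : ∀ v, v ∉ X → (∃ x ∈ X, G v x) → v ∈ S := by
      rintro v hv ⟨x, hx, hvx⟩
      have hvia := hstep v x hx hvx
      have hxB := hXB x hx
      rcases C.cover v with h1 | h1 | h1 | h1
      · exact absurd hvx (C.nRB v h1 x hxB)
      · by_contra hvS
        apply hv
        by_cases hvh : v = h
        · exact Or.inl hvh
        · exact Or.inr ⟨⟨⟨h1, hvh⟩, hvS⟩, hvia⟩
      · exact absurd hvx (C.nUB v h1 x hxB)
      · by_contra hvS
        exact hcon v h1 hvS hvia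
    obtain ⟨r, hr⟩ := C.Rne
    have hcard := C.cin X ⟨h, Or.inl rfl⟩ ⟨r, fun hrX =>
      Set.disjoint_left.1 C.dRB hr (hXB r hrX), fun x hx => C.nRB r hr x (hXB x hx)⟩ S hin
    omega
  exact fan_in G 5 h Q (B \ {h}) (fun hQ => Set.disjoint_left.1 C.dBQ hh hQ)
    (fun hW => hW.2 rfl) (Set.disjoint_left.2 fun q hq hqB =>
      Set.disjoint_left.1 C.dBQ hqB.1 hq) key

end P71954f
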