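import Pool.Agent.Lib.P71954f.Lists

/-!
# Module Final (P71954f): from `TT` to four lists

`lists_of_TT`: from `TT G x y` with `G p q := D.Adj p q ∧ p ≠ q` take the simple lists of the four walks (`exists_list_of_via`, `exists_list_of_via1`), `P₁ := x :: (l1 ++ [y])` etc.  `P₁ ≠ P₂`: `l2 ≠ []` has a member `v ∈ S2`, and
`v ∉ P₁` since `S1, S2` are disjoint and `S2` avoids `x, y`.  The index conditions `P[i]? = some a → P[i+1]? = some b → D.Adj a b` follow from `IsChain` (e.g. `List.isChain_iff_getElem`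
or induction).  `Nodup`: `x, y ∉ S_i`, `x ≠ y`.
`strong_of_lists`: the hypothesis of the frozen statement gives `Strong (fun p q => D.Adj p q ∧ p ≠ q) 5`: a list of vertices outside `S` with consecutive arcs gives `RS` (skip equal consecutive vertices), induction on the list.
-/

set_option autoImplicit false

namespace P71954f

variable {V : Type*}

namespace FinalAux

theorem getLast_path (x y : V) (l : List V) : (x :: (l ++ [y])).getLast? = some y := by
  rw [← List.cons_append, List.getLast?_append]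
  simp

theorem index_path {D : Digraph V} {P : List V} (hc : List.IsChain (fun p q => D.Adj p q ∧ p ≠ q) P)
    (i : ℕ) (a b : V) (ha : P[i]? = some a) (hb : P[i+1]? = some b) : D.Adj a b := by
  obtain ⟨h1, h2⟩ := List.getElem?_eq_some_iff.1 ha
  obtain ⟨h3, h4⟩ := List.getElem?_eq_some_iff.1 hb
  have h := List.isChain_iff_getElem.1 hc i h3
  rw [h2, h4] at h
  exact h.1

theorem nodup_path {x y : V} {l : List V} {S : Set V} (hxy : x ≠ y) (hS : S ⊆ {x, y}ᶜ)
    (hl : ∀ v ∈ l, v ∈ S) (hn : l.Nodup) : (x :: (l ++ [y])).Nodup := by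
  have hx : ∀ v ∈ l, v ≠ x ∧ v ≠ y := by
    intro v hv
    have := hS (hl v hv)
    rw [Set.mem_compl_iff, Set.mem_insert_iff, Set.mem_singleton_iff, not_or] at this
    exact this
  rw [List.nodup_cons, List.nodup_append]
  refine ⟨?_, hn, List.nodup_singleton y, ?_⟩
  · rw [List.mem_append, List.mem_singleton]
    rintro (h | h)
    · exact (hx x h).1 rfl
    · exact hxy h
  · intro a ha b hb
    rw [List.mem_singleton] at hb
    rw [hb]
    exact (hx a ha).2

theorem mem_path {x y w : V} {l : List V} {S : Set V} (hl : ∀ v ∈ l, v ∈ S)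
    (hw : w ∈ x :: (l ++ [y])) : w = x ∨ w = y ∨ w ∈ S := by
  rw [List.mem_cons, List.mem_append, List.mem_singleton] at hw
  rcases hw with h | h | h
  · exact Or.inl h
  · exact Or.inr (Or.inr (hl w h))
  · exact Or.inr (Or.inl h)

theorem inter_path {x y x' y' w : V} {l l' : List V} {S S' : Set V} (hl : ∀ v ∈ l, v ∈ S)
    (hl' : ∀ v ∈ l', v ∈ S') (hd : Disjoint S S') (h : w ∈ x :: (l ++ [y])) (h' : w ∈ x' :: (l' ++ [y']))
    (hxy : (x' = x ∧ y' = y) ∨ (x' = y ∧ y' = x)) : w = x ∨ w = y := by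
  rcases mem_path hl h with h1 | h1 | h1
  · exact Or.inl h1
  · exact Or.inr h1
  · rcases mem_path hl' h' with h2 | h2 | h2
    · rcases hxy with ⟨e1, e2⟩ | ⟨e1, e2⟩
      · exact Or.inl (h2.trans e1)
      · exact Or.inr (h2.trans e1)
    · rcases hxy with ⟨e1, e2⟩ | ⟨e1, e2⟩
      · exact Or.inr (h2.trans e2)
      · exact Or.inl (h2.trans e2)
    · exact absurd h2 (Set.disjoint_left.1 hd h1)

theorem ne_path {x y : V} {l l' : List V} {S S' : Set V} (hl : ∀ v ∈ l, v ∈ S)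
    (hl' : ∀ v ∈ l', v ∈ S') (hd : Disjoint S S') (hS' : S' ⊆ {x, y}ᶜ) (h0 : l' ≠ []) :
    x :: (l ++ [y]) ≠ x :: (l' ++ [y]) := by
  intro e
  obtain ⟨v, hv⟩ := List.exists_mem_of_ne_nil l' h0
  have h1 : v ∈ x :: (l ++ [y]) := by
    rw [e]
    simp [hv]
  have h2 := hS' (hl' v hv)
  rw [Set.mem_compl_iff, Set.mem_insert_iff, Set.mem_singleton_iff, not_or] at h2
  rcases mem_path hl h1 with h | h | h
  · exact h2.1 h
  · exact h2.2 h
  · exact Set.disjoint_left.1 hd h (hl' v hv)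

end FinalAux

open FinalAux

theorem lists_of_TT (D : Digraph V) {x y : V} (h : TT (fun p q => D.Adj p q ∧ p ≠ q) x y) :
    ∃ P₁ P₂ Q₁ Q₂ : List V,
        (P₁.Nodup ∧ P₁.head? = some x ∧ P₁.getLast? = some y ∧
          ∀ (i : ℕ) (a b : V), P₁[i]? = some a → P₁[i+1]? = some b → D.Adj a b) ∧
        (P₂.Nodup ∧ P₂.head? = some x ∧ P₂.getLast? = some y ∧
          ∀ (i : ℕ) (a b : V), P₂[i]? = some a → P₂[i+1]? = some b → D.Adj a b) ∧
        (Q₁.Nodup ∧ Q₁.head? = some y ∧ Q₁.getLast? = some x ∧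
          ∀ (i : ℕ) (a b : V), Q₁[i]? = some a → Q₁[i+1]? = some b → D.Adj a b) ∧
        (Q₂.Nodup ∧ Q₂.head? = some y ∧ Q₂.getLast? = some x ∧
          ∀ (i : ℕ) (a b : V), Q₂[i]? = some a → Q₂[i+1]? = some b → D.Adj a b) ∧
        P₁ ≠ P₂ ∧ Q₁ ≠ Q₂ ∧
        (∀ w : V, w ∈ P₁ → w ∈ P₂ → w = x ∨ w = y) ∧
        (∀ w : V, w ∈ Q₁ → w ∈ Q₂ → w = x ∨ w = y) ∧
        (∀ w : V, w ∈ P₁ → w ∈ Q₁ → w = x ∨ w = y) ∧
        (∀ w : V, w ∈ P₁ → w ∈ Q₂ → w = x ∨ w = y) ∧
        (∀ w : V, w ∈ P₂ → w ∈ Q₁ → w = x ∨ w = y) ∧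
        (∀ w : V, w ∈ P₂ → w ∈ Q₂ → w = x ∨ w = y) := by
  obtain ⟨hxy, S1, S2, S3, S4, s1, s2, s3, s4, d12, d13, d14, d23, d24, d34, v1, v2, v3, v4⟩ := h
  obtain ⟨l1, n1, m1, c1⟩ := exists_list_of_via v1
  obtain ⟨l2, z2, n2, m2, c2⟩ := exists_list_of_via1 v2
  obtain ⟨l3, n3, m3, c3⟩ := exists_list_of_via v3
  obtain ⟨l4, z4, n4, m4, c4⟩ := exists_list_of_via1 v4
  have s3' : S3 ⊆ {y, x}ᶜ := by rw [Set.pair_comm]; exact s3
  have s4' : S4 ⊆ {y, x}ᶜ := by rw [Set.pair_comm]; exact s4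
  refine ⟨x :: (l1 ++ [y]), x :: (l2 ++ [y]), y :: (l3 ++ [x]), y :: (l4 ++ [x]),
    ⟨nodup_path hxy s1 m1 n1, rfl, getLast_path x y l1, index_path c1⟩,
    ⟨nodup_path hxy s2 m2 n2, rfl, getLast_path x y l2, index_path c2⟩,
    ⟨nodup_path hxy.symm s3' m3 n3, rfl, getLast_path y x l3, index_path c3⟩,
    ⟨nodup_path hxy.symm s4' m4 n4, rfl, getLast_path y x l4, index_path c4⟩,
    ne_path m1 m2 d12 s2 z2, ne_path m3 m4 d34 s4' z4, ?_, ?_, ?_, ?_, ?_, ?_⟩
  · intro w h h'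
    exact inter_path m1 m2 d12 h h' (Or.inl ⟨rfl, rfl⟩)
  · intro w h h'
    exact (inter_path m3 m4 d34 h h' (Or.inl ⟨rfl, rfl⟩)).symm
  · intro w h h'
    exact inter_path m1 m3 d13 h h' (Or.inr ⟨rfl, rfl⟩)
  · intro w h h'
    exact inter_path m1 m4 d14 h h' (Or.inr ⟨rfl, rfl⟩)
  · intro w h h'
    exact inter_path m2 m3 d23 h h' (Or.inr ⟨rfl, rfl⟩)
  · intro w h h'
    exact inter_path m2 m4 d24 h h' (Or.inr ⟨rfl, rfl⟩)

theorem strong_of_lists (D : Digraph V) (K : ℕ)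
    (h : ∀ S : Finset V, S.card < K → ∀ u v : V, u ∉ S → v ∉ S →
          ∃ l : List V, l.head? = some u ∧ l.getLast? = some v ∧ (∀ w ∈ l, w ∉ S) ∧
            ∀ (i : ℕ) (a b : V), l[i]? = some a → l[i+1]? = some b → D.Adj a b) :
    Strong (fun p q => D.Adj p q ∧ p ≠ q) K := by
  intro S hS a ha b hb
  obtain ⟨l, h1, h2, h3, h4⟩ := h S hS a b ha hb
  clear h
  induction l generalizing a with
  | nil => simp at h1
  | cons c l ih =>
    have hca : c = a := by simpa using h1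
    subst hca
    cases l with
    | nil =>
      have hcb : c = b := by simpa using h2
      subst hcb
      exact RS.refl (by simpa using ha)
    | cons d l =>
      have hd : d ∉ S := h3 d (by simp)
      have hadj : D.Adj c d := h4 0 c d (by simp) (by simp)
      have h5 := ih d hd rfl (by rw [List.getLast?_cons_cons] at h2; exact h2)
        (fun w hw => h3 w (List.mem_cons_of_mem _ hw))
        (fun i a b hab hab' => h4 (i + 1) a b (by simpa using hab) (by simpa using hab'))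
      by_cases hcd : c = d
      · rw [hcd]
        exact h5
      · exact RS.head (by simpa using ha) ⟨hadj, hcd⟩ h5

end P71954f
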