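import Pool.Agent.Lib.P71954f.Entries

/-!
# Module Hub (P71954f): the `2+2` with branch vertices `h` and `g`

`W' := (U \ U1) ∪ B`.  `TT G h g` with
`S1 := SY` (h to g); `S2 := SX ∪ R ∪ U1 ∪ {f}` (h to g: `root_path` from `h` to `f` through `SX ∪ R ∪ U1`, then the arc `f → g`: `Via.trans1` at `f`);
`S3 := Γg` (g to h); `S4 := (Q \ {f, g}) ∪ Γb` (g to h: the walk `RS G (Q \ {f}) g b'` (`hgb`), `Via` after removing `g` (`Via.diff_start`), then `b'`, then `Γb`: `Via.trans1` at `b'`).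
Disjointness: `SY, Γg, Γb ⊆ W' \ {h}`, `SX ⊆ B \ {h}`, `U1 ⊆ U` disjoint from `W'` parts (`W' ∩ U = U \ U1`), `f, g ∈ Q`.
-/

set_option autoImplicit false

namespace P71954f

variable {V : Type*} {G : V → V → Prop} {R B U Q : Set V}

theorem hub (C : Conf G R B U Q Q) {f g h r b' : V} {SX SY Γg Γb : Set V}
    (hf : f ∈ Fs G R U Q) (hg : g ∈ Q) (hfg : G f g) (hh : h ∈ B) (hr : r ∈ R)
    (hSX : SX ⊆ B \ {h}) (hSY : SY ⊆ ((U \ U1 G R U) ∪ B) \ {h})
    (hΓg : Γg ⊆ ((U \ U1 G R U) ∪ B) \ {h}) (hΓb : Γb ⊆ ((U \ U1 G R U) ∪ B) \ {h})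
    (hb' : b' ∈ Q) (hbf : b' ≠ f) (hbg : b' ≠ g) (hgb : RS G (Q \ {f}) g b')
    (d1 : Disjoint SX SY) (d2 : Disjoint Γg Γb) (d3 : Disjoint Γg SX) (d4 : Disjoint Γg SY)
    (d5 : Disjoint Γb SX) (d6 : Disjoint Γb SY)
    (v1 : Via G SX h r) (v2 : Via G SY h g) (v3 : Via G Γg g h) (v4 : Via G Γb b' h) :
    TT G h g := by
  have hfQ : f ∈ Q := hf.1
  have a1 : ∀ x, x ∈ R → x ∉ B := fun x h1 h2 => Set.disjoint_left.1 C.dRB h1 h2
  have a2 : ∀ x, x ∈ R → x ∉ U := fun x h1 h2 => Set.disjoint_left.1 C.dRU h1 h2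
  have a3 : ∀ x, x ∈ R → x ∉ Q := fun x h1 h2 => Set.disjoint_left.1 C.dRQ h1 h2
  have a4 : ∀ x, x ∈ B → x ∉ U := fun x h1 h2 => Set.disjoint_left.1 C.dBU h1 h2
  have a5 : ∀ x, x ∈ B → x ∉ Q := fun x h1 h2 => Set.disjoint_left.1 C.dBQ h1 h2
  have a6 : ∀ x, x ∈ U → x ∉ Q := fun x h1 h2 => Set.disjoint_left.1 C.dUQ h1 h2
  have a7 : ∀ x, x ∈ U1 G R U → x ∈ U := fun x h1 => h1.1
  have sX : ∀ x, x ∈ SX → x ∈ B ∧ x ≠ h := fun x h1 => hSX h1
  have sY : ∀ x, x ∈ SY → ((x ∈ U ∧ x ∉ U1 G R U) ∨ x ∈ B) ∧ x ≠ h := fun x h1 => hSY h1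
  have sg : ∀ x, x ∈ Γg → ((x ∈ U ∧ x ∉ U1 G R U) ∨ x ∈ B) ∧ x ≠ h := fun x h1 => hΓg h1
  have sb : ∀ x, x ∈ Γb → ((x ∈ U ∧ x ∉ U1 G R U) ∨ x ∈ B) ∧ x ≠ h := fun x h1 => hΓb h1
  have e1 : ∀ x, x ∈ SX → x ∉ SY := fun x h1 h2 => Set.disjoint_left.1 d1 h1 h2
  have e2 : ∀ x, x ∈ Γg → x ∉ Γb := fun x h1 h2 => Set.disjoint_left.1 d2 h1 h2
  have e3 : ∀ x, x ∈ Γg → x ∉ SX := fun x h1 h2 => Set.disjoint_left.1 d3 h1 h2
  have e4 : ∀ x, x ∈ Γg → x ∉ SY := fun x h1 h2 => Set.disjoint_left.1 d4 h1 h2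
  have e5 : ∀ x, x ∈ Γb → x ∉ SX := fun x h1 h2 => Set.disjoint_left.1 d5 h1 h2
  have e6 : ∀ x, x ∈ Γb → x ∉ SY := fun x h1 h2 => Set.disjoint_left.1 d6 h1 h2
  have hfg' : f ≠ g := by
    rintro rfl
    exact C.irr _ hfg
  have hhQ : h ∉ Q := a5 h hh
  have hhR : h ∉ R := fun h1 => a1 h h1 hh
  have hhU : h ∉ U := a4 h hh
  have hgh : h ≠ g := by
    rintro rfl
    exact hhQ hg
  have hhf : h ≠ f := by
    rintro rfl
    exact hhQ hfQ
  have hgR : g ∉ R := fun h1 => a3 g h1 hg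
  have hgU : g ∉ U := fun h1 => a6 g h1 hg
  have hgB : g ∉ B := fun h1 => a5 g h1 hg
  have hfR : f ∉ R := fun h1 => a3 f h1 hfQ
  have hfU : f ∉ U := fun h1 => a6 f h1 hfQ
  have hfB : f ∉ B := fun h1 => a5 f h1 hfQ
  refine ⟨hgh, SY, SX ∪ R ∪ U1 G R U ∪ {f}, Γg, (Q \ {f, g}) ∪ Γb, ?_, ?_, ?_, ?_, ?_, ?_, ?_, ?_,
    ?_, ?_, v2, ?_, v3, ?_⟩
  · intro x hx
    have := sY x hx
    simp only [Set.mem_compl_iff, Set.mem_insert_iff, Set.mem_singleton_iff, not_or]
    refine ⟨this.2, ?_⟩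
    rintro rfl
    tauto
  · intro x hx
    simp only [Set.mem_union, Set.mem_singleton_iff] at hx
    simp only [Set.mem_compl_iff, Set.mem_insert_iff, Set.mem_singleton_iff, not_or]
    rcases hx with ((hx | hx) | hx) | hx
    · refine ⟨(sX x hx).2, ?_⟩
      rintro rfl
      exact hgB (sX _ hx).1
    · constructor
      · rintro rfl
        exact hhR hx
      · rintro rfl
        exact hgR hx
    · constructor
      · rintro rfl
        exact hhU (a7 _ hx)
      · rintro rfl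
        exact hgU (a7 _ hx)
    · constructor
      · rintro rfl
        exact hhf hx
      · rintro rfl
        exact hfg' hx.symm
  · intro x hx
    have := sg x hx
    simp only [Set.mem_compl_iff, Set.mem_insert_iff, Set.mem_singleton_iff, not_or]
    refine ⟨this.2, ?_⟩
    rintro rfl
    tauto
  · intro x hx
    simp only [Set.mem_union, Set.mem_sdiff, Set.mem_insert_iff, Set.mem_singleton_iff, not_or] at hx
    simp only [Set.mem_compl_iff, Set.mem_insert_iff, Set.mem_singleton_iff, not_or]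
    rcases hx with hx | hx
    · refine ⟨?_, hx.2.2⟩
      rintro rfl
      exact hhQ hx.1
    · have := sb x hx
      refine ⟨this.2, ?_⟩
      rintro rfl
      tauto
  · rw [Set.disjoint_left]
    intro x h1 h2
    simp only [Set.mem_union, Set.mem_singleton_iff] at h2
    have := sY x h1
    rcases h2 with ((h2 | h2) | h2) | h2
    · exact e1 x h2 h1
    · rcases this.1 with h3 | h3
      · exact a2 x h2 h3.1
      · exact a1 x h2 h3
    · rcases this.1 with h3 | h3
      · exact h3.2 h2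
      · exact a4 x h3 (a7 x h2)
    · subst h2
      rcases this.1 with h3 | h3
      · exact hfU h3.1
      · exact hfB h3
  · rw [Set.disjoint_left]
    intro x h1 h2
    exact e4 x h2 h1
  · rw [Set.disjoint_left]
    intro x h1 h2
    simp only [Set.mem_union, Set.mem_sdiff, Set.mem_insert_iff, Set.mem_singleton_iff] at h2
    have := sY x h1
    rcases h2 with h2 | h2
    · rcases this.1 with h3 | h3
      · exact a6 x h3.1 h2.1
      · exact a5 x h3 h2.1
    · exact e6 x h2 h1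
  · rw [Set.disjoint_left]
    intro x h2 h1
    simp only [Set.mem_union, Set.mem_singleton_iff] at h2
    have := sg x h1
    rcases h2 with ((h2 | h2) | h2) | h2
    · exact e3 x h1 h2
    · rcases this.1 with h3 | h3
      · exact a2 x h2 h3.1
      · exact a1 x h2 h3
    · rcases this.1 with h3 | h3
      · exact h3.2 h2
      · exact a4 x h3 (a7 x h2)
    · subst h2
      rcases this.1 with h3 | h3
      · exact hfU h3.1
      · exact hfB h3
  · rw [Set.disjoint_left]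
    intro x h2 h1
    simp only [Set.mem_union, Set.mem_singleton_iff] at h2
    simp only [Set.mem_union, Set.mem_sdiff, Set.mem_insert_iff, Set.mem_singleton_iff,
      not_or] at h1
    rcases h1 with h1 | h1
    · rcases h2 with ((h2 | h2) | h2) | h2
      · exact a5 x (sX x h2).1 h1.1
      · exact a3 x h2 h1.1
      · exact a6 x (a7 x h2) h1.1
      · exact h1.2.1 h2
    · have := sb x h1
      rcases h2 with ((h2 | h2) | h2) | h2
      · exact e5 x h1 h2
      · rcases this.1 with h3 | h3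
        · exact a2 x h2 h3.1
        · exact a1 x h2 h3
      · rcases this.1 with h3 | h3
        · exact h3.2 h2
        · exact a4 x h3 (a7 x h2)
      · subst h2
        rcases this.1 with h3 | h3
        · exact hfU h3.1
        · exact hfB h3
  · rw [Set.disjoint_left]
    intro x h1 h2
    simp only [Set.mem_union, Set.mem_sdiff, Set.mem_insert_iff, Set.mem_singleton_iff] at h2
    have := sg x h1
    rcases h2 with h2 | h2
    · rcases this.1 with h3 | h3
      · exact a6 x h3.1 h2.1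
      · exact a5 x h3 h2.1
    · exact e2 x h1 h2
  · have hr1 := root_path C (fun x hx => (sX x hx).1) hhR hr v1 hf
    exact Via.trans1 (hr1.via.mono Set.subset_union_left) (Set.mem_union_right _ rfl) (Via.adj hfg)
  · have h1 : Via G ((Q \ {f}) \ {g, b'}) g b' := hgb.via_diff hbg.symm
    refine Via.trans1 (h1.mono ?_) ?_ (v4.mono Set.subset_union_right)
    · intro x hx
      simp only [Set.mem_sdiff, Set.mem_insert_iff, Set.mem_singleton_iff, not_or] at hx
      left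
      simp only [Set.mem_sdiff, Set.mem_insert_iff, Set.mem_singleton_iff, not_or]
      exact ⟨hx.1.1, hx.1.2, hx.2.1⟩
    · left
      simp only [Set.mem_sdiff, Set.mem_insert_iff, Set.mem_singleton_iff, not_or]
      exact ⟨hb', hbf, hbg⟩

end P71954f
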