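import Pool.Agent.Lib.P71954f.Lists

/-!
# Module K1 (P71954f): a bigon with a return walk contains a `2+1` with the same out-branch

`Big G M u z` and `RS G M z u` give `∃ t, OT G M u t`.

Sketch (set based, no lengths).  Prove by `RS.head_induction` along a walk from `q` to `u` in `M` the statement
`P q := ∀ z S1 S2 S3, z ≠ u → z ∈ M → S1, S2, S3 ⊆ M \ {u, z} pairwise disjoint → Via G S1 u z → Via1 G S2 u z →
  (q = z ∨ (q ∈ S3 ∧ Via G S3 z q)) → q ≠ u → ∃ t, OT G M u t`
(`S3` is the part of the return walk already travelled, including the current vertex `q`).  The case `q = u` is vacuous.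
Step `p → q` (arc `G p q`, `q ∈ M`): FIRST replace `S1`, `S2` by tight subsets (`tighten`, `tighten1`).
* `q = u`: done, `OT G M u z` with third set `S3` (`Via G S3 z u` from `p = z ∨ p ∈ S3`).
* `q = z`: apply the induction hypothesis with the same `z, S1, S2` and `S3 := ∅`.
* `q ∈ S3`: same `z, S1, S2, S3`.
* `q ∈ S1`: new bigon `u ⇒ q`: first set `S1 \ {q}` (by `Tight.pre`), second set `S2 ∪ {z} ∪ (S3 \ {q})` = `S2 ∪ {z} ∪ S3`
  (`Via.trans1`: u to z in S2, z, z to q in S3), `S3 := ∅`, `z := q`.
* `q ∈ S2`: new bigon: first set `S2 \ {q}` (`Tight.pre`), second set `S1 ∪ {z} ∪ S3` (Via1 because it contains `z`).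
* otherwise: `S3 := S3 ∪ {q}`.
Start with `z`, `S3 := ∅`, `q = z`.
-/

set_option autoImplicit false

namespace P71954f

variable {V : Type*} {G : V → V → Prop} {M : Set V} {u z : V}

theorem K1_step (hu : u ∈ M) {q₀ : V} (hr : RS G M q₀ u) :
    ∀ (z : V) (S1 S2 S3 : Set V), z ≠ u → z ∈ M → S1 ⊆ M \ {u, z} → S2 ⊆ M \ {u, z} →
      S3 ⊆ M \ {u, z} → Disjoint S1 S2 → Disjoint S1 S3 → Disjoint S2 S3 →
      Via G S1 u z → Via1 G S2 u z → (q₀ = z ∨ (q₀ ∈ S3 ∧ Via G S3 z q₀)) → q₀ ≠ u →
      ∃ t, OT G M u t := by
  refine hr.head_induction (P := fun q => ∀ (z : V) (S1 S2 S3 : Set V), z ≠ u → z ∈ M →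
      S1 ⊆ M \ {u, z} → S2 ⊆ M \ {u, z} →
      S3 ⊆ M \ {u, z} → Disjoint S1 S2 → Disjoint S1 S3 → Disjoint S2 S3 →
      Via G S1 u z → Via1 G S2 u z → (q = z ∨ (q ∈ S3 ∧ Via G S3 z q)) → q ≠ u →
      ∃ t, OT G M u t) ?_ ?_
  · intro z S1 S2 S3 _ _ _ _ _ _ _ _ _ _ _ h
    exact absurd rfl h
  · intro p q _ hpq hqu ih z S1 S2 S3 hzu hz h1 h2 h3 d12 d13 d23 v1 v2 hp _
    obtain ⟨T1, hT1, t1⟩ := tighten v1
    obtain ⟨T2, hT2, t2, t2'⟩ := tighten1 v2
    have h1' := hT1.trans h1
    have h2' := hT2.trans h2
    have d12' : Disjoint T1 T2 := d12.mono hT1 hT2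
    have d13' : Disjoint T1 S3 := d13.mono_left hT1
    have d23' : Disjoint T2 S3 := d23.mono_left hT2
    have hzq : Via G S3 z q := by
      rcases hp with rfl | ⟨hp3, hzp⟩
      · exact Via.adj hpq
      · exact hzp.trans hp3 (Via.adj hpq)
    by_cases hq0 : q = u
    · subst hq0
      exact ⟨z, hzu.symm, hu, hz, T1, T2, S3, h1', h2', h3, d12', d13', d23', t1.via, t2', hzq⟩
    by_cases hq1 : q = z
    · exact ih z T1 T2 ∅ hzu hz h1' h2' (Set.empty_subset _) d12' (Set.disjoint_empty _)
        (Set.disjoint_empty _) t1.via t2' (Or.inl hq1) hq0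
    by_cases hq2 : q ∈ S3
    · exact ih z T1 T2 S3 hzu hz h1' h2' h3 d12' d13' d23' t1.via t2' (Or.inr ⟨hq2, hzq⟩) hq0
    rw [Set.disjoint_left] at d12' d13' d23'
    by_cases hq3 : q ∈ T1
    · refine ih q (T1 \ {q}) (T2 ∪ {z} ∪ S3) ∅ hq0 hqu.1 ?_ ?_ (Set.empty_subset _) ?_
        (Set.disjoint_empty _) (Set.disjoint_empty _) (t1.pre q hq3) ?_ (Or.inl rfl) hq0
      · intro v hv
        have := h1' hv.1
        simp only [Set.mem_sdiff, Set.mem_insert_iff, Set.mem_singleton_iff] at this hv ⊢
        tauto
      · intro v hv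
        have hqv : v ≠ q := by
          rintro rfl
          rcases hv with (hv | hv) | hv
          · exact d12' hq3 hv
          · exact hq1 hv
          · exact d13' hq3 hv
        rcases hv with (hv | hv) | hv
        · have := h2' hv
          simp only [Set.mem_sdiff, Set.mem_insert_iff, Set.mem_singleton_iff] at this ⊢
          tauto
        · rw [Set.mem_singleton_iff] at hv
          subst hv
          simp only [Set.mem_sdiff, Set.mem_insert_iff, Set.mem_singleton_iff]
          tauto
        · have := h3 hv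
          simp only [Set.mem_sdiff, Set.mem_insert_iff, Set.mem_singleton_iff] at this ⊢
          tauto
      · rw [Set.disjoint_left]
        intro v hv hv'
        rcases hv' with (hv' | hv') | hv'
        · exact d12' hv.1 hv'
        · rw [Set.mem_singleton_iff] at hv'
          subst hv'
          exact (h1' hv.1).2 (Or.inr rfl)
        · exact d13' hv.1 hv'
      · refine Via.trans1 (b := z) (t2.via.mono ?_) (Or.inl (Or.inr rfl)) (hzq.mono ?_)
        · intro v hv; exact Or.inl (Or.inl hv)
        · intro v hv; exact Or.inr hv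
    by_cases hq4 : q ∈ T2
    · refine ih q (T2 \ {q}) (T1 ∪ {z} ∪ S3) ∅ hq0 hqu.1 ?_ ?_ (Set.empty_subset _) ?_
        (Set.disjoint_empty _) (Set.disjoint_empty _) (t2.pre q hq4) ?_ (Or.inl rfl) hq0
      · intro v hv
        have := h2' hv.1
        simp only [Set.mem_sdiff, Set.mem_insert_iff, Set.mem_singleton_iff] at this hv ⊢
        tauto
      · intro v hv
        have hqv : v ≠ q := by
          rintro rfl
          rcases hv with (hv | hv) | hv
          · exact hq3 hv
          · exact hq1 hv
          · exact d23' hq4 hv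
        rcases hv with (hv | hv) | hv
        · have := h1' hv
          simp only [Set.mem_sdiff, Set.mem_insert_iff, Set.mem_singleton_iff] at this ⊢
          tauto
        · rw [Set.mem_singleton_iff] at hv
          subst hv
          simp only [Set.mem_sdiff, Set.mem_insert_iff, Set.mem_singleton_iff]
          tauto
        · have := h3 hv
          simp only [Set.mem_sdiff, Set.mem_insert_iff, Set.mem_singleton_iff] at this ⊢
          tauto
      · rw [Set.disjoint_left]
        intro v hv hv'
        rcases hv' with (hv' | hv') | hv'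
        · exact d12' hv' hv.1
        · rw [Set.mem_singleton_iff] at hv'
          subst hv'
          exact (h2' hv.1).2 (Or.inr rfl)
        · exact d23' hv.1 hv'
      · refine Via.trans1 (b := z) (t1.via.mono ?_) (Or.inl (Or.inr rfl)) (hzq.mono ?_)
        · intro v hv; exact Or.inl (Or.inl hv)
        · intro v hv; exact Or.inr hv
    · refine ih z T1 T2 (S3 ∪ {q}) hzu hz h1' h2' ?_ ?_ ?_ ?_ t1.via t2'
        (Or.inr ⟨Or.inr rfl, hzq.mono Set.subset_union_left⟩) hq0
      · intro v hv
        rcases hv with hv | hv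
        · exact h3 hv
        · rw [Set.mem_singleton_iff] at hv
          subst hv
          have := hqu.1
          simp only [Set.mem_sdiff, Set.mem_insert_iff, Set.mem_singleton_iff]
          tauto
      · rw [Set.disjoint_left]; exact fun v hv hv' => d12' hv hv'
      · rw [Set.disjoint_left]
        intro v hv hv'
        rcases hv' with hv' | hv'
        · exact d13' hv hv'
        · rw [Set.mem_singleton_iff] at hv'
          subst hv'
          exact hq3 hv
      · rw [Set.disjoint_left]
        intro v hv hv'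
        rcases hv' with hv' | hv'
        · exact d23' hv hv'
        · rw [Set.mem_singleton_iff] at hv'
          subst hv'
          exact hq4 hv

theorem k1 (h : Big G M u z) (hr : RS G M z u) : ∃ t, OT G M u t := by
  obtain ⟨hne, hu, hz, S1, S2, h1, h2, d, v1, v2⟩ := h
  exact K1_step hu hr z S1 S2 ∅ hne.symm hz h1 h2 (Set.empty_subset _) d (Set.disjoint_empty _)
    (Set.disjoint_empty _) v1 v2 (Or.inl rfl) hne.symm

end P71954f
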