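import Pool.Agent.Lib.P71954f.Defs

/-!
# Module Select (P71954f): choosing the two last paths

Call `i : Fin 5` clean if `L i` is disjoint from `SX` and from `SY`.  By `hX`, `hY` at most two indices are not clean, so at least three are clean (classical filter on `Fin 5`, cardinalities).
* If some clean `i` has `b i = g`: `Γg := L i`, and among the other (at least two) clean `j` one has `b j ≠ f` (injectivity): `Γb := L j`.
* Otherwise at least two clean `i ≠ j` have `b i, b j ∉ {f, g}`.  `Via.first_hit` for `hG : Via G SG g h` with `T := L i ∪ L j`: either `Via G (SG \ T) g h`: `Γg := SG \ T`, `Γb := L i`; or `t ∈ T` with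
  `Via G (SG \ T) g t`; if `t ∈ L i`: `Γg := (SG \ T) ∪ L i` (`Via.trans` with `Tight.post`), `Γb := L j`; if `t ∈ L j` symmetric.
-/

set_option autoImplicit false

namespace P71954f

variable {V : Type*} {G : V → V → Prop}

namespace SelectAux

theorem hit {W SX SY SG Q : Set V} {f g h x y : V} {Li Lj : Set V}
    (hyQ : y ∈ Q) (hyf : y ≠ f) (hyg : y ≠ g) (hLi : Li ⊆ W) (hLj : Lj ⊆ W)
    (hd : Disjoint Li Lj) (ti : Tight G Li x h) (tj : Tight G Lj y h)
    (ciX : Disjoint Li SX) (ciY : Disjoint Li SY) (cjX : Disjoint Lj SX) (cjY : Disjoint Lj SY)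
    (hSG : SG ⊆ W) (dXG : Disjoint SX SG) (dYG : Disjoint SY SG) {t : V} (ht : t ∈ Li)
    (hv : Via G (SG \ (Li ∪ Lj)) g t) :
    ∃ b' ∈ Q, b' ≠ f ∧ b' ≠ g ∧ ∃ Γg Γb : Set V, Γg ⊆ W ∧ Γb ⊆ W ∧ Disjoint Γg Γb ∧
      Disjoint Γg SX ∧ Disjoint Γg SY ∧ Disjoint Γb SX ∧ Disjoint Γb SY ∧
      Via G Γg g h ∧ Via G Γb b' h := by
  refine ⟨y, hyQ, hyf, hyg, (SG \ (Li ∪ Lj)) ∪ Li, Lj, ?_, hLj, ?_, ?_, ?_, cjX, cjY, ?_, tj.via⟩
  · exact Set.union_subset (Set.sdiff_subset.trans hSG) hLi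
  · rw [Set.disjoint_left]
    rintro v (hv1 | hv1) hv2
    · exact hv1.2 (Or.inr hv2)
    · exact Set.disjoint_left.1 hd hv1 hv2
  · rw [Set.disjoint_left]
    rintro v (hv1 | hv1) hv2
    · exact Set.disjoint_left.1 dXG hv2 hv1.1
    · exact Set.disjoint_left.1 ciX hv1 hv2
  · rw [Set.disjoint_left]
    rintro v (hv1 | hv1) hv2
    · exact Set.disjoint_left.1 dYG hv2 hv1.1
    · exact Set.disjoint_left.1 ciY hv1 hv2
  · exact (hv.mono Set.subset_union_left).trans (Or.inr ht)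
      ((ti.post t ht).mono (Set.sdiff_subset.trans Set.subset_union_right))

theorem two {W SX SY SG Q : Set V} {f g h x y : V} {Li Lj : Set V}
    (hxQ : x ∈ Q) (hxf : x ≠ f) (hxg : x ≠ g)
    (hyQ : y ∈ Q) (hyf : y ≠ f) (hyg : y ≠ g) (hLi : Li ⊆ W) (hLj : Lj ⊆ W)
    (hd : Disjoint Li Lj) (ti : Tight G Li x h) (tj : Tight G Lj y h)
    (ciX : Disjoint Li SX) (ciY : Disjoint Li SY) (cjX : Disjoint Lj SX) (cjY : Disjoint Lj SY)
    (hSG : SG ⊆ W) (hG : Via G SG g h) (dXG : Disjoint SX SG) (dYG : Disjoint SY SG) :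
    ∃ b' ∈ Q, b' ≠ f ∧ b' ≠ g ∧ ∃ Γg Γb : Set V, Γg ⊆ W ∧ Γb ⊆ W ∧ Disjoint Γg Γb ∧
      Disjoint Γg SX ∧ Disjoint Γg SY ∧ Disjoint Γb SX ∧ Disjoint Γb SY ∧
      Via G Γg g h ∧ Via G Γb b' h := by
  rcases hG.first_hit (Li ∪ Lj) with h1 | ⟨t, htT, _, h1, _⟩
  · refine ⟨x, hxQ, hxf, hxg, SG \ (Li ∪ Lj), Li, Set.sdiff_subset.trans hSG, hLi, ?_, ?_, ?_,
      ciX, ciY, h1, ti.via⟩
    · rw [Set.disjoint_left]
      intro v hv1 hv2
      exact hv1.2 (Or.inl hv2)
    · rw [Set.disjoint_left]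
      intro v hv1 hv2
      exact Set.disjoint_left.1 dXG hv2 hv1.1
    · rw [Set.disjoint_left]
      intro v hv1 hv2
      exact Set.disjoint_left.1 dYG hv2 hv1.1
  · rcases htT with ht | ht
    · exact hit hyQ hyf hyg hLi hLj hd ti tj ciX ciY cjX cjY hSG dXG dYG ht h1
    · rw [Set.union_comm] at h1
      exact hit hxQ hxf hxg hLj hLi hd.symm tj ti cjX cjY ciX ciY hSG dXG dYG ht h1

end SelectAux

open SelectAux

theorem select {W SX SY SG Q : Set V} {f g h : V} (b : Fin 5 → V) (L : Fin 5 → Set V)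
    (hb : Function.Injective b) (hbQ : ∀ i, b i ∈ Q) (hL : ∀ i, L i ⊆ W)
    (hd : ∀ i j, i ≠ j → Disjoint (L i) (L j)) (ht : ∀ i, Tight G (L i) (b i) h)
    (hX : ∀ i j, i ≠ j → (L i ∩ SX).Nonempty → (L j ∩ SX).Nonempty → False)
    (hY : ∀ i j, i ≠ j → (L i ∩ SY).Nonempty → (L j ∩ SY).Nonempty → False)
    (hSG : SG ⊆ W) (hG : Via G SG g h) (dXG : Disjoint SX SG) (dYG : Disjoint SY SG) :
    ∃ b' ∈ Q, b' ≠ f ∧ b' ≠ g ∧ ∃ Γg Γb : Set V, Γg ⊆ W ∧ Γb ⊆ W ∧ Disjoint Γg Γb ∧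
      Disjoint Γg SX ∧ Disjoint Γg SY ∧ Disjoint Γb SX ∧ Disjoint Γb SY ∧
      Via G Γg g h ∧ Via G Γb b' h := by
  classical
  set Cl : Finset (Fin 5) := Finset.univ.filter (fun i => Disjoint (L i) SX ∧ Disjoint (L i) SY)
    with hCl
  set N : Finset (Fin 5) := Finset.univ.filter (fun i => (L i ∩ SX).Nonempty) with hN
  set M : Finset (Fin 5) := Finset.univ.filter (fun i => (L i ∩ SY).Nonempty) with hM
  have hN1 : N.card ≤ 1 := by
    rw [Finset.card_le_one]
    intro i hi j hj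
    by_contra hij
    exact hX i j hij (Finset.mem_filter.1 hi).2 (Finset.mem_filter.1 hj).2
  have hM1 : M.card ≤ 1 := by
    rw [Finset.card_le_one]
    intro i hi j hj
    by_contra hij
    exact hY i j hij (Finset.mem_filter.1 hi).2 (Finset.mem_filter.1 hj).2
  have hcov : (Finset.univ : Finset (Fin 5)) ⊆ Cl ∪ (N ∪ M) := by
    intro i _
    simp only [Finset.mem_union, hCl, hN, hM, Finset.mem_filter, Finset.mem_univ, true_and]
    by_cases h1 : Disjoint (L i) SX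
    · by_cases h2 : Disjoint (L i) SY
      · exact Or.inl ⟨h1, h2⟩
      · exact Or.inr (Or.inr (Set.not_disjoint_iff_nonempty_inter.1 h2))
    · exact Or.inr (Or.inl (Set.not_disjoint_iff_nonempty_inter.1 h1))
  have hcard : 2 < Cl.card := by
    have h1 := Finset.card_le_card hcov
    have h2 := Finset.card_union_le Cl (N ∪ M)
    have h3 := Finset.card_union_le N M
    rw [Finset.card_univ, Fintype.card_fin] at h1
    omega
  have hcl : ∀ i ∈ Cl, Disjoint (L i) SX ∧ Disjoint (L i) SY := fun i hi =>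
    (Finset.mem_filter.1 hi).2
  by_cases hex : ∃ i ∈ Cl, b i = g
  · obtain ⟨i, hi, hig⟩ := hex
    have h1 : 1 < (Cl.erase i).card := by
      rw [Finset.card_erase_of_mem hi]
      omega
    obtain ⟨j, hj, k, hk, hjk⟩ := Finset.one_lt_card.1 h1
    -- one of the two is not sent to `f`
    have hfin : ∃ l ∈ Cl, l ≠ i ∧ b l ≠ f := by
      by_cases hjf : b j = f
      · refine ⟨k, Finset.mem_of_mem_erase hk, Finset.ne_of_mem_erase hk, ?_⟩
        intro hkf
        exact hjk (hb (hjf.trans hkf.symm))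
      · exact ⟨j, Finset.mem_of_mem_erase hj, Finset.ne_of_mem_erase hj, hjf⟩
    obtain ⟨l, hl, hli, hlf⟩ := hfin
    refine ⟨b l, hbQ l, hlf, ?_, L i, L l, hL i, hL l, hd i l hli.symm, (hcl i hi).1, (hcl i hi).2,
      (hcl l hl).1, (hcl l hl).2, ?_, (ht l).via⟩
    · rw [← hig]
      intro h2
      exact hli (hb h2)
    · rw [← hig]
      exact (ht i).via
  · push Not at hex
    have h1 : 1 < (Cl.filter (fun i => b i ≠ f)).card := by
      have h2 : (Cl.filter (fun i => ¬ b i ≠ f)).card ≤ 1 := by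
        rw [Finset.card_le_one]
        intro i hi j hj
        have e1 := (Finset.mem_filter.1 hi).2
        have e2 := (Finset.mem_filter.1 hj).2
        push Not at e1 e2
        exact hb (e1.trans e2.symm)
      have h3 := Finset.card_filter_add_card_filter_not (s := Cl) (fun i => b i ≠ f)
      omega
    obtain ⟨i, hi, j, hj, hij⟩ := Finset.one_lt_card.1 h1
    obtain ⟨hi1, hi2⟩ := Finset.mem_filter.1 hi
    obtain ⟨hj1, hj2⟩ := Finset.mem_filter.1 hj
    exact two (hbQ i) hi2 (hex i hi1) (hbQ j) hj2 (hex j hj1) (hL i) (hL j) (hd i j hij) (ht i)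
      (ht j) (hcl i hi1).1 (hcl i hi1).2 (hcl j hj1).1 (hcl j hj1).2 hSG hG dXG dYG

end P71954f
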