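import Pool.Agent.Lib.P71954f.EightA
import Pool.Agent.Lib.P71954f.EightB
import Pool.Agent.Lib.P71954f.EarSplit
import Pool.Agent.Lib.P71954f.FanH
import Pool.Agent.Lib.P71954f.Clean
import Pool.Agent.Lib.P71954f.Select
import Pool.Agent.Lib.P71954f.Hub

/-!
# Module Nine (P71954f): the configuration contains a `2+2`

`succ_mem`: suppose `g ∉ Fs`.  `eight_a`, `eight_b` give `u1`; `C.BR u1` gives `Via G B u1 r`; `ear_split` with `W := (U \ U1) ∪ B`; `fan_h`; `clean` (for `SX`), `clean_U` (for `SY`, `U := U \ U1 ...`, `⊆ U ∪ B`);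
`select` with `W := W' \ {h}`; `hub` (`avoid_f'` for `hgb`).
`conf_final`: by contradiction, `hTT`.  `fs_nonempty` gives `f0`.  Every `q ∈ Q` is in `Fs`: tail induction along `RS G Q f0 q` using `fs_unique_out` and `succ_mem`.  `C.Q21` gives `OT G Q x y` with `x ∈ Q = Fs`: `fs_not_OT`.
-/

set_option autoImplicit false

namespace P71954f

variable {V : Type*} {G : V → V → Prop} {R B U Q : Set V}

theorem succ_mem [Finite V] (C : Conf G R B U Q Q) (hTT : ∀ x y, ¬ TT G x y) {f g : V}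
    (hf : f ∈ Fs G R U Q) (hg : g ∈ Q) (hfg : G f g) (hu : ∀ a ∈ Q, G f a → a = g) :
    g ∈ Fs G R U Q := by
  by_contra hgF
  have hfg' : f ≠ g := by
    rintro rfl
    exact C.irr _ hfg
  have hJ := eight_a C hf hg hfg hu hgF
  obtain ⟨u1, hu1, hgu1, hvia⟩ := eight_b C hTT hf hg hfg hJ
  obtain ⟨r, hr, hBr⟩ := C.BR u1 hu1
  have hgW : g ∉ (U \ U1 G R U) ∪ B := by
    rintro (h | h)
    · exact Set.disjoint_left.1 C.dUQ h.1 hg
    · exact Set.disjoint_left.1 C.dBQ h hg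
  have hrW : r ∉ (U \ U1 G R U) ∪ B := by
    rintro (h | h)
    · exact Set.disjoint_left.1 C.dRU hr h.1
    · exact Set.disjoint_left.1 C.dRB hr h
  obtain ⟨h, hhB, SX, SY, SG, hSX, hSY, hSG, dXY, dXG, dYG, tX, tY, vG⟩ :=
    ear_split (Set.subset_union_right) hgW hrW hu1 hgu1 hvia hBr
  obtain ⟨b, L, hbinj, hbQ, hLB, hLd, hLt⟩ := fan_h C hhB
  have hLW : ∀ i, L i ⊆ ((U \ U1 G R U) ∪ B) \ {h} := fun i x hx =>
    ⟨Or.inr (hLB i hx).1, (hLB i hx).2⟩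
  have hX : ∀ i j, i ≠ j → (L i ∩ SX).Nonempty → (L j ∩ SX).Nonempty → False :=
    fun i j hij h1 h2 => clean C.B21 hhB hSX
      (fun t ht => (tX.pre t ht).mono Set.sdiff_subset) tX.comp (hLB i) (hLB j) (hLd i j hij)
      (hLt i) (hLt j) h1 h2
  have hSY' : SY ⊆ (U ∪ B) \ {h} := by
    intro x hx
    rcases hSY hx with ⟨h1 | h1, h2⟩
    · exact ⟨Or.inl h1.1, h2⟩
    · exact ⟨Or.inr h1, h2⟩
  have hY : ∀ i j, i ≠ j → (L i ∩ SY).Nonempty → (L j ∩ SY).Nonempty → False :=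
    fun i j hij h1 h2 => clean_U C.B21 hhB C.nUB hSY' tY (hLB i) (hLB j) (hLd i j hij)
      (hLt i) (hLt j) h1 h2
  obtain ⟨b', hb'Q, hb'f, hb'g, Γg, Γb, hΓg, hΓb, d2, d3, d4, d5, d6, v3, v4⟩ :=
    select (f := f) b L hbinj hbQ hLW hLd hLt hX hY hSG vG dXG dYG
  exact hTT h g (hub C hf hg hfg hhB hr hSX hSY hΓg hΓb hb'Q hb'f hb'g
    (avoid_f' hfg' hu (C.strQ g hg b' hb'Q) hb'f) dXY d2 d3 d4 d5 d6 tX.via tY.via v3 v4)

theorem conf_final [Finite V] (C : Conf G R B U Q Q) : ∃ x y, TT G x y := by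
  by_contra hcon
  push Not at hcon
  obtain ⟨f0, hf0⟩ := fs_nonempty C
  have hall : ∀ q ∈ Q, q ∈ Fs G R U Q := by
    intro q hq
    refine (C.strQ f0 hf0.1 q hq).tail_induction (P := fun q => q ∈ Fs G R U Q) hf0 ?_
    intro p q _ hpq hq hp
    obtain ⟨g, hg, hpg, huniq⟩ := fs_unique_out C hcon hp
    have hqg := huniq q hq hpq
    subst hqg
    exact succ_mem C hcon hp hq hpq huniq
  obtain ⟨x, y, hOT⟩ := C.Q21
  exact fs_not_OT C hcon (hall x hOT.2.1) hOT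

end P71954f
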