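import Pool.Agent.Lib.P71954f.Start
import Pool.Agent.Lib.P71954f.ConfB
import Pool.Agent.Lib.P71954f.EqQ
import Pool.Agent.Lib.P71954f.Nine
import Pool.Agent.Lib.P71954f.Final

set_option autoImplicit false

namespace P71954f

theorem exists_TT {V : Type*} [Fintype V] {G : V → V → Prop} (hcard : 5 < Fintype.card V)
    (hirr : ∀ v, ¬ G v v) (hs : Strong G 5) : ∃ x y, TT G x y := by
  obtain ⟨r0, h0⟩ := start hcard hirr hs
  obtain ⟨R, B, U, Q, E, C⟩ := conf_exists hirr (conn_of_strong hs)
    (conn_of_strong (strong_rev hs))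
    (fun M x y h => by
      obtain ⟨T, h1, h2, h3, _⟩ := theta h
      exact ⟨T, h1, h2, h3⟩) h0
  have hE := E_eq_Q C
  subst hE
  exact conf_final C

end P71954f
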