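import Pool.Agent.Lib.P71954f.K1

/-!
# Module Start (P71954f)

`conn_of_strong`: given `X`, `r`, `S` as in `Conn` with `S.card < K`: let `S0 := S.filter (fun v => v ∉ X ∧ ∃ x ∈ X, G v x)` (classical), `S0.card ≤ S.card < K`, it still contains all in-neighbours of `X` outside `X`;
`r ∉ S0`, `x0 ∉ S0` for `x0 ∈ X`.  `Strong` gives `RS G S0ᶜ r x0`; but by `RS.tail_induction` (or head) no vertex of `X` is reached from `r ∉ X` in `S0ᶜ`.
`strong_rev`: by `rs_rev`.
`start`: `Nontrivial`: pick `r`, and `u ≠ r`.  There are distinct `a, b` with `G u a`, `G u b`, `a, b ∉ {u, r}`: otherwise the set of out-neighbours of `u` outside `{u, r}` has at most one element `n`; take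
`S := {r, n}` (or `{r}`), a vertex `w ∉ S ∪ {u}` (card > 5), `RS G Sᶜ u w` and `RS.via_diff`/first step contradict.  `Strong` with `S := {r, u}` gives `RS G {r,u}ᶜ a b`;
so `Big G {r}ᶜ u b` with `S1 := ∅` (arc `u → b`) and `S2 := {r, u, b}ᶜ` (arc `u → a`, then `a ⇝ b`, `RS.via_diff` / `Via.diff_end`).  Return walk: `Strong` with `S := {r}` gives `RS G {r}ᶜ b u`.  `k1`.
-/

set_option autoImplicit false

namespace P71954f

variable {V : Type*} {G : V → V → Prop}

theorem conn_of_strong {K : ℕ} (h : Strong G K) : Conn G K := by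
  classical
  rintro X ⟨x0, hx0⟩ ⟨r, hrX, hr⟩ S hS
  by_contra hcon
  rw [not_le] at hcon
  set S0 := S.filter (fun v => v ∉ X ∧ ∃ x ∈ X, G v x) with hS0
  have hcard : S0.card < K := (Finset.card_filter_le _ _).trans_lt hcon
  have hr0 : r ∉ S0 := by
    rw [hS0, Finset.mem_filter]
    rintro ⟨_, _, x, hx, hrx⟩
    exact hr x hx hrx
  have hx00 : x0 ∉ S0 := by
    rw [hS0, Finset.mem_filter]
    rintro ⟨_, hn, _⟩
    exact hn hx0
  have h1 := h S0 hcard r hr0 x0 hx00
  refine h1.tail_induction (P := fun p => p ∉ X) hrX ?_ hx0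
  intro p q hp hpq hq hpX hqX
  apply hp.right
  rw [Finset.mem_coe, hS0, Finset.mem_filter]
  exact ⟨hS p hpX ⟨q, hqX, hpq⟩, hpX, q, hqX, hpq⟩

theorem strong_rev {K : ℕ} (h : Strong G K) : Strong (fun a b => G b a) K := by
  intro S hS a ha b hb
  exact rs_rev.2 (h S hS b hb a ha)

theorem start [Fintype V] (hcard : 5 < Fintype.card V) (hirr : ∀ v, ¬ G v v) (h : Strong G 5) :
    ∃ r, Has21 G {r}ᶜ := by
  classical
  have : Nontrivial V := Fintype.one_lt_card_iff_nontrivial.1 (by omega)
  obtain ⟨u, r, hur⟩ := exists_pair_ne V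
  refine ⟨r, ?_⟩
  set N := Finset.univ.filter (fun v => G u v ∧ v ≠ r) with hN
  have hN1 : 1 < N.card := by
    by_contra hcon
    rw [not_lt] at hcon
    have h1 : (insert u (insert r N)).card ≤ 3 :=
      (Finset.card_insert_le _ _).trans (by
        have := Finset.card_insert_le r N
        omega)
    obtain ⟨w, hw⟩ : ∃ w, w ∉ insert u (insert r N) := by
      by_contra hall
      have h2 : insert u (insert r N) = Finset.univ := by
        rw [Finset.eq_univ_iff_forall]
        intro x
        by_contra hx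
        exact hall ⟨x, hx⟩
      rw [h2, Finset.card_univ] at h1
      omega
    have hwu : w ≠ u := fun hh => hw (by rw [hh]; exact Finset.mem_insert_self _ _)
    have hwS : w ∉ insert r N := fun hh => hw (Finset.mem_insert_of_mem hh)
    have huS : u ∉ insert r N := by
      intro hh
      rcases Finset.mem_insert.1 hh with hh | hh
      · exact hur hh
      · rw [hN, Finset.mem_filter] at hh
        exact hirr u hh.2.1
    have h3 := h (insert r N) ((Finset.card_insert_le _ _).trans_lt (by omega)) u huS w hwS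
    rcases Relation.ReflTransGen.cases_head h3.2 with h4 | ⟨q, ⟨h5, h6⟩, _⟩
    · exact hwu h4.symm
    · apply h6
      rw [Finset.mem_coe, Finset.mem_insert]
      by_cases hqr : q = r
      · exact Or.inl hqr
      · right
        rw [hN, Finset.mem_filter]
        exact ⟨Finset.mem_univ _, h5, hqr⟩
  obtain ⟨a, ha, b, hb, hab⟩ := Finset.one_lt_card.1 hN1
  rw [hN, Finset.mem_filter] at ha hb
  obtain ⟨-, hua, har⟩ := ha
  obtain ⟨-, hub, hbr⟩ := hb
  have hau : a ≠ u := by
    rintro rfl
    exact hirr _ hua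
  have hbu : b ≠ u := by
    rintro rfl
    exact hirr _ hub
  have h1 := h {r, u} (by rw [Finset.card_pair hur.symm]; norm_num) a
    (by simp [har, hau]) b (by simp [hbr, hbu])
  obtain ⟨c, hc1, hc2⟩ := (h1.via_of_ne hab).diff_end
  have hbig : Big G {r}ᶜ u b := by
    refine ⟨hbu.symm, ?_, ?_, ∅, (↑({r, u} : Finset V) : Set V)ᶜ \ {b}, ?_, ?_, ?_,
      Via.adj hub, a, c, hua, ⟨?_, hc1⟩, hc2⟩
    · simpa using hur
    · simpa using hbr
    · exact Set.empty_subset _
    · intro v hv
      simp only [Finset.coe_insert, Finset.coe_singleton, Set.mem_sdiff, Set.mem_compl_iff,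
        Set.mem_insert_iff, Set.mem_singleton_iff] at hv ⊢
      tauto
    · exact Set.empty_disjoint _
    · simp only [Finset.coe_insert, Finset.coe_singleton, Set.mem_sdiff, Set.mem_compl_iff,
        Set.mem_insert_iff, Set.mem_singleton_iff]
      tauto
  have h2 := h {r} (by rw [Finset.card_singleton]; norm_num) b (by simpa using hbr) u
    (by simpa using hur)
  rw [Finset.coe_singleton] at h2
  obtain ⟨t, ht⟩ := k1 hbig h2
  exact ⟨u, t, ht⟩

end P71954f
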