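import Pool.Agent.Lib.P71954f.Defs

/-!
# Module TransitU (P71954f)

`transit_union`: let `u ∈ R ∪ P` have an in-neighbour outside `R ∪ P`.  If `u ∈ P`, `Via G P u r''` with `r'' ∈ R`; the last arc of this walk starts in `P` (outside `R`), so `r''` has an
in-neighbour outside `R`.  If `u ∈ R`, put `r'' := u`.  Symmetric for `u' ∈ R ∪ P` with an out-neighbour outside: `r' ∈ R` with an out-neighbour outside `R` and a walk `r' ⇝ u'`.  `Transit G R` gives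
`RS G R r'' r'`.  Concatenate.

`transit_compl`: `H = Bᶜ`; vertices `u ∈ H` with an in-neighbour in `B`, `u' ∈ H` with an out-neighbour in `B`; by `hRB` (no arcs from `R` to `B`), `u' ∈ A` where `A := (R ∪ B)ᶜ`, so
`u' ∈ E`.  If `u ∈ A`: `hA`, then `hE`.  If `u ∈ R`: it has an in-neighbour outside `R`, `ho` gives `r' ∈ R` with an out-neighbour `o ∈ A`; `Transit G R` gives `RS G R u r'`, then `o`, then as before.
-/

set_option autoImplicit false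

namespace P71954f

variable {V : Type*} {G : V → V → Prop}

theorem transit_union {R P : Set V} (hR : Transit G R) (hRP : Disjoint R P)
    (h1 : ∀ p ∈ P, ∃ r ∈ R, Via G P p r) (h2 : ∀ p ∈ P, ∃ r ∈ R, Via G P r p) :
    Transit G (R ∪ P) := by
  rintro u hu u' hu' ⟨v, hv, hvu⟩ ⟨w, hw, huw⟩
  have hPR : ∀ p ∈ P, p ∉ R := fun p hp hr => (Set.disjoint_left.1 hRP) hr hp
  obtain ⟨r1, hr1, hr1in, hr1w⟩ : ∃ r ∈ R, (∃ v, v ∉ R ∧ G v r) ∧ RS G (R ∪ P) u r := by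
    rcases hu with hu | hu
    · exact ⟨u, hu, ⟨v, fun h => hv (Or.inl h), hvu⟩, RS.refl (Or.inl hu)⟩
    · obtain ⟨r, hr, hvia⟩ := h1 u hu
      refine ⟨r, hr, ?_, hvia.rs (Set.subset_union_right) (Or.inr hu) (Or.inl hr)⟩
      obtain ⟨c, hc, hcr⟩ := hvia
      rcases rtg_mem hc with h | h
      · exact ⟨c, by rw [h]; exact hPR u hu, hcr⟩
      · exact ⟨c, hPR c h, hcr⟩
  obtain ⟨r2, hr2, hr2out, hr2w⟩ : ∃ r ∈ R, (∃ w, w ∉ R ∧ G r w) ∧ RS G (R ∪ P) r u' := by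
    rcases hu' with hu' | hu'
    · exact ⟨u', hu', ⟨w, fun h => hw (Or.inl h), huw⟩, RS.refl (Or.inl hu')⟩
    · obtain ⟨r, hr, hvia⟩ := h2 u' hu'
      refine ⟨r, hr, ?_, hvia.rs (Set.subset_union_right) (Or.inl hr) (Or.inr hu')⟩
      rcases via_iff.1 hvia with h | ⟨s, e, h3, h4, _⟩
      · exact ⟨u', hPR u' hu', h⟩
      · exact ⟨s, hPR s h4.1, h3⟩
  exact hr1w.trans (((hR r1 hr1 r2 hr2 hr1in hr2out).mono Set.subset_union_left).trans hr2w)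

theorem transit_compl {R B E : Set V} (hR : Transit G R) (hRB : Disjoint R B)
    (hnRB : ∀ r ∈ R, ∀ b ∈ B, ¬ G r b)
    (hgate : ∀ a, a ∉ R → a ∉ B → (∃ b ∈ B, G a b) → a ∈ E)
    (hA : ∀ a, a ∉ R → a ∉ B → ∃ e ∈ E, RS G (R ∪ B)ᶜ a e)
    (hE : ∀ e ∈ E, ∀ e' ∈ E, RS G (R ∪ B)ᶜ e e')
    (ho : ∃ r ∈ R, ∃ o, o ∉ R ∧ o ∉ B ∧ G r o) : Transit G Bᶜ := by
  rintro u hu u' hu' ⟨v, hv, hvu⟩ ⟨w, hw, huw⟩
  have hv' : v ∈ B := by
    by_contra h
    exact hv h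
  have hw' : w ∈ B := by
    by_contra h
    exact hw h
  have hu'R : u' ∉ R := fun h => hnRB u' h w hw' huw
  have hu'E : u' ∈ E := hgate u' hu'R hu' ⟨w, hw', huw⟩
  have hsub : (R ∪ B)ᶜ ⊆ Bᶜ := Set.compl_subset_compl.2 Set.subset_union_right
  have key : ∀ a, a ∉ R → a ∉ B → RS G Bᶜ a u' := by
    intro a haR haB
    obtain ⟨e, he, hae⟩ := hA a haR haB
    exact (hae.trans (hE e he u' hu'E)).mono hsub
  by_cases huR : u ∈ R
  · obtain ⟨r, hr, o, hoR, hoB, hro⟩ := ho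
    have h1 := hR u huR r hr ⟨v, fun h => (Set.disjoint_left.1 hRB) h hv', hvu⟩ ⟨o, hoR, hro⟩
    have h2 : RS G Bᶜ u r := h1.mono fun x hx hxB => (Set.disjoint_left.1 hRB) hx hxB
    exact (h2.tail hro hoB).trans (key o hoR hoB)
  · exact key u huR hu

end P71954f
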